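import Mathlib
import Pool.Agent.H343R2.EH.Defs

set_option autoImplicit false

/-!
The least positive integer `m` with `f ∣ m ^ e`.
-/

namespace Q239.LC

open Finset

/-- the least `m` with `f ∣ m ^ e` -/
def rt (e f : ℕ) : ℕ := f.factorization.prod (fun p k => p ^ ((k + (e - 1)) / e))

lemma rt_pos (e f : ℕ) : 0 < rt e f := by
  unfold rt Finsupp.prod
  apply Finset.prod_pos
  intro p hp
  rw [Nat.support_factorization] at hp
  exact pow_pos (Nat.prime_of_mem_primeFactors hp).pos _

lemma rt_fact (e f : ℕ) (he : 1 ≤ e) (hf : f ≠ 0) (p : ℕ) :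
    (rt e f).factorization p = (f.factorization p + (e - 1)) / e := by
  unfold rt
  have h := Nat.prod_pow_factorization_eq_self (f := f.factorization.mapRange
    (fun k => (k + (e - 1)) / e) (by
      rw [zero_add]; exact Nat.div_eq_of_lt (by omega))) (by
    intro q hq
    have h1 : q ∈ f.factorization.support := Finsupp.support_mapRange hq
    rw [Nat.support_factorization] at h1
    exact Nat.prime_of_mem_primeFactors h1)
  have h2 : (f.factorization.mapRange (fun k => (k + (e - 1)) / e) (by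
      rw [zero_add]; exact Nat.div_eq_of_lt (by omega))).prod (fun x1 x2 => x1 ^ x2) =
      f.factorization.prod (fun p k => p ^ ((k + (e - 1)) / e)) := by
    rw [Finsupp.prod_mapRange_index]
    intro a
    exact pow_zero a
  rw [h2] at h
  rw [h, Finsupp.mapRange_apply]

lemma dvd_pow_iff (e f m : ℕ) (he : 1 ≤ e) (hf : f ≠ 0) (hm : m ≠ 0) :
    f ∣ m ^ e ↔ rt e f ∣ m := by
  rw [← Nat.factorization_le_iff_dvd hf (pow_ne_zero _ hm),
    ← Nat.factorization_le_iff_dvd (rt_pos e f).ne' hm, Finsupp.le_def, Finsupp.le_def]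
  apply forall_congr'
  intro p
  rw [rt_fact e f he hf, Nat.factorization_pow, Finsupp.smul_apply, smul_eq_mul]
  constructor
  · intro h
    have h1 : f.factorization p + (e - 1) < e * (m.factorization p + 1) := by
      rw [mul_add]; omega
    have := (Nat.div_lt_iff_lt_mul (by omega : 0 < e)).2 (by rw [mul_comm] at h1; exact h1)
    omega
  · intro h
    have h1 : (f.factorization p + (e - 1)) / e < m.factorization p + 1 := by omega
    rw [Nat.div_lt_iff_lt_mul (by omega : 0 < e)] at h1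
    rw [add_mul, one_mul, mul_comm] at h1
    omega

lemma le_rt_pow (e f : ℕ) (he : 1 ≤ e) (hf : f ≠ 0) : f ≤ rt e f ^ e :=
  Nat.le_of_dvd (pow_pos (rt_pos e f) e) ((dvd_pow_iff e f _ he hf (rt_pos e f).ne').2 dvd_rfl)

lemma rt_dvd (e f : ℕ) (he : 1 ≤ e) (hf : f ≠ 0) : rt e f ∣ f :=
  (dvd_pow_iff e f f he hf hf).1 (dvd_pow_self f (by omega))

lemma rt_primeFactors (e f : ℕ) (he : 1 ≤ e) (hf : f ≠ 0) :
    (rt e f).primeFactors = f.primeFactors := by
  apply subset_antisymm
  · exact Nat.primeFactors_mono (rt_dvd e f he hf) hf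
  · have h1 : f ∣ rt e f ^ e := (dvd_pow_iff e f _ he hf (rt_pos e f).ne').2 dvd_rfl
    have h2 := Nat.primeFactors_mono h1 (pow_pos (rt_pos e f) e).ne'
    rwa [Nat.primeFactors_pow _ (by omega)] at h2

lemma tot_rt (e f : ℕ) (he : 1 ≤ e) (hf : f ≠ 0) :
    Nat.totient (rt e f) * f = rt e f * Nat.totient f := by
  have h1 := Nat.totient_mul_prod_primeFactors (rt e f)
  have h2 := Nat.totient_mul_prod_primeFactors f
  rw [rt_primeFactors e f he hf] at h1
  have hP : 0 < ∏ p ∈ f.primeFactors, p :=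
    Finset.prod_pos fun p hp => (Nat.prime_of_mem_primeFactors hp).pos
  apply Nat.eq_of_mul_eq_mul_right hP
  calc Nat.totient (rt e f) * f * ∏ p ∈ f.primeFactors, p
      = (Nat.totient (rt e f) * ∏ p ∈ f.primeFactors, p) * f := by ring
    _ = rt e f * (f * ∏ p ∈ f.primeFactors, (p - 1)) := by rw [h1]; ring
    _ = rt e f * Nat.totient f * ∏ p ∈ f.primeFactors, p := by rw [← h2]; ring

lemma tot_pow (m e : ℕ) (he : 1 ≤ e) : Nat.totient (m ^ e) = m ^ (e - 1) * Nat.totient m := by
  obtain ⟨k, rfl⟩ : ∃ k, e = k + 1 := ⟨e - 1, by omega⟩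
  rw [Nat.add_sub_cancel]
  induction k with
  | zero => simp
  | succ k ih =>
    rcases Nat.eq_zero_or_pos m with h | h
    · subst h; simp
    have ih' := ih (by omega)
    have h1 := Nat.totient_gcd_mul_totient_mul m (m ^ (k + 1))
    have h2 : m.gcd (m ^ (k + 1)) = m := Nat.gcd_eq_left (dvd_pow_self m (by omega))
    rw [h2] at h1
    have h3 : 0 < Nat.totient m := Nat.totient_pos.2 h
    apply Nat.eq_of_mul_eq_mul_left h3
    have h4 : m * m ^ (k + 1) = m ^ (k + 1 + 1) := by ring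
    rw [h4] at h1
    rw [h1, ih']
    ring

/-- the sum over the multiples of the root -/
lemma sum_root (e M0 M f : ℕ) (he : 1 ≤ e) (hM0 : 1 ≤ M0) (hf : f ≠ 0) (S : Finset ℕ)
    (hS : S ⊆ Ioc M0 M) :
    ∑ m ∈ S.filter (fun m => f ∣ m ^ e), 1 / (Nat.totient (m ^ e) : ℝ) ≤
      (1 / (M0 : ℝ) ^ (e - 1)) * H343E.HH M * ((f : ℝ) / rt e f) * (1 / (Nat.totient f : ℝ)) := by
  have hM0r : (0 : ℝ) < M0 := by exact_mod_cast hM0
  have hfpos : 0 < f := Nat.pos_of_ne_zero hf
  have hφf : (0 : ℝ) < Nat.totient f := by exact_mod_cast Nat.totient_pos.2 hfpos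
  have hr := rt_pos e f
  have hrr : (0 : ℝ) < rt e f := by exact_mod_cast hr
  have hφr : (0 : ℝ) < Nat.totient (rt e f) := by exact_mod_cast Nat.totient_pos.2 hr
  have hkey : (Nat.totient (rt e f) : ℝ) * f = rt e f * Nat.totient f := by
    exact_mod_cast tot_rt e f he hf
  have h0 : ((f : ℝ) / rt e f) * (1 / (Nat.totient f : ℝ)) = 1 / (Nat.totient (rt e f) : ℝ) := by
    field_simp
    linarith
  have h1 : ∀ m ∈ S.filter (fun m => f ∣ m ^ e), 1 / (Nat.totient (m ^ e) : ℝ) ≤
      (1 / (M0 : ℝ) ^ (e - 1)) * (1 / (Nat.totient (rt e f) : ℝ)) *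
        (1 / (Nat.totient (m / rt e f) : ℝ)) := by
    intro m hm
    rw [mem_filter] at hm
    have hmS := mem_Ioc.1 (hS hm.1)
    have hm0 : m ≠ 0 := by omega
    obtain ⟨k, hk⟩ := (dvd_pow_iff e f m he hf hm0).1 hm.2
    have hk0 : 0 < k := by
      rcases Nat.eq_zero_or_pos k with h | h
      · rw [h, mul_zero] at hk; exact absurd hk hm0
      · exact h
    have hdiv : m / rt e f = k := by rw [hk]; exact Nat.mul_div_cancel_left k hr
    rw [hdiv, tot_pow m e he]
    have hφk : (0 : ℝ) < Nat.totient k := by exact_mod_cast Nat.totient_pos.2 hk0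
    have h2 : Nat.totient (rt e f) * Nat.totient k ≤ Nat.totient m := by
      rw [hk]; exact Nat.totient_super_multiplicative _ _
    have h3 : (M0 : ℝ) ^ (e - 1) ≤ (m : ℝ) ^ (e - 1) := by
      apply pow_le_pow_left₀ hM0r.le
      exact_mod_cast hmS.1.le
    push_cast
    have h4 : ((Nat.totient (rt e f) : ℝ)) * Nat.totient k ≤ Nat.totient m := by exact_mod_cast h2
    have h5 : (1 / (M0 : ℝ) ^ (e - 1)) * (1 / (Nat.totient (rt e f) : ℝ)) *
        (1 / (Nat.totient k : ℝ)) = 1 / ((M0 : ℝ) ^ (e - 1) * (Nat.totient (rt e f) * Nat.totient k)) := by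
      field_simp
    rw [h5]
    apply one_div_le_one_div_of_le (by positivity)
    exact mul_le_mul h3 h4 (by positivity) (by positivity)
  refine (sum_le_sum h1).trans ?_
  rw [← mul_sum]
  have h6 : ∑ m ∈ S.filter (fun m => f ∣ m ^ e), 1 / (Nat.totient (m / rt e f) : ℝ) ≤
      H343E.HH M := by
    unfold H343E.HH
    rw [← sum_image (s := S.filter (fun m => f ∣ m ^ e)) (g := fun m => m / rt e f)
      (f := fun k : ℕ => 1 / (Nat.totient k : ℝ))]
    · apply sum_le_sum_of_subset_of_nonneg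
      · intro k hk
        rw [mem_image] at hk
        obtain ⟨m, hm, rfl⟩ := hk
        rw [mem_filter] at hm
        have hmS := mem_Ioc.1 (hS hm.1)
        have hm0 : m ≠ 0 := by omega
        have hd := (dvd_pow_iff e f m he hf hm0).1 hm.2
        rw [mem_Icc]
        refine ⟨Nat.div_pos (Nat.le_of_dvd (by omega) hd) hr, (Nat.div_le_self _ _).trans hmS.2⟩
      · intro k _ _
        positivity
    · intro m hm m' hm' h
      rw [mem_coe, mem_filter] at hm hm'
      have hmS := mem_Ioc.1 (hS hm.1)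
      have hmS' := mem_Ioc.1 (hS hm'.1)
      have hd := (dvd_pow_iff e f m he hf (by omega)).1 hm.2
      have hd' := (dvd_pow_iff e f m' he hf (by omega)).1 hm'.2
      have h' : m / rt e f = m' / rt e f := h
      rw [← Nat.div_mul_cancel hd, ← Nat.div_mul_cancel hd', h']
  calc (1 / (M0 : ℝ) ^ (e - 1)) * (1 / (Nat.totient (rt e f) : ℝ)) *
      ∑ m ∈ S.filter (fun m => f ∣ m ^ e), 1 / (Nat.totient (m / rt e f) : ℝ)
      ≤ (1 / (M0 : ℝ) ^ (e - 1)) * (1 / (Nat.totient (rt e f) : ℝ)) * H343E.HH M := by gcongr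
    _ = (1 / (M0 : ℝ) ^ (e - 1)) * H343E.HH M *
        (((f : ℝ) / rt e f) * (1 / (Nat.totient f : ℝ))) := by rw [h0]; ring
    _ = _ := by ring

end Q239.LC
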