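import Mathlib
import Pool.Agent.W218.LF.Pair
import Pool.Agent.Q239.LC.Root

set_option autoImplicit false

/-! Counts of the coefficients of `X ^ e` for one and for two arguments. -/

namespace Q239.LC

open Finset Pool.Agent.Erdos456 Pool.Agent.Erdos456.Mert Pool.Agent.W218.HF Pool.Agent.W218.LF

lemma GG_pow {t e : ℕ} (he : 1 ≤ e) : GG (t ^ e) = GG t := by
  rcases Nat.eq_zero_or_pos t with rfl | ht
  · rw [zero_pow (by omega)]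
  unfold GG
  rw [tot_pow t e he]
  obtain ⟨n, rfl⟩ : ∃ n, e = n + 1 := ⟨e - 1, by omega⟩
  have h1 : (0 : ℝ) < t := by exact_mod_cast ht
  have h2 : (0 : ℝ) < Nat.totient t := by exact_mod_cast Nat.totient_pos.2 ht
  push_cast
  rw [pow_succ]
  field_simp

/-- two arguments -/
theorem pair_count' : ∃ C : ℝ, 0 < C ∧ ∀ (B b1 t₁ t₂ : ℕ) (G₁ G₂ : ℤ), 4 ≤ B → B ≤ b1 →
    2 * b1 ≤ 3 * B → 1 ≤ t₁ → 1 ≤ t₂ → t₁ ≠ t₂ →
    Nat.Coprime t₁ G₁.natAbs → Nat.Coprime t₂ G₂.natAbs → 0 ≤ G₁ + b1 * t₁ → 0 ≤ G₂ + b1 * t₂ →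
    ∑ b ∈ Ioc b1 (2 * B), pr (G₁ + b * t₁) * pr (G₂ + b * t₂) ≤
      C * (GG t₁ * GG t₂ * GG ((t₁ : ℤ) * G₂ - (t₂ : ℤ) * G₁).natAbs) ^ 2 * (B / Real.log B ^ 2) := by
  obtain ⟨C₃, hC₃, hsv⟩ := sieve_two'
  refine ⟨C₃ * 4, by positivity, ?_⟩
  intro B b1 t₁ t₂ G₁ G₂ hB h1 h2 ht₁ ht₂ hne12 hc₁ hc₂ hG₁ hG₂
  obtain ⟨hlB, hN2, _, hNl2⟩ := window_logs hB h1 h2
  rw [ioc_image, sum_image (fun n _ m _ h => by
      have h' : b1 + n = b1 + m := h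
      omega)]
  set N := 2 * B - b1 with hN
  have hlN : 0 ≤ Real.log N := Real.log_natCast_nonneg N
  set e₁ : ℕ := (G₁ + b1 * t₁).toNat with he₁
  set e₂ : ℕ := (G₂ + b1 * t₂).toNat with he₂
  have hee₁ : ((e₁ : ℕ) : ℤ) = G₁ + b1 * t₁ := Int.toNat_of_nonneg hG₁
  have hee₂ : ((e₂ : ℕ) : ℤ) = G₂ + b1 * t₂ := Int.toNat_of_nonneg hG₂
  have hcop : ∀ (t e : ℕ) (G : ℤ), ((e : ℕ) : ℤ) = G + b1 * t →
      Nat.Coprime t G.natAbs → Nat.Coprime t e := by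
    intro t e G h3 h5
    have h6 : IsCoprime (t : ℤ) G := by
      rw [Int.isCoprime_iff_gcd_eq_one]
      exact h5
    have h7 : IsCoprime (t : ℤ) ((e : ℕ) : ℤ) := by
      rw [h3]
      have := h6.add_mul_left_right (b1 : ℤ)
      have e3 : G + t * (b1 : ℤ) = G + b1 * t := by ring
      rwa [e3] at this
    exact Nat.isCoprime_iff_coprime.1 h7
  have hcop₁ := hcop t₁ e₁ G₁ hee₁ hc₁
  have hcop₂ := hcop t₂ e₂ G₂ hee₂ hc₂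
  have hkey : ((t₁ * e₂ : ℕ) : ℤ) - ((t₂ * e₁ : ℕ) : ℤ) = (t₁ : ℤ) * G₂ - (t₂ : ℤ) * G₁ := by
    push_cast
    rw [hee₁, hee₂]; ring
  have hne : t₁ * e₂ ≠ t₂ * e₁ := by
    intro h
    have h3 : t₁ ∣ t₂ := by
      have : t₁ ∣ t₂ * e₁ := by rw [← h]; exact dvd_mul_right _ _
      exact hcop₁.dvd_of_dvd_mul_right this
    have h4 : t₂ ∣ t₁ := by
      have : t₂ ∣ t₁ * e₂ := by rw [h]; exact dvd_mul_right _ _
      exact hcop₂.dvd_of_dvd_mul_right this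
    exact hne12 (Nat.dvd_antisymm h3 h4)
  have h3 := hsv t₁ e₁ t₂ e₂ N (by omega) (by omega) hcop₁ hcop₂ hne hN2
  rw [hkey] at h3
  rw [sum_pr_pr]
  have h4 : (Icc 1 N).filter (fun n : ℕ => (G₁ + ((b1 + n : ℕ) : ℤ) * t₁).toNat.Prime ∧
      (G₂ + ((b1 + n : ℕ) : ℤ) * t₂).toNat.Prime) =
      (Icc 1 N).filter (fun n => (t₁ * n + e₁).Prime ∧ (t₂ * n + e₂).Prime) := by
    apply filter_congr
    intro n _
    have h5 : G₁ + ((b1 + n : ℕ) : ℤ) * t₁ = ((t₁ * n + e₁ : ℕ) : ℤ) := by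
      push_cast; rw [hee₁]; ring
    have h6 : G₂ + ((b1 + n : ℕ) : ℤ) * t₂ = ((t₂ * n + e₂ : ℕ) : ℤ) := by
      push_cast; rw [hee₂]; ring
    rw [h5, h6, Int.toNat_natCast, Int.toNat_natCast]
  rw [h4]
  refine h3.trans ?_
  set v := ((t₁ : ℤ) * G₂ - (t₂ : ℤ) * G₁).natAbs with hv
  have h7 : GG (t₁ * t₂ * v) ≤ GG t₁ * GG t₂ * GG v := by
    calc GG (t₁ * t₂ * v) ≤ GG (t₁ * t₂) * GG v := GG_mul_le _ _
      _ ≤ (GG t₁ * GG t₂) * GG v := by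
          apply mul_le_mul_of_nonneg_right (GG_mul_le _ _) (GG_nonneg _)
  have h8 : GG (t₁ * t₂ * v) ^ 2 ≤ (GG t₁ * GG t₂ * GG v) ^ 2 := pow_le_pow_left₀ (GG_nonneg _) h7 2
  calc C₃ * GG (t₁ * t₂ * v) ^ 2 * N / Real.log N ^ 2
      = C₃ * GG (t₁ * t₂ * v) ^ 2 * (N / Real.log N ^ 2) := by ring
    _ ≤ C₃ * (GG t₁ * GG t₂ * GG v) ^ 2 * (4 * (B / Real.log B ^ 2)) := by gcongr
    _ = _ := by ring

end Q239.LC
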