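import Mathlib
import Pool.Agent.H398R2.BV5
import Pool.Agent.H343R2.PV

set_option autoImplicit false

/-!
Vaughan's identity with the Polya-Vinogradov inequality and the middle range treated as a bilinear
form.
-/

namespace Q239.LC

open Finset
open Pool.Agent.H398R2.BV Pool.Agent.Helper112 Pool.Agent.Helper112.TI Pool.Agent.Helper112.TII
open Pool.Agent.Helper112.BLB Pool.Agent.H410R2

theorem inner_log' {f : ℕ} (ψ : DirichletCharacter ℂ f) (Bd : ℝ)
    (hBd : ∀ n : ℕ, ‖∑ i ∈ Icc 1 n, ψ (i : ZMod f)‖ ≤ Bd) (X : ℝ)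
    (hX : 1 ≤ X) (c M : ℕ) (hc : 1 ≤ c) (hcX : (c:ℝ) ≤ X) (hM : (M : ℝ) ≤ X) :
    ‖∑ b ∈ Icc 1 M, ψ (b : ZMod f) * ((Real.log (X / ((b * c : ℕ) : ℝ)) : ℝ) : ℂ)‖ ≤
      3 * Bd * Real.log X := by
  have hL : 0 ≤ Real.log X := Real.log_nonneg hX
  have hc0 : (0:ℝ) < c := by exact_mod_cast hc
  have hf0 : (0:ℝ) ≤ Bd := (norm_nonneg _).trans (hBd 0)
  have e : ∑ b ∈ Icc 1 M, ψ (b : ZMod f) * ((Real.log (X / ((b * c : ℕ) : ℝ)) : ℝ) : ℂ) =
      ((Real.log (X / c) : ℝ) : ℂ) * ∑ b ∈ Icc 1 M, ψ (b : ZMod f) -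
      ∑ b ∈ Icc 1 M, ψ (b : ZMod f) * ((Real.log b : ℝ) : ℂ) := by
    rw [mul_sum, ← sum_sub_distrib]
    apply sum_congr rfl
    intro b hb
    rw [mem_Icc] at hb
    have hb0 : (0:ℝ) < b := by exact_mod_cast hb.1
    have : Real.log (X / ((b * c : ℕ) : ℝ)) = Real.log (X / c) - Real.log b := by
      push_cast
      rw [← Real.log_div (by positivity) (by positivity)]
      congr 1
      field_simp
    rw [this]
    push_cast
    ring
  rw [e]
  refine (norm_sub_le _ _).trans ?_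
  have h1 := abel_mono (fun i => ψ (i : ZMod f)) Bd hBd (fun n : ℕ => Real.log n)
    mono_log (by simp) M
  have h2 : ‖((Real.log (X / c) : ℝ) : ℂ) * ∑ b ∈ Icc 1 M, ψ (b : ZMod f)‖ ≤ Real.log X * Bd := by
    rw [norm_mul, Complex.norm_real, Real.norm_eq_abs]
    have h3 : |Real.log (X / c)| ≤ Real.log X := by
      have hc1 : (1:ℝ) ≤ c := by exact_mod_cast hc
      rw [abs_of_nonneg]
      · apply Real.log_le_log (by positivity)
        exact div_le_self (by linarith) hc1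
      · apply Real.log_nonneg
        rwa [le_div_iff₀ hc0, one_mul]
    exact mul_le_mul h3 (hBd M) (norm_nonneg _) hL
  have h4 : Real.log M ≤ Real.log X := by
    rcases Nat.eq_zero_or_pos M with h | h
    · subst h; simpa using hL
    · exact Real.log_le_log (by exact_mod_cast h) hM
  have h5 : 2 * Bd * Real.log M ≤ 2 * Bd * Real.log X :=
    mul_le_mul_of_nonneg_left h4 (by positivity)
  linarith

theorem inner_log_log' {f : ℕ} (ψ : DirichletCharacter ℂ f) (Bd : ℝ)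
    (hBd : ∀ n : ℕ, ‖∑ i ∈ Icc 1 n, ψ (i : ZMod f)‖ ≤ Bd) (X : ℝ)
    (hX : 1 ≤ X) (c M : ℕ) (hc : 1 ≤ c) (hcX : (c:ℝ) ≤ X) (hM : (M : ℝ) ≤ X) :
    ‖∑ b ∈ Icc 1 M, ψ (b : ZMod f) * ((Real.log b : ℝ) : ℂ) *
      ((Real.log (X / ((b * c : ℕ) : ℝ)) : ℝ) : ℂ)‖ ≤ 4 * Bd * Real.log X ^ 2 := by
  have hL : 0 ≤ Real.log X := Real.log_nonneg hX
  have hc0 : (0:ℝ) < c := by exact_mod_cast hc
  have hf0 : (0:ℝ) ≤ Bd := (norm_nonneg _).trans (hBd 0)
  have e : ∑ b ∈ Icc 1 M, ψ (b : ZMod f) * ((Real.log b : ℝ) : ℂ) *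
      ((Real.log (X / ((b * c : ℕ) : ℝ)) : ℝ) : ℂ) =
      ((Real.log (X / c) : ℝ) : ℂ) * ∑ b ∈ Icc 1 M, ψ (b : ZMod f) * ((Real.log b : ℝ) : ℂ) -
      ∑ b ∈ Icc 1 M, ψ (b : ZMod f) * ((Real.log b ^ 2 : ℝ) : ℂ) := by
    rw [mul_sum, ← sum_sub_distrib]
    apply sum_congr rfl
    intro b hb
    rw [mem_Icc] at hb
    have hb0 : (0:ℝ) < b := by exact_mod_cast hb.1
    have : Real.log (X / ((b * c : ℕ) : ℝ)) = Real.log (X / c) - Real.log b := by
      push_cast
      rw [← Real.log_div (by positivity) (by positivity)]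
      congr 1
      field_simp
    rw [this]
    push_cast
    ring
  rw [e]
  refine (norm_sub_le _ _).trans ?_
  have h1 := abel_mono (fun i => ψ (i : ZMod f)) Bd hBd (fun n : ℕ => Real.log n)
    mono_log (by simp) M
  have h1' := abel_mono (fun i => ψ (i : ZMod f)) Bd hBd
    (fun n : ℕ => Real.log n ^ 2) mono_log_sq (by simp) M
  have h4 : Real.log M ≤ Real.log X := by
    rcases Nat.eq_zero_or_pos M with h | h
    · subst h; simpa using hL
    · exact Real.log_le_log (by exact_mod_cast h) hM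
  have h4' : Real.log M ^ 2 ≤ Real.log X ^ 2 :=
    pow_le_pow_left₀ (Real.log_natCast_nonneg M) h4 2
  have h3 : |Real.log (X / c)| ≤ Real.log X := by
    have hc1 : (1:ℝ) ≤ c := by exact_mod_cast hc
    rw [abs_of_nonneg]
    · apply Real.log_le_log (by positivity)
      exact div_le_self (by linarith) hc1
    · apply Real.log_nonneg
      rwa [le_div_iff₀ hc0, one_mul]
  have h2 : ‖((Real.log (X / c) : ℝ) : ℂ) *
      ∑ b ∈ Icc 1 M, ψ (b : ZMod f) * ((Real.log b : ℝ) : ℂ)‖ ≤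
      Real.log X * (2 * Bd * Real.log X) := by
    rw [norm_mul, Complex.norm_real, Real.norm_eq_abs]
    apply mul_le_mul h3 _ (norm_nonneg _) hL
    refine h1.trans ?_
    exact mul_le_mul_of_nonneg_left h4 (by positivity)
  have h5 : 2 * Bd * Real.log M ^ 2 ≤ 2 * Bd * Real.log X ^ 2 :=
    mul_le_mul_of_nonneg_left h4' (by positivity)
  have h6 : Real.log X * (2 * Bd * Real.log X) = 2 * Bd * Real.log X ^ 2 := by ring
  linarith

/-- the coefficients of the third sum -/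
noncomputable def gg (U : ℕ) (n : ℕ) : ℝ := (mu1 U * l1 U) n

/-- the part beyond `U` -/
noncomputable def gH (U : ℕ) (n : ℕ) : ℝ := if U < n then gg U n else 0

/-- the part up to `U` -/
noncomputable def gL (U : ℕ) (n : ℕ) : ℝ := if U < n then 0 else gg U n

theorem gg_abs (U n : ℕ) : |gg U n| ≤ Real.log n := by
  unfold gg
  rw [ArithmeticFunction.mul_apply]
  calc |∑ i ∈ n.divisorsAntidiagonal, mu1 U i.1 * l1 U i.2|
      ≤ ∑ i ∈ n.divisorsAntidiagonal, ArithmeticFunction.vonMangoldt i.2 := by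
        refine (abs_sum_le_sum_abs _ _).trans (sum_le_sum fun i _ => ?_)
        rw [abs_mul, abs_of_nonneg (l1_nonneg U i.2)]
        have h1 : |mu1 U i.1| ≤ 1 := by
          rw [mu1_apply]
          split_ifs
          · exact_mod_cast ArithmeticFunction.abs_moebius_le_one
          · simp
        have h2 : l1 U i.2 ≤ ArithmeticFunction.vonMangoldt i.2 := by
          rw [l1_apply]
          split_ifs
          · exact le_rfl
          · exact ArithmeticFunction.vonMangoldt_nonneg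
        calc |mu1 U i.1| * l1 U i.2 ≤ 1 * ArithmeticFunction.vonMangoldt i.2 :=
              mul_le_mul h1 h2 (l1_nonneg U i.2) zero_le_one
          _ = _ := one_mul _
    _ = Real.log n := by
        rw [Nat.sum_divisorsAntidiagonal' (f := fun _ d => ArithmeticFunction.vonMangoldt d)]
        exact ArithmeticFunction.vonMangoldt_sum

theorem gg_zero (U n : ℕ) (hn : U * U < n) : gg U n = 0 := by
  unfold gg
  rw [ArithmeticFunction.mul_apply]
  apply sum_eq_zero
  intro i hi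
  rw [Nat.mem_divisorsAntidiagonal] at hi
  rw [mu1_apply, l1_apply]
  by_cases h1 : i.1 ≤ U
  · by_cases h2 : i.2 ≤ U
    · have := Nat.mul_le_mul h1 h2
      omega
    · rw [if_neg h2, mul_zero]
  · rw [if_neg h1, zero_mul]

/-- a convolution with the constant function -/
theorem TL_one_conv (X : ℝ) (hX : 1 ≤ X) {f : ℕ} (ψ : DirichletCharacter ℂ f) (Bd : ℝ)
    (hBd : ∀ n : ℕ, ‖∑ i ∈ Icc 1 n, ψ (i : ZMod f)‖ ≤ Bd) (g : ℕ → ℝ) :
    ‖TL X f ψ (fun n => ∑ i ∈ n.divisorsAntidiagonal, (1 : ℝ) * g i.2)‖ ≤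
      (∑ c ∈ Icc 1 ⌊X⌋₊, |g c|) * (3 * Bd * Real.log X) := by
  have hL : 0 ≤ Real.log X := Real.log_nonneg hX
  have hBd0 : (0:ℝ) ≤ Bd := (norm_nonneg _).trans (hBd 0)
  have e3 : TL X f ψ (fun n => ∑ i ∈ n.divisorsAntidiagonal, (1 : ℝ) * g i.2) =
      ∑ c ∈ Icc 1 ⌊X⌋₊, ((g c : ℝ) : ℂ) * ψ (c : ZMod f) *
        ∑ b ∈ Icc 1 (⌊X⌋₊ / c), ψ (b : ZMod f) *
          ((Real.log (X / ((b * c : ℕ) : ℝ)) : ℝ) : ℂ) := by
    have h1 : TL X f ψ (fun n => ∑ i ∈ n.divisorsAntidiagonal, (1 : ℝ) * g i.2) =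
        ∑ n ∈ Icc 1 ⌊X⌋₊, ∑ i ∈ n.divisorsAntidiagonal,
        ((g i.2 : ℝ) : ℂ) * ψ (i.2 : ZMod f) * (ψ (i.1 : ZMod f) *
          ((Real.log (X / ((i.1 * i.2 : ℕ) : ℝ)) : ℝ) : ℂ)) := by
      unfold TL
      apply sum_congr rfl
      intro n _
      beta_reduce
      rw [Complex.ofReal_sum, sum_mul, sum_mul]
      apply sum_congr rfl
      intro i hi
      rw [Nat.mem_divisorsAntidiagonal] at hi
      rw [← hi.1]
      push_cast
      rw [map_mul]
      ring
    rw [h1, hyperC ⌊X⌋₊ (fun b c => ((g c : ℝ) : ℂ) * ψ (c : ZMod f) *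
      (ψ (b : ZMod f) * ((Real.log (X / ((b * c : ℕ) : ℝ)) : ℝ) : ℂ)))]
    apply sum_congr rfl
    intro c _
    rw [mul_sum]
  rw [e3]
  refine (norm_sum_le _ _).trans ?_
  rw [sum_mul]
  apply sum_le_sum
  intro c hc
  rw [mem_Icc] at hc
  have hcX : (c:ℝ) ≤ X := (Nat.le_floor_iff (by linarith)).mp hc.2
  have hMX : ((⌊X⌋₊ / c : ℕ) : ℝ) ≤ X :=
    (Nat.le_floor_iff (by linarith)).mp (Nat.div_le_self _ _)
  rw [norm_mul, norm_mul, Complex.norm_real, Real.norm_eq_abs]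
  have h1 := inner_log' ψ Bd hBd X hX c (⌊X⌋₊ / c) hc.1 hcX hMX
  have h2 := ψ.norm_le_one (c : ZMod f)
  have h3 := abs_nonneg (g c)
  calc _ ≤ |g c| * 1 * (3 * Bd * Real.log X) := by gcongr
    _ = _ := by ring

/-- the bound for one primitive character -/
theorem psiLog_bound (X : ℝ) (hX : 1 ≤ X) (U f : ℕ) (hU : 1 ≤ U)
    (ψ : DirichletCharacter ℂ f) (Bd : ℝ) (hB1 : 1 ≤ Bd)
    (hBd : ∀ n : ℕ, ‖∑ i ∈ Icc 1 n, ψ (i : ZMod f)‖ ≤ Bd) :
    ‖psiLog X f ψ‖ ≤ 8 * U * Bd * Real.log X ^ 2 +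
      ‖TL X f ψ (fun n => ∑ i ∈ n.divisorsAntidiagonal, (1 : ℝ) * gH U i.2)‖ +
      ‖TL X f ψ (LamII U U)‖ := by
  have hL : 0 ≤ Real.log X := Real.log_nonneg hX
  have hU' : (1 : ℝ) ≤ U := by exact_mod_cast hU
  set zt : ArithmeticFunction ℝ :=
    ((ArithmeticFunction.zeta : ArithmeticFunction ℕ) : ArithmeticFunction ℝ) with hzt
  have e : TL X f ψ (fun n => ArithmeticFunction.vonMangoldt n - LamII U U n) =
      TL X f ψ (fun n => l1 U n) + TL X f ψ (fun n => (ArithmeticFunction.log * mu1 U) n) -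
      TL X f ψ (fun n => (zt * (mu1 U * l1 U)) n) := by
    rw [← TL_add, ← TL_sub]
    congr 1
    funext n
    exact vaughan U U n
  have e0 : psiLog X f ψ =
      TL X f ψ (fun n => ArithmeticFunction.vonMangoldt n - LamII U U n) +
        TL X f ψ (LamII U U) := by
    rw [← TL_add]
    unfold psiLog TL
    apply sum_congr rfl
    intro n _
    congr 2
    push_cast
    ring
  have e3 : TL X f ψ (fun n => (zt * (mu1 U * l1 U)) n) =
      TL X f ψ (fun n => ∑ i ∈ n.divisorsAntidiagonal, (1 : ℝ) * gL U i.2) +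
      TL X f ψ (fun n => ∑ i ∈ n.divisorsAntidiagonal, (1 : ℝ) * gH U i.2) := by
    rw [← TL_add]
    congr 1
    funext n
    rw [← sum_add_distrib, ArithmeticFunction.mul_apply]
    apply sum_congr rfl
    intro i hi
    rw [Nat.mem_divisorsAntidiagonal] at hi
    have hi1 : i.1 ≠ 0 := by
      rintro h
      rw [h] at hi
      simp at hi
      omega
    have hz : zt i.1 = 1 := by
      rw [hzt, ArithmeticFunction.natCoe_apply, ArithmeticFunction.zeta_apply, if_neg hi1]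
      simp
    rw [hz]
    unfold gL gH gg
    split_ifs <;> ring
  -- first
  have t1 : ‖TL X f ψ (fun n => l1 U n)‖ ≤ U * Real.log X ^ 2 := by
    unfold TL
    refine (norm_sum_le _ _).trans ?_
    calc ∑ n ∈ Icc 1 ⌊X⌋₊, ‖((l1 U n : ℝ) : ℂ) * ψ (n : ZMod f) *
        ((Real.log (X / n) : ℝ) : ℂ)‖ ≤ ∑ n ∈ Icc 1 ⌊X⌋₊, l1 U n * Real.log X := by
          apply sum_le_sum
          intro n hn
          rw [mem_Icc] at hn
          have hn0 : (1:ℝ) ≤ n := by exact_mod_cast hn.1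
          have hnX : (n:ℝ) ≤ X := (Nat.le_floor_iff (by linarith)).mp hn.2
          rw [norm_mul, norm_mul, Complex.norm_real, Complex.norm_real, Real.norm_eq_abs,
            Real.norm_eq_abs, abs_of_nonneg (l1_nonneg U n)]
          have h1 : |Real.log (X / n)| ≤ Real.log X := by
            rw [abs_of_nonneg]
            · apply Real.log_le_log (by positivity)
              exact div_le_self (by linarith) hn0
            · apply Real.log_nonneg
              rwa [le_div_iff₀ (by linarith), one_mul]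
          have h2 := ψ.norm_le_one (n : ZMod f)
          have h3 := l1_nonneg U n
          calc l1 U n * ‖ψ (n : ZMod f)‖ * |Real.log (X / n)| ≤ l1 U n * 1 * Real.log X := by
                gcongr
            _ = _ := by ring
      _ = (∑ n ∈ Icc 1 ⌊X⌋₊, l1 U n) * Real.log X := by rw [sum_mul]
      _ ≤ (U * Real.log X) * Real.log X := mul_le_mul_of_nonneg_right (sum_l1 U X hX) hL
      _ = _ := by ring
  -- second
  have t2 : ‖TL X f ψ (fun n => (ArithmeticFunction.log * mu1 U) n)‖ ≤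
      U * (4 * Bd * Real.log X ^ 2) := by
    have e2 : TL X f ψ (fun n => (ArithmeticFunction.log * mu1 U) n) =
        ∑ c ∈ Icc 1 ⌊X⌋₊, ((mu1 U c : ℝ) : ℂ) * ψ (c : ZMod f) *
          ∑ b ∈ Icc 1 (⌊X⌋₊ / c), ψ (b : ZMod f) * ((Real.log b : ℝ) : ℂ) *
            ((Real.log (X / ((b * c : ℕ) : ℝ)) : ℝ) : ℂ) := by
      have h1 : TL X f ψ (fun n => (ArithmeticFunction.log * mu1 U) n) =
          ∑ n ∈ Icc 1 ⌊X⌋₊, ∑ i ∈ n.divisorsAntidiagonal,
          ((mu1 U i.2 : ℝ) : ℂ) * ψ (i.2 : ZMod f) * (ψ (i.1 : ZMod f) *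
            ((Real.log i.1 : ℝ) : ℂ) * ((Real.log (X / ((i.1 * i.2 : ℕ) : ℝ)) : ℝ) : ℂ)) := by
        unfold TL
        apply sum_congr rfl
        intro n _
        beta_reduce
        rw [ArithmeticFunction.mul_apply, Complex.ofReal_sum, sum_mul, sum_mul]
        apply sum_congr rfl
        intro i hi
        rw [Nat.mem_divisorsAntidiagonal] at hi
        rw [← hi.1, ArithmeticFunction.log_apply]
        push_cast
        rw [map_mul]
        ring
      rw [h1, hyperC ⌊X⌋₊ (fun b c => ((mu1 U c : ℝ) : ℂ) * ψ (c : ZMod f) * (ψ (b : ZMod f) *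
            ((Real.log b : ℝ) : ℂ) * ((Real.log (X / ((b * c : ℕ) : ℝ)) : ℝ) : ℂ)))]
      apply sum_congr rfl
      intro c _
      rw [mul_sum]
    rw [e2]
    refine (norm_sum_le _ _).trans ?_
    calc _ ≤ ∑ c ∈ Icc 1 ⌊X⌋₊, |mu1 U c| * (4 * Bd * Real.log X ^ 2) := by
          apply sum_le_sum
          intro c hc
          rw [mem_Icc] at hc
          have hcX : (c:ℝ) ≤ X := (Nat.le_floor_iff (by linarith)).mp hc.2
          have hMX : ((⌊X⌋₊ / c : ℕ) : ℝ) ≤ X :=
            (Nat.le_floor_iff (by linarith)).mp (Nat.div_le_self _ _)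
          rw [norm_mul, norm_mul, Complex.norm_real, Real.norm_eq_abs]
          have h1 := inner_log_log' ψ Bd hBd X hX c (⌊X⌋₊ / c) hc.1 hcX hMX
          have h2 := ψ.norm_le_one (c : ZMod f)
          have h3 := abs_nonneg (mu1 U c)
          calc _ ≤ |mu1 U c| * 1 * (4 * Bd * Real.log X ^ 2) := by gcongr
            _ = _ := by ring
      _ = (∑ c ∈ Icc 1 ⌊X⌋₊, |mu1 U c|) * (4 * Bd * Real.log X ^ 2) := by rw [sum_mul]
      _ ≤ _ := mul_le_mul_of_nonneg_right (sum_mu1 U _) (by positivity)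
  -- third
  have t3 : ‖TL X f ψ (fun n => ∑ i ∈ n.divisorsAntidiagonal, (1 : ℝ) * gL U i.2)‖ ≤
      (U * Real.log X) * (3 * Bd * Real.log X) := by
    refine (TL_one_conv X hX ψ Bd hBd (gL U)).trans ?_
    apply mul_le_mul_of_nonneg_right _ (by positivity)
    calc ∑ c ∈ Icc 1 ⌊X⌋₊, |gL U c| ≤ ∑ c ∈ Icc 1 ⌊X⌋₊, if c ≤ U then Real.log X else 0 := by
          apply sum_le_sum
          intro c hc
          rw [mem_Icc] at hc
          unfold gL
          by_cases h : c ≤ U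
          · rw [if_neg (by omega), if_pos h]
            refine (gg_abs U c).trans ?_
            apply Real.log_le_log (by exact_mod_cast hc.1)
            exact (Nat.le_floor_iff (by linarith)).mp hc.2
          · rw [if_pos (by omega), if_neg h, abs_zero]
      _ = (((Icc 1 ⌊X⌋₊).filter (fun n => n ≤ U)).card : ℝ) * Real.log X := by
          rw [← sum_filter, sum_const, nsmul_eq_mul]
      _ ≤ ((Icc 1 U).card : ℝ) * Real.log X := by
          apply mul_le_mul_of_nonneg_right _ hL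
          norm_cast
          apply card_le_card
          intro n hn
          rw [mem_filter, mem_Icc] at hn
          rw [mem_Icc]
          exact ⟨hn.1.1, hn.2⟩
      _ = _ := by simp
  rw [e0, e, e3]
  have hL2 : 0 ≤ Real.log X ^ 2 := by positivity
  have a1 : (U:ℝ) * Real.log X ^ 2 ≤ U * Bd * Real.log X ^ 2 := by
    apply mul_le_mul_of_nonneg_right _ hL2
    exact le_mul_of_one_le_right (by positivity) hB1
  have a2 : (U:ℝ) * (4 * Bd * Real.log X ^ 2) = 4 * (U * Bd * Real.log X ^ 2) := by ring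
  have a3 : (U:ℝ) * Real.log X * (3 * Bd * Real.log X) = 3 * (U * Bd * Real.log X ^ 2) := by
    ring
  have n1 := norm_add_le (TL X f ψ (fun n => l1 U n) + TL X f ψ (fun n => (ArithmeticFunction.log * mu1 U) n) -
      (TL X f ψ (fun n => ∑ i ∈ n.divisorsAntidiagonal, (1 : ℝ) * gL U i.2) +
      TL X f ψ (fun n => ∑ i ∈ n.divisorsAntidiagonal, (1 : ℝ) * gH U i.2))) (TL X f ψ (LamII U U))
  have n2 := norm_sub_le (TL X f ψ (fun n => l1 U n) + TL X f ψ (fun n => (ArithmeticFunction.log * mu1 U) n))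
      (TL X f ψ (fun n => ∑ i ∈ n.divisorsAntidiagonal, (1 : ℝ) * gL U i.2) +
      TL X f ψ (fun n => ∑ i ∈ n.divisorsAntidiagonal, (1 : ℝ) * gH U i.2))
  have n3 := norm_add_le (TL X f ψ (fun n => l1 U n)) (TL X f ψ (fun n => (ArithmeticFunction.log * mu1 U) n))
  have n4 := norm_add_le (TL X f ψ (fun n => ∑ i ∈ n.divisorsAntidiagonal, (1 : ℝ) * gL U i.2))
      (TL X f ψ (fun n => ∑ i ∈ n.divisorsAntidiagonal, (1 : ℝ) * gH U i.2))
  linarith

end Q239.LC
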