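import Mathlib
import Pool.Agent.Q239.LC.TypeI

set_option autoImplicit false

/-!
Blocks of conductors: the middle range by the large sieve, and the bound for a block.
-/

namespace Q239.LC

open Finset
open Pool.Agent.H398R2.BV Pool.Agent.Helper112 Pool.Agent.Helper112.TI Pool.Agent.Helper112.TII
open Pool.Agent.Helper112.BLB Pool.Agent.H410R2

lemma A_min (Y : ℕ) (U f : ℕ) (ψ : DirichletCharacter ℂ f) :
    A Y (gH U) f ψ = A (min Y (U * U)) (gH U) f ψ := by
  unfold A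
  symm
  apply sum_subset
  · intro b hb
    rw [mem_Icc] at hb ⊢
    exact ⟨hb.1, hb.2.trans (min_le_left _ _)⟩
  · intro b hb hb'
    rw [mem_Icc] at hb
    rw [mem_Icc, not_and, not_le, min_lt_iff] at hb'
    have h1 : U * U < b := by
      rcases hb' hb.1 with h | h
      · omega
      · exact h
    have h2 : gH U b = 0 := by
      unfold gH
      split_ifs
      · exact gg_zero U b h1
      · rfl
    rw [h2]; simp

theorem mid_pointwise (X : ℝ) (hX : 1 ≤ X) (U F0 F1 : ℕ) (hU : 1 ≤ U)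
    (h0 : 1 ≤ F0) (h1 : 1 ≤ F1) (t : ℝ) (ht1 : 1 ≤ t) (ht2 : t ≤ X) :
    ∑ f ∈ Icc F0 F1, (1 / (Nat.totient f : ℝ)) * P ⌊t⌋₊ ⌊X / t⌋₊ (fun _ => (1 : ℝ)) (gH U) f ≤
      12 * (1 + Real.log F1) * (Real.sqrt X / F0 + (Real.sqrt (X / U) + U) + F1) *
        (Real.sqrt X * (1 + Real.log X) ^ 3) := by
  have hL : 0 ≤ Real.log X := Real.log_nonneg hX
  have hlogF : 0 ≤ Real.log F1 := Real.log_natCast_nonneg F1
  have ht0 : 0 < t := by linarith
  have hXt : 1 ≤ X / t := by rw [le_div_iff₀ ht0]; linarith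
  have hU0 : (0:ℝ) < U := by exact_mod_cast hU
  have hRHS : 0 ≤ 12 * (1 + Real.log F1) *
      (Real.sqrt X / F0 + (Real.sqrt (X / U) + U) + F1) *
        (Real.sqrt X * (1 + Real.log X) ^ 3) := by positivity
  set Y := min ⌊X / t⌋₊ (U * U) with hY
  have hPmin : ∀ f, P ⌊t⌋₊ ⌊X / t⌋₊ (fun _ => (1 : ℝ)) (gH U) f =
      P ⌊t⌋₊ Y (fun _ => (1 : ℝ)) (gH U) f := by
    intro f
    unfold P
    apply sum_congr rfl
    intro ψ _
    rw [A_min]
  simp only [hPmin]
  refine (step45 ⌊t⌋₊ Y (fun _ => (1 : ℝ)) (gH U) F0 F1 h0 h1).trans ?_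
  rcases Nat.lt_or_ge U ⌊X / t⌋₊ with hUt | hUt
  swap
  · have : ∑ c ∈ Icc 1 Y, gH U c ^ 2 = 0 := by
      apply sum_eq_zero
      intro c hc
      rw [mem_Icc] at hc
      have : gH U c = 0 := by
        unfold gH
        rw [if_neg]
        have := hc.2.trans (min_le_left _ _)
        omega
      rw [this]
      simp
    rw [this]
    simpa using hRHS
  have hx1 : (⌊t⌋₊ : ℝ) ≤ t := Nat.floor_le (by linarith)
  have hy1 : (⌊X / t⌋₊ : ℝ) ≤ X / t := Nat.floor_le (by linarith)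
  have hUr : (U : ℝ) ≤ ⌊X / t⌋₊ := by exact_mod_cast hUt.le
  have hUt' : (U : ℝ) ≤ X / t := hUr.trans hy1
  have hYX : (Y : ℝ) ≤ X / t := le_trans (by exact_mod_cast min_le_left _ _) hy1
  have hYU : (Y : ℝ) ≤ (U : ℝ) * U := by
    have : Y ≤ U * U := min_le_right _ _
    exact_mod_cast this
  have hx2 : (⌊t⌋₊ : ℝ) ≤ X / U := by
    refine hx1.trans ?_
    rw [le_div_iff₀ hU0]
    rw [le_div_iff₀ ht0] at hUt'
    linarith
  have hxy : (⌊t⌋₊ : ℝ) * (Y : ℝ) ≤ X := by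
    calc (⌊t⌋₊ : ℝ) * (Y : ℝ) ≤ t * (X / t) :=
          mul_le_mul hx1 hYX (by positivity) (by linarith)
      _ = X := by field_simp
  have hYle : (Y : ℝ) ≤ X := hYX.trans (div_le_self (by linarith) ht1)
  have s1 : Real.sqrt (∑ b ∈ Icc 1 ⌊t⌋₊, ((fun _ => (1 : ℝ)) b) ^ 2) ≤
      Real.sqrt ⌊t⌋₊ := by
    apply Real.sqrt_le_sqrt
    simp
  have s2 : Real.sqrt (∑ c ∈ Icc 1 Y, gH U c ^ 2) ≤
      Real.sqrt Y * (1 + Real.log X) := by
    rw [Real.sqrt_le_left (by positivity), mul_pow, Real.sq_sqrt (by positivity)]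
    calc ∑ c ∈ Icc 1 Y, gH U c ^ 2 ≤ ∑ c ∈ Icc 1 Y, (1 + Real.log X) ^ 2 := by
          apply sum_le_sum
          intro c hc
          rw [mem_Icc] at hc
          rw [← sq_abs]
          apply pow_le_pow_left₀ (abs_nonneg _)
          unfold gH
          split_ifs
          · refine (gg_abs U c).trans ?_
            have hcY : (c : ℝ) ≤ X := le_trans (by exact_mod_cast hc.2) hYle
            have := Real.log_le_log (by exact_mod_cast hc.1) hcY
            linarith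
          · rw [abs_zero]; linarith
      _ = Y * (1 + Real.log X) ^ 2 := by simp
  have s3 : Real.sqrt (∑ b ∈ Icc 1 ⌊t⌋₊, ((fun _ => (1 : ℝ)) b) ^ 2) *
      Real.sqrt (∑ c ∈ Icc 1 Y, gH U c ^ 2) ≤ Real.sqrt X * (1 + Real.log X) ^ 3 := by
    refine (mul_le_mul s1 s2 (Real.sqrt_nonneg _) (Real.sqrt_nonneg _)).trans ?_
    calc Real.sqrt ⌊t⌋₊ * (Real.sqrt Y * (1 + Real.log X)) =
        (Real.sqrt ⌊t⌋₊ * Real.sqrt Y) * (1 + Real.log X) := by ring
      _ = Real.sqrt ((⌊t⌋₊ : ℝ) * (Y : ℝ)) * (1 + Real.log X) := by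
          rw [Real.sqrt_mul (by positivity)]
      _ ≤ Real.sqrt X * (1 + Real.log X) ^ 3 := by
          apply mul_le_mul (Real.sqrt_le_sqrt hxy) _ (by positivity) (Real.sqrt_nonneg _)
          exact le_self_pow₀ (by linarith) (by norm_num)
  have s4 : Real.sqrt ((⌊t⌋₊ : ℝ) * (Y : ℝ)) ≤ Real.sqrt X := Real.sqrt_le_sqrt hxy
  have s5 : Real.sqrt ⌊t⌋₊ ≤ Real.sqrt (X / U) := Real.sqrt_le_sqrt hx2
  have s6 : Real.sqrt Y ≤ U := by
    rw [Real.sqrt_le_left (by positivity)]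
    nlinarith
  gcongr

open Classical in
theorem mid_block (X : ℝ) (hX : 1 ≤ X) (U F0 F1 : ℕ) (hU : 1 ≤ U)
    (h0 : 1 ≤ F0) (h1 : 1 ≤ F1) :
    ∑ f ∈ Icc F0 F1, (1 / (Nat.totient f : ℝ)) *
      ∑ ψ ∈ (univ : Finset (DirichletCharacter ℂ f)).filter (fun ψ => ψ.IsPrimitive),
      ‖TL X f ψ (fun n => ∑ i ∈ n.divisorsAntidiagonal, (1 : ℝ) * gH U i.2)‖ ≤
      12 * (1 + Real.log F1) * (Real.sqrt X / F0 + (Real.sqrt (X / U) + U) + F1) *
        (Real.sqrt X * (1 + Real.log X) ^ 3) * Real.log X :=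
  sum_TL_le X hX (Icc F0 F1) (fun f => 1 / (Nat.totient f : ℝ)) (fun f => by positivity)
    (fun _ => (1 : ℝ)) (gH U) _
    (fun t ht1 ht2 => mid_pointwise X hX U F0 F1 hU h0 h1 t ht1 ht2)

/-- the bound for a block of conductors -/
theorem large (X : ℝ) (hX : 1 ≤ X) (U G F : ℕ) (hU : 1 ≤ U) (hG : 2 ≤ G) (hF : 1 ≤ F) :
    ∑ f ∈ Icc G F, (1 / (Nat.totient f : ℝ)) * ∑ ψ ∈ Prim f, ‖psiLog X f ψ‖ ≤
      8 * U * F * (Real.sqrt F * (1 + Real.log F)) * Real.log X ^ 2 +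
      24 * (1 + Real.log F) * (Real.sqrt X / (G : ℝ) +
        (2 * Real.sqrt (X / U) + U) + F) * (Real.sqrt X * (1 + Real.log X) ^ 3) *
          Real.log X := by
  have hII := typeII_block X hX U U G F hU hU (by omega) hF
  have hmid := mid_block X hX U G F hU (by omega) hF
  have hL : 0 ≤ Real.log X := Real.log_nonneg hX
  have hFr : (1 : ℝ) ≤ F := by exact_mod_cast hF
  have hlF : 0 ≤ Real.log F := Real.log_natCast_nonneg F
  have hU1 : (1 : ℝ) ≤ U := by exact_mod_cast hU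
  set Bd : ℝ := Real.sqrt F * (1 + Real.log F) with hBd
  have hBd1 : 1 ≤ Bd := by
    rw [hBd]
    have h1 : 1 ≤ Real.sqrt F := Real.one_le_sqrt.mpr hFr
    nlinarith
  have h1 : ∑ f ∈ Icc G F, (1 / (Nat.totient f : ℝ)) * ∑ ψ ∈ Prim f, ‖psiLog X f ψ‖ ≤
      ∑ f ∈ Icc G F, 8 * (U:ℝ) * Bd * Real.log X ^ 2 +
      ∑ f ∈ Icc G F, (1 / (Nat.totient f : ℝ)) *
        ∑ ψ ∈ Prim f, ‖TL X f ψ (fun n => ∑ i ∈ n.divisorsAntidiagonal, (1 : ℝ) * gH U i.2)‖ +
      ∑ f ∈ Icc G F, (1 / (Nat.totient f : ℝ)) *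
        ∑ ψ ∈ Prim f, ‖TL X f ψ (LamII U U)‖ := by
    rw [← sum_add_distrib, ← sum_add_distrib]
    apply sum_le_sum
    intro f hf
    rw [mem_Icc] at hf
    have hφ : (0:ℝ) < Nat.totient f := by exact_mod_cast Nat.totient_pos.mpr (by omega)
    have hc := card_prim_le (f := f) (by omega)
    have hfF : (f:ℝ) ≤ F := by exact_mod_cast hf.2
    have hf0 : (0:ℝ) < f := by exact_mod_cast (by omega : 0 < f)
    have hlf : 0 ≤ Real.log f := Real.log_natCast_nonneg f
    calc (1 / (Nat.totient f : ℝ)) * ∑ ψ ∈ Prim f, ‖psiLog X f ψ‖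
        ≤ (1 / (Nat.totient f : ℝ)) * ∑ ψ ∈ Prim f,
          (8 * U * Bd * Real.log X ^ 2 +
            ‖TL X f ψ (fun n => ∑ i ∈ n.divisorsAntidiagonal, (1 : ℝ) * gH U i.2)‖ +
            ‖TL X f ψ (LamII U U)‖) := by
          apply mul_le_mul_of_nonneg_left _ (by positivity)
          apply sum_le_sum
          intro ψ hψ
          apply psiLog_bound X hX U f hU ψ Bd hBd1
          intro n
          have hprim : ψ.IsPrimitive := by
            classical
            unfold Prim at hψ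
            rw [mem_filter] at hψ
            exact hψ.2
          refine (H343.PVaux.PV_plain f n (by omega) ψ hprim).trans ?_
          rw [hBd]
          apply mul_le_mul (Real.sqrt_le_sqrt hfF) _ (by linarith) (Real.sqrt_nonneg _)
          have := Real.log_le_log hf0 hfF
          linarith
      _ = ((Prim f).card : ℝ) / (Nat.totient f : ℝ) * (8 * U * Bd * Real.log X ^ 2) +
          (1 / (Nat.totient f : ℝ)) * ∑ ψ ∈ Prim f,
            ‖TL X f ψ (fun n => ∑ i ∈ n.divisorsAntidiagonal, (1 : ℝ) * gH U i.2)‖ +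
          (1 / (Nat.totient f : ℝ)) * ∑ ψ ∈ Prim f, ‖TL X f ψ (LamII U U)‖ := by
          rw [sum_add_distrib, sum_add_distrib, sum_const, nsmul_eq_mul]; ring
      _ ≤ _ := by
          apply add_le_add_left
          apply add_le_add_left
          calc ((Prim f).card : ℝ) / (Nat.totient f : ℝ) * (8 * U * Bd * Real.log X ^ 2)
              ≤ 1 * (8 * U * Bd * Real.log X ^ 2) := by
                apply mul_le_mul_of_nonneg_right _ (by positivity)
                rw [div_le_one hφ]; exact hc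
            _ = _ := by ring
  refine h1.trans ?_
  have hconst : ∑ f ∈ Icc G F, 8 * (U:ℝ) * Bd * Real.log X ^ 2 ≤ 8 * U * F * Bd * Real.log X ^ 2 := by
    rw [sum_const, nsmul_eq_mul, Nat.card_Icc]
    have h2 : ((F + 1 - G : ℕ) : ℝ) ≤ F := by exact_mod_cast (by omega : F + 1 - G ≤ F)
    calc ((F + 1 - G : ℕ) : ℝ) * (8 * (U:ℝ) * Bd * Real.log X ^ 2) ≤
        F * (8 * (U:ℝ) * Bd * Real.log X ^ 2) := by gcongr
      _ = _ := by ring
  have hsum := add_le_add (add_le_add hconst hmid) hII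
  refine hsum.trans ?_
  have hE : 0 ≤ (Real.sqrt X * (1 + Real.log X) ^ 3) * Real.log X := by positivity
  have hq : 0 ≤ Real.sqrt X / (G : ℝ) := by positivity
  have hsU : 0 ≤ Real.sqrt (X / U) := Real.sqrt_nonneg _
  have hkey : 12 * (1 + Real.log F) * (Real.sqrt X / G + (Real.sqrt (X / U) + U) + F) +
      12 * (1 + Real.log F) * (Real.sqrt X / G + (Real.sqrt (X / U) + Real.sqrt (X / U)) + F) ≤
      24 * (1 + Real.log F) * (Real.sqrt X / (G : ℝ) + (2 * Real.sqrt (X / U) + U) + F) := by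
    have h3 : 0 ≤ 12 * (1 + Real.log F) := by positivity
    have h4 : (Real.sqrt X / G + (Real.sqrt (X / U) + U) + F) +
      (Real.sqrt X / G + (Real.sqrt (X / U) + Real.sqrt (X / U)) + F) ≤
      2 * (Real.sqrt X / (G : ℝ) + (2 * Real.sqrt (X / U) + U) + F) := by
      have : (0:ℝ) ≤ U := by linarith
      linarith
    calc _ = 12 * (1 + Real.log F) * ((Real.sqrt X / G + (Real.sqrt (X / U) + U) + F) +
      (Real.sqrt X / G + (Real.sqrt (X / U) + Real.sqrt (X / U)) + F)) := by ring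
      _ ≤ 12 * (1 + Real.log F) * (2 * (Real.sqrt X / (G : ℝ) + (2 * Real.sqrt (X / U) + U) + F)) :=
          mul_le_mul_of_nonneg_left h4 h3
      _ = _ := by ring
  have := mul_le_mul_of_nonneg_right hkey hE
  linarith

end Q239.LC
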