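import Mathlib
import Pool.Agent.Q239.LC.TypeII
import Pool.Agent.Q239.LC.Root
import Pool.Agent.H343R2.EH.BVLog

set_option autoImplicit false

/-!
The weighted sum over the conductors which divide `e`-th powers.
-/

namespace Q239.LC

open Finset Filter Topology
open Pool.Agent.H398R2.BV Pool.Agent.Helper112 Pool.Agent.Helper112.TI Pool.Agent.Helper112.TII
open Pool.Agent.Helper112.BLB Pool.Agent.H410R2 H343E

/-- the weight of a conductor -/
noncomputable def wt (e f : ℕ) : ℝ := (f : ℝ) / rt e f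

/-- the sum over the primitive characters -/
noncomputable def Sp (X : ℝ) (f : ℕ) : ℝ := (1 / (Nat.totient f : ℝ)) * ∑ ψ ∈ Prim f, ‖psiLog X f ψ‖

lemma Sp_nonneg (X : ℝ) (f : ℕ) : 0 ≤ Sp X f :=
  mul_nonneg (by positivity) (sum_nonneg fun _ _ => norm_nonneg _)

lemma wt_nonneg (e f : ℕ) : 0 ≤ wt e f := by unfold wt; positivity

lemma wt_le_self (e f : ℕ) : wt e f ≤ f := by
  unfold wt
  apply div_le_self (by positivity)
  exact_mod_cast rt_pos e f

lemma wt_le_rpow (e f F : ℕ) (he : 1 ≤ e) (hf : f ≠ 0) (hfF : f ≤ F) :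
    wt e f ≤ (F : ℝ) ^ (1 - 1 / (e : ℝ)) := by
  have hf0 : (0 : ℝ) < f := by exact_mod_cast Nat.pos_of_ne_zero hf
  have he0 : (0 : ℝ) < e := by exact_mod_cast he
  have he1 : (1 : ℝ) ≤ e := by exact_mod_cast he
  have hfF' : (f : ℝ) ≤ F := by exact_mod_cast hfF
  have hr0 : (0 : ℝ) < rt e f := by exact_mod_cast rt_pos e f
  have h1 : (f : ℝ) ^ (1 / (e : ℝ)) ≤ rt e f := by
    have h2 : (f : ℝ) ≤ (rt e f : ℝ) ^ e := by exact_mod_cast le_rt_pow e f he hf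
    calc (f : ℝ) ^ (1 / (e : ℝ)) ≤ ((rt e f : ℝ) ^ e) ^ (1 / (e : ℝ)) :=
          Real.rpow_le_rpow hf0.le h2 (by positivity)
      _ = rt e f := by
          rw [one_div]
          exact Real.pow_rpow_inv_natCast hr0.le (by omega)
  have hfe : 0 < (f : ℝ) ^ (1 / (e : ℝ)) := Real.rpow_pos_of_pos hf0 _
  unfold wt
  calc (f : ℝ) / rt e f ≤ f / (f : ℝ) ^ (1 / (e : ℝ)) :=
        div_le_div_of_nonneg_left hf0.le hfe h1
    _ = (f : ℝ) ^ (1 - 1 / (e : ℝ)) := by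
        rw [Real.rpow_sub hf0, Real.rpow_one]
    _ ≤ (F : ℝ) ^ (1 - 1 / (e : ℝ)) := by
        apply Real.rpow_le_rpow hf0.le hfF'
        rw [sub_nonneg, div_le_one he0]
        exact he1

/-- one dyadic block -/
lemma block_est (e V M i : ℕ) (X : ℝ) (he : 2 ≤ e) (hM : 1 ≤ M) (hX : 1 ≤ X)
    (hL4 : 10000 ≤ Real.log X)
    (hsize : (M : ℝ) ^ (6 * (e - 1)) * Real.log X ^ (6 * V + 48) ≤ X)
    (hi1 : (2 : ℝ) ^ i ≤ (M : ℝ) ^ e) (hi2 : Real.log X ^ (e * (V + 8)) ≤ (2 : ℝ) ^ (i + 1))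
    (hi0 : 1 ≤ i) :
    ∑ f ∈ Icc (2 ^ i) (2 ^ (i + 1)), wt e f * Sp X f ≤ X / Real.log X ^ (V + 2) := by
  set L := Real.log X with hL
  have hL0 : 0 < L := by linarith
  have hL1 : 1 ≤ L := by linarith
  have hX0 : 0 < X := by linarith
  have he0 : (0 : ℝ) < e := by exact_mod_cast (by omega : 0 < e)
  have hMr : (1 : ℝ) ≤ M := by exact_mod_cast hM
  set F : ℕ := 2 ^ (i + 1) with hF
  have hFr : (F : ℝ) = 2 ^ (i + 1) := by rw [hF]; push_cast; ring
  have hF0 : (0 : ℝ) < F := by rw [hFr]; positivity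
  have hF1 : 1 ≤ F := by rw [hF]; exact Nat.one_le_two_pow
  have hF1r : (1 : ℝ) ≤ F := by exact_mod_cast hF1
  have hFM : (F : ℝ) ≤ 2 * (M : ℝ) ^ e := by
    rw [hFr, pow_succ]; linarith
  set a : ℕ := 2 * (V + 8) with ha
  set U : ℕ := ⌈(M : ℝ) ^ (2 * (e - 1)) * L ^ a⌉₊ with hU
  have hUlow : (M : ℝ) ^ (2 * (e - 1)) * L ^ a ≤ U := Nat.le_ceil _
  have hM1 : (1 : ℝ) ≤ (M : ℝ) ^ (2 * (e - 1)) := one_le_pow₀ hMr
  have hLa : (1 : ℝ) ≤ L ^ a := one_le_pow₀ hL1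
  have hMLa : (1 : ℝ) ≤ (M : ℝ) ^ (2 * (e - 1)) * L ^ a := by
    have := mul_le_mul hM1 hLa zero_le_one (by positivity)
    linarith
  have hUup : (U : ℝ) ≤ 2 * ((M : ℝ) ^ (2 * (e - 1)) * L ^ a) := by
    have := Nat.ceil_lt_add_one (show 0 ≤ (M : ℝ) ^ (2 * (e - 1)) * L ^ a by positivity)
    linarith
  have hU1 : 1 ≤ U := by
    have : (1 : ℝ) ≤ U := hMLa.trans hUlow
    exact_mod_cast this
  have hU0 : (0 : ℝ) < U := by exact_mod_cast hU1
  -- the weight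
  set s : ℝ := 1 - 1 / (e : ℝ) with hs
  set ω : ℝ := (F : ℝ) ^ s with hω
  have hω0 : 0 < ω := Real.rpow_pos_of_pos hF0 _
  have hs0 : 0 ≤ s := by
    rw [hs, sub_nonneg, div_le_one he0]
    exact_mod_cast (by omega : 1 ≤ e)
  have hs1 : s ≤ 1 := by
    rw [hs]
    have : 0 ≤ 1 / (e : ℝ) := by positivity
    linarith
  have hωM : ω ≤ 2 * (M : ℝ) ^ (e - 1) := by
    rw [hω]
    calc (F : ℝ) ^ s ≤ (2 * (M : ℝ) ^ e) ^ s := Real.rpow_le_rpow hF0.le hFM hs0
      _ = 2 ^ s * ((M : ℝ) ^ e) ^ s := Real.mul_rpow (by norm_num) (by positivity)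
      _ ≤ 2 ^ (1 : ℝ) * (M : ℝ) ^ (e - 1) := by
          apply mul_le_mul
          · exact Real.rpow_le_rpow_of_exponent_le (by norm_num) hs1
          · rw [← Real.rpow_natCast, ← Real.rpow_mul (by positivity), ← Real.rpow_natCast (M : ℝ) (e - 1)]
            apply le_of_eq
            congr 1
            rw [hs, Nat.cast_sub (by omega)]
            field_simp
            push_cast
            ring
          · positivity
          · positivity
      _ = _ := by rw [Real.rpow_one]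
  have hωF : ω * L ^ (V + 8) ≤ F := by
    have h1 : L ^ (V + 8) ≤ (F : ℝ) ^ (1 / (e : ℝ)) := by
      calc L ^ (V + 8) = ((L ^ (V + 8)) ^ e) ^ (1 / (e : ℝ)) := by
            rw [one_div]
            exact (Real.pow_rpow_inv_natCast (by positivity) (by omega)).symm
        _ ≤ (F : ℝ) ^ (1 / (e : ℝ)) := by
            apply Real.rpow_le_rpow (by positivity) _ (by positivity)
            rw [hFr, ← pow_mul, mul_comm (V + 8) e]
            exact hi2
    calc ω * L ^ (V + 8) ≤ ω * (F : ℝ) ^ (1 / (e : ℝ)) := by gcongr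
      _ = (F : ℝ) ^ (s + 1 / (e : ℝ)) := by rw [hω, Real.rpow_add hF0]
      _ = F := by
          rw [hs, sub_add_cancel, Real.rpow_one]
  -- pull out the weight
  have hpull : ∑ f ∈ Icc (2 ^ i) F, wt e f * Sp X f ≤ ω * ∑ f ∈ Icc (2 ^ i) F, Sp X f := by
    rw [mul_sum]
    apply sum_le_sum
    intro f hf
    rw [mem_Icc] at hf
    have : f ≠ 0 := by
      have : 0 < 2 ^ i := by positivity
      omega
    exact mul_le_mul_of_nonneg_right (wt_le_rpow e f F (by omega) this hf.2) (Sp_nonneg X f)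
  have h2i : 2 ≤ 2 ^ i := by
    calc 2 = 2 ^ 1 := (pow_one 2).symm
      _ ≤ 2 ^ i := Nat.pow_le_pow_right (by norm_num) hi0
  have hlarge := large X hX U (2 ^ i) F hU1 h2i hF1
  refine hpull.trans ((mul_le_mul_of_nonneg_left hlarge hω0.le).trans ?_)
  -- sizes
  have hexp6 : (M : ℝ) ^ (6 * (e - 1)) ≤ X / L ^ (6 * V + 48) := by
    rw [le_div_iff₀ (by positivity)]; exact hsize
  have hsX0 : 0 < Real.sqrt X := Real.sqrt_pos.mpr hX0
  have hss : Real.sqrt X * Real.sqrt X = X := Real.mul_self_sqrt hX0.le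
  have hexp3 : (M : ℝ) ^ (3 * (e - 1)) * L ^ (3 * V + 24) ≤ Real.sqrt X := by
    apply Real.le_sqrt_of_sq_le
    calc ((M : ℝ) ^ (3 * (e - 1)) * L ^ (3 * V + 24)) ^ 2
        = (M : ℝ) ^ (6 * (e - 1)) * L ^ (6 * V + 48) := by
          rw [mul_pow, ← pow_mul, ← pow_mul]
          congr 2 <;> ring
      _ ≤ X := hsize
  have hMe : (M : ℝ) ^ e ≤ (M : ℝ) ^ (6 * (e - 1)) := pow_le_pow_right₀ hMr (by omega)
  have hL48 : (2 : ℝ) ≤ L ^ (6 * V + 48) := by
    calc (2 : ℝ) ≤ L := by linarith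
      _ ≤ L ^ (6 * V + 48) := le_self_pow₀ hL1 (by omega)
  have hFX : (F : ℝ) ≤ X := by
    calc (F : ℝ) ≤ 2 * (M : ℝ) ^ e := hFM
      _ ≤ L ^ (6 * V + 48) * (M : ℝ) ^ (6 * (e - 1)) := by gcongr
      _ = (M : ℝ) ^ (6 * (e - 1)) * L ^ (6 * V + 48) := by ring
      _ ≤ X := hsize
  have hlogF : 1 + Real.log F ≤ 2 * L := by
    have := Real.log_le_log hF0 hFX
    rw [← hL] at this
    linarith
  have hlogF0 : 0 ≤ 1 + Real.log F := by
    have := Real.log_nonneg hF1r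
    linarith
  have h1L : 1 + L ≤ 2 * L := by linarith
  have h2ir : ((2 ^ i : ℕ) : ℝ) = F / 2 := by
    rw [hFr]; push_cast; rw [pow_succ]; ring
  have hT : 0 < X / L ^ (V + 2) := by positivity
  -- term a
  have ta : ω * (8 * U * F * (Real.sqrt F * (1 + Real.log F)) * L ^ 2) ≤ (1 / 5) * (X / L ^ (V + 2)) := by
    have hsF : Real.sqrt F ≤ 2 * (M : ℝ) ^ (2 * e - 3) := by
      rw [Real.sqrt_le_left (by positivity)]
      calc (F : ℝ) ≤ 2 * (M : ℝ) ^ e := hFM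
        _ ≤ 4 * (M : ℝ) ^ (2 * (2 * e - 3)) := by
            have : (M : ℝ) ^ e ≤ (M : ℝ) ^ (2 * (2 * e - 3)) := pow_le_pow_right₀ hMr (by omega)
            have h0 : 0 ≤ (M : ℝ) ^ e := by positivity
            linarith
        _ = (2 * (M : ℝ) ^ (2 * e - 3)) ^ 2 := by
            rw [mul_pow, ← pow_mul, mul_comm (2 * e - 3) 2]; ring
    have hpw : (M : ℝ) ^ (e - 1) * (M : ℝ) ^ (2 * (e - 1)) * (M : ℝ) ^ e * (M : ℝ) ^ (2 * e - 3) =
        (M : ℝ) ^ (6 * (e - 1)) := by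
      rw [← pow_add, ← pow_add, ← pow_add]
      congr 1
      omega
    calc ω * (8 * U * F * (Real.sqrt F * (1 + Real.log F)) * L ^ 2)
        ≤ (2 * (M : ℝ) ^ (e - 1)) * (8 * (2 * ((M : ℝ) ^ (2 * (e - 1)) * L ^ a)) * (2 * (M : ℝ) ^ e) *
          ((2 * (M : ℝ) ^ (2 * e - 3)) * (2 * L)) * L ^ 2) := by gcongr
      _ = 256 * ((M : ℝ) ^ (e - 1) * (M : ℝ) ^ (2 * (e - 1)) * (M : ℝ) ^ e * (M : ℝ) ^ (2 * e - 3)) *
          L ^ (a + 3) := by ring
      _ = 256 * (M : ℝ) ^ (6 * (e - 1)) * L ^ (a + 3) := by rw [hpw]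
      _ ≤ 256 * (X / L ^ (6 * V + 48)) * L ^ (a + 3) := by gcongr
      _ = 256 * (X / L ^ (V + 2)) * (L ^ (a + 3) * L ^ (V + 2) / L ^ (6 * V + 48)) := by
          field_simp
      _ ≤ 256 * (X / L ^ (V + 2)) * (1 / L) := by
          apply mul_le_mul_of_nonneg_left _ (by positivity)
          rw [div_le_div_iff₀ (by positivity) hL0, one_mul, ← pow_add, ← pow_succ]
          apply pow_le_pow_right₀ hL1
          omega
      _ ≤ 256 * (X / L ^ (V + 2)) * (1 / 10000) := by gcongr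
      _ ≤ _ := by linarith
  have hfac : (Real.sqrt X * (1 + L) ^ 3) * L ≤ 8 * L ^ 4 * Real.sqrt X := by
    calc (Real.sqrt X * (1 + L) ^ 3) * L ≤ (Real.sqrt X * (2 * L) ^ 3) * L := by gcongr
      _ = _ := by ring
  have hbr : ω * (Real.sqrt X / ((2 ^ i : ℕ) : ℝ) + (2 * Real.sqrt (X / U) + U) + F) ≤
      14 * Real.sqrt X / L ^ (V + 8) := by
    have tb : ω * (Real.sqrt X / ((2 ^ i : ℕ) : ℝ)) ≤ 2 * Real.sqrt X / L ^ (V + 8) := by
      rw [h2ir]
      rw [le_div_iff₀ (by positivity)]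
      calc ω * (Real.sqrt X / (F / 2)) * L ^ (V + 8) = 2 * Real.sqrt X * (ω * L ^ (V + 8)) / F := by
            field_simp
        _ ≤ 2 * Real.sqrt X * F / F := by gcongr
        _ = 2 * Real.sqrt X := by field_simp
    have tc : ω * (2 * Real.sqrt (X / U)) ≤ 4 * Real.sqrt X / L ^ (V + 8) := by
      have hsU : (M : ℝ) ^ (e - 1) * L ^ (V + 8) ≤ Real.sqrt U := by
        apply Real.le_sqrt_of_sq_le
        calc ((M : ℝ) ^ (e - 1) * L ^ (V + 8)) ^ 2 = (M : ℝ) ^ (2 * (e - 1)) * L ^ a := by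
              rw [mul_pow, ← pow_mul, ← pow_mul, ha]
              congr 2 <;> ring
          _ ≤ U := hUlow
      have hsU0 : 0 < Real.sqrt U := Real.sqrt_pos.mpr hU0
      rw [Real.sqrt_div hX0.le, le_div_iff₀ (by positivity)]
      calc ω * (2 * (Real.sqrt X / Real.sqrt U)) * L ^ (V + 8)
          ≤ (2 * (M : ℝ) ^ (e - 1)) * (2 * (Real.sqrt X / Real.sqrt U)) * L ^ (V + 8) := by gcongr
        _ = 4 * Real.sqrt X * ((M : ℝ) ^ (e - 1) * L ^ (V + 8)) / Real.sqrt U := by ring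
        _ ≤ 4 * Real.sqrt X * Real.sqrt U / Real.sqrt U := by gcongr
        _ = 4 * Real.sqrt X := by field_simp
    have td : ω * U ≤ 4 * Real.sqrt X / L ^ (V + 8) := by
      rw [le_div_iff₀ (by positivity)]
      calc ω * U * L ^ (V + 8) ≤ (2 * (M : ℝ) ^ (e - 1)) * (2 * ((M : ℝ) ^ (2 * (e - 1)) * L ^ a)) *
            L ^ (V + 8) := by gcongr
        _ = 4 * ((M : ℝ) ^ (3 * (e - 1)) * L ^ (3 * V + 24)) := by
            have e1 : (M : ℝ) ^ (3 * (e - 1)) = (M : ℝ) ^ (e - 1) * (M : ℝ) ^ (2 * (e - 1)) := by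
              rw [← pow_add]; congr 1; omega
            have e2 : L ^ (3 * V + 24) = L ^ a * L ^ (V + 8) := by
              rw [← pow_add]; congr 1; omega
            rw [e1, e2]; ring
        _ ≤ 4 * Real.sqrt X := by linarith
    have te : ω * F ≤ 4 * Real.sqrt X / L ^ (V + 8) := by
      rw [le_div_iff₀ (by positivity)]
      calc ω * F * L ^ (V + 8) ≤ (2 * (M : ℝ) ^ (e - 1)) * (2 * (M : ℝ) ^ e) * L ^ (V + 8) := by
            gcongr
        _ = 4 * ((M : ℝ) ^ (2 * e - 1) * L ^ (V + 8)) := by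
            have e1 : (M : ℝ) ^ (2 * e - 1) = (M : ℝ) ^ (e - 1) * (M : ℝ) ^ e := by
              rw [← pow_add]; congr 1; omega
            rw [e1]; ring
        _ ≤ 4 * ((M : ℝ) ^ (3 * (e - 1)) * L ^ (3 * V + 24)) := by
            have h1 : (M : ℝ) ^ (2 * e - 1) ≤ (M : ℝ) ^ (3 * (e - 1)) :=
              pow_le_pow_right₀ hMr (by omega)
            have h2 : L ^ (V + 8) ≤ L ^ (3 * V + 24) := pow_le_pow_right₀ hL1 (by omega)
            gcongr
        _ ≤ 4 * Real.sqrt X := by linarith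
    have e9 : ω * (Real.sqrt X / ((2 ^ i : ℕ) : ℝ) + (2 * Real.sqrt (X / U) + U) + F) =
        ω * (Real.sqrt X / ((2 ^ i : ℕ) : ℝ)) + ω * (2 * Real.sqrt (X / U)) + ω * U + ω * F := by ring
    have e10 : 14 * Real.sqrt X / L ^ (V + 8) = 2 * Real.sqrt X / L ^ (V + 8) +
        4 * Real.sqrt X / L ^ (V + 8) + 4 * Real.sqrt X / L ^ (V + 8) + 4 * Real.sqrt X / L ^ (V + 8) := by
      ring
    rw [e9, e10]
    linarith
  have tb : ω * (24 * (1 + Real.log F) * (Real.sqrt X / ((2 ^ i : ℕ) : ℝ) +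
        (2 * Real.sqrt (X / U) + U) + F) * (Real.sqrt X * (1 + L) ^ 3) * L) ≤
        (4 / 5) * (X / L ^ (V + 2)) := by
    have hbr0 : 0 ≤ Real.sqrt X / ((2 ^ i : ℕ) : ℝ) + (2 * Real.sqrt (X / U) + U) + F := by positivity
    calc ω * (24 * (1 + Real.log F) * (Real.sqrt X / ((2 ^ i : ℕ) : ℝ) +
        (2 * Real.sqrt (X / U) + U) + F) * (Real.sqrt X * (1 + L) ^ 3) * L)
        = 24 * (1 + Real.log F) * (ω * (Real.sqrt X / ((2 ^ i : ℕ) : ℝ) +
        (2 * Real.sqrt (X / U) + U) + F)) * ((Real.sqrt X * (1 + L) ^ 3) * L) := by ring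
      _ ≤ 24 * (2 * L) * (14 * Real.sqrt X / L ^ (V + 8)) * (8 * L ^ 4 * Real.sqrt X) := by
          gcongr
      _ = 5376 * (Real.sqrt X * Real.sqrt X) * (L ^ 5 / L ^ (V + 8)) := by ring
      _ = 5376 * (X / L ^ (V + 2)) * (1 / L) := by
          rw [hss]
          have : L ^ (V + 8) = L ^ (V + 2) * L * L ^ 5 := by ring
          rw [this]
          field_simp
      _ ≤ 5376 * (X / L ^ (V + 2)) * (1 / 10000) := by gcongr
      _ ≤ _ := by linarith
  rw [mul_add]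
  linarith

end Q239.LC
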