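import Mathlib
import Pool.Agent.Q239.LC.Weight
import Pool.Agent.H343R2.EH.Smoothed

set_option autoImplicit false

/-!
The weighted Bombieri-Vinogradov bound and the smoothed theorem for the moduli `m ^ e`.
-/

namespace Q239.LC

open Finset Filter Topology
open Pool.Agent.H398R2.BV Pool.Agent.Helper112 Pool.Agent.Helper112.TI Pool.Agent.Helper112.TII
open Pool.Agent.Helper112.BLB Pool.Agent.H410R2 H343E

theorem bv_weight (e V : ℕ) (he : 2 ≤ e) : ∃ (B : ℕ) (X0 : ℝ), ∀ X : ℝ, X0 ≤ X → ∀ M : ℕ, 1 ≤ M →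
    (M : ℝ) ^ (6 * (e - 1)) * Real.log X ^ B ≤ X →
    ∑ f ∈ Icc 2 (M ^ e), wt e f * Sp X f ≤ X / Real.log X ^ V := by
  set g : ℕ := e * (V + 8) with hg
  obtain ⟨x₀, hx₀⟩ := sw (2 * g + V + 1) g
  have hlog : Tendsto Real.log atTop atTop := Real.tendsto_log_atTop
  have ev : ∀ᶠ X : ℝ in atTop, ∀ M : ℕ, 1 ≤ M →
      (M : ℝ) ^ (6 * (e - 1)) * Real.log X ^ (6 * V + 48) ≤ X →
      ∑ f ∈ Icc 2 (M ^ e), wt e f * Sp X f ≤ X / Real.log X ^ V := by
    filter_upwards [eventually_ge_atTop x₀, eventually_ge_atTop (4:ℝ),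
      hlog.eventually_ge_atTop 10000] with X h1 h2 h3 M hM hsize
    have hX0 : 0 < X := by linarith
    have hX1 : 1 ≤ X := by linarith
    set L := Real.log X with hL
    have hL0 : 0 < L := by linarith
    have hL1 : 1 ≤ L := by linarith
    have hMr : (1 : ℝ) ≤ M := by exact_mod_cast hM
    have hXV : 0 < X / L ^ V := by positivity
    set G := ⌊L ^ g⌋₊ with hG
    have hGle : (G : ℝ) ≤ L ^ g := Nat.floor_le (by positivity)
    have hnn : ∀ f : ℕ, 0 ≤ wt e f * Sp X f := fun f => mul_nonneg (wt_nonneg e f) (Sp_nonneg X f)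
    -- small
    have hsmall : ∑ f ∈ Icc 2 G, wt e f * Sp X f ≤ (1 / 2) * (X / L ^ V) := by
      have hs := BVL.small X (X / L ^ (2 * g + V + 1)) G (by positivity) (by
        intro f hf2 hfG ψ hψ
        apply hx₀ X h1 f (by omega)
        · calc (f:ℝ) ≤ G := by exact_mod_cast hfG
            _ ≤ L ^ g := hGle
        · classical
          unfold Prim at hψ
          rw [mem_filter] at hψ
          exact hψ.2)
      calc ∑ f ∈ Icc 2 G, wt e f * Sp X f ≤ ∑ f ∈ Icc 2 G, G * Sp X f := by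
            apply sum_le_sum
            intro f hf
            rw [mem_Icc] at hf
            apply mul_le_mul_of_nonneg_right _ (Sp_nonneg X f)
            exact (wt_le_self e f).trans (by exact_mod_cast hf.2)
        _ = G * ∑ f ∈ Icc 2 G, Sp X f := by rw [mul_sum]
        _ ≤ G * (G * (X / L ^ (2 * g + V + 1))) := by
            apply mul_le_mul_of_nonneg_left hs (by positivity)
        _ ≤ L ^ g * (L ^ g * (X / L ^ (2 * g + V + 1))) := by gcongr
        _ = (1 / L) * (X / L ^ V) := by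
            have : L ^ (2 * g + V + 1) = L ^ g * L ^ g * L ^ V * L := by
              rw [pow_add, pow_add, pow_one, two_mul, pow_add]
            rw [this]
            have hLg : L ^ g ≠ 0 := by positivity
            generalize L ^ g = P at *
            field_simp
        _ ≤ (1 / 2) * (X / L ^ V) := by
            apply mul_le_mul_of_nonneg_right _ hXV.le
            apply one_div_le_one_div_of_le (by norm_num)
            linarith
    -- large
    set D := M ^ e with hD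
    have hDpos : 0 < D := by rw [hD]; positivity
    have hDX : (D : ℝ) ≤ X := by
      rw [hD]
      push_cast
      calc (M : ℝ) ^ e ≤ (M : ℝ) ^ (6 * (e - 1)) := pow_le_pow_right₀ hMr (by omega)
        _ = (M : ℝ) ^ (6 * (e - 1)) * 1 := (mul_one _).symm
        _ ≤ (M : ℝ) ^ (6 * (e - 1)) * L ^ (6 * V + 48) := by
            gcongr
            exact one_le_pow₀ hL1
        _ ≤ X := hsize
    set I := (range (Nat.log 2 D + 1)).filter (fun i : ℕ => 1 ≤ i ∧ L ^ g ≤ (2 : ℝ) ^ (i + 1)) with hI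
    have hcardI : ((#I : ℕ) : ℝ) ≤ 3 * L := by
      have c1 : #I ≤ Nat.log 2 D + 1 := by
        have := card_filter_le (range (Nat.log 2 D + 1)) (fun i : ℕ => 1 ≤ i ∧ L ^ g ≤ (2 : ℝ) ^ (i + 1))
        rw [card_range] at this
        exact this
      have c2 : (2 : ℝ) ^ (Nat.log 2 D) ≤ D := by
        have := Nat.pow_log_le_self 2 hDpos.ne'
        exact_mod_cast this
      have c3 : (Nat.log 2 D : ℝ) * Real.log 2 ≤ L := by
        have := Real.log_le_log (by positivity) (c2.trans hDX)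
        rwa [Real.log_pow] at this
      have c4 : (0.69 : ℝ) < Real.log 2 := by have := Real.log_two_gt_d9; linarith
      have c5 : (Nat.log 2 D : ℝ) * 0.69 ≤ L := by
        have : (0 : ℝ) ≤ Nat.log 2 D := by positivity
        nlinarith
      have c6 : ((#I : ℕ) : ℝ) ≤ Nat.log 2 D + 1 := by exact_mod_cast c1
      linarith
    have hlarge : ∑ f ∈ Icc (G + 1) D, wt e f * Sp X f ≤ (1 / 2) * (X / L ^ V) := by
      have hG1 : 1 ≤ G := by
        rw [hG, Nat.one_le_floor_iff]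
        exact one_le_pow₀ hL1
      have hmaps : ∀ f ∈ Icc (G + 1) D, Nat.log 2 f ∈ I := by
        intro f hf
        rw [mem_Icc] at hf
        have hf0 : f ≠ 0 := by omega
        rw [hI, mem_filter, mem_range]
        refine ⟨Nat.lt_succ_of_le (Nat.log_mono_right hf.2), ?_, ?_⟩
        · exact Nat.log_pos (by norm_num) (by omega)
        · have q1 : f < 2 ^ (Nat.log 2 f + 1) := Nat.lt_pow_succ_log_self (by norm_num) f
          have q2 : (f : ℝ) < (2 : ℝ) ^ (Nat.log 2 f + 1) := by exact_mod_cast q1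
          have q3 := Nat.lt_floor_add_one (L ^ g)
          rw [← hG] at q3
          have q4 : ((G : ℝ) + 1) ≤ f := by exact_mod_cast hf.1
          linarith
      calc ∑ f ∈ Icc (G + 1) D, wt e f * Sp X f
          = ∑ i ∈ I, ∑ f ∈ (Icc (G + 1) D).filter (fun f => Nat.log 2 f = i), wt e f * Sp X f :=
            (sum_fiberwise_of_maps_to hmaps _).symm
        _ ≤ ∑ i ∈ I, ∑ f ∈ Icc (2 ^ i) (2 ^ (i + 1)), wt e f * Sp X f := by
            apply sum_le_sum
            intro i _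
            apply sum_le_sum_of_subset_of_nonneg
            · intro f hf
              rw [mem_filter, mem_Icc] at hf
              have hf0 : f ≠ 0 := by omega
              rw [mem_Icc, ← hf.2]
              exact ⟨Nat.pow_log_le_self 2 hf0, (Nat.lt_pow_succ_log_self (by norm_num) f).le⟩
            · intro f _ _
              exact hnn f
        _ ≤ ∑ i ∈ I, X / L ^ (V + 2) := by
            apply sum_le_sum
            intro i hi
            rw [hI, mem_filter, mem_range] at hi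
            refine block_est e V M i X he hM hX1 h3 hsize ?_ hi.2.2 hi.2.1
            have q1 : 2 ^ i ≤ D := by
              calc 2 ^ i ≤ 2 ^ (Nat.log 2 D) := Nat.pow_le_pow_right (by norm_num) (by omega)
                _ ≤ D := Nat.pow_log_le_self 2 hDpos.ne'
            have q2 : ((2 ^ i : ℕ) : ℝ) ≤ ((M ^ e : ℕ) : ℝ) := by exact_mod_cast q1
            push_cast at q2
            exact q2
        _ = (#I : ℝ) * (X / L ^ (V + 2)) := by rw [sum_const, nsmul_eq_mul]
        _ ≤ (3 * L) * (X / L ^ (V + 2)) := by gcongr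
        _ = 3 * (X / L ^ V) * (1 / L) := by
            rw [pow_add, pow_two]
            field_simp
        _ ≤ 3 * (X / L ^ V) * (1 / 10000) := by gcongr
        _ ≤ _ := by linarith
    have hsplit : ∑ f ∈ Icc 2 D, wt e f * Sp X f ≤
        ∑ f ∈ Icc 2 G, wt e f * Sp X f + ∑ f ∈ Icc (G + 1) D, wt e f * Sp X f := by
      rw [← sum_filter_add_sum_filter_not (Icc 2 D) (fun f => f ≤ G)]
      apply add_le_add
      · apply sum_le_sum_of_subset_of_nonneg
        · intro f hf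
          rw [mem_filter, mem_Icc] at hf
          rw [mem_Icc]
          exact ⟨hf.1.1, hf.2⟩
        · intro f _ _
          exact hnn f
      · apply sum_le_sum_of_subset_of_nonneg
        · intro f hf
          rw [mem_filter, mem_Icc] at hf
          rw [mem_Icc]
          omega
        · intro f _ _
          exact hnn f
    linarith
  rw [eventually_atTop] at ev
  obtain ⟨X0, hX0⟩ := ev
  exact ⟨6 * V + 48, X0, hX0⟩

/-- interchange of the sums over the moduli and the conductors -/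
lemma inter (e M0 M : ℕ) (he : 1 ≤ e) (hM0 : 1 ≤ M0) (S : Finset ℕ) (hS : S ⊆ Ioc M0 M)
    (T : ℕ → ℝ) (hT : ∀ f, 0 ≤ T f) :
    ∑ m ∈ S, (1 / (Nat.totient (m ^ e) : ℝ)) * ∑ f ∈ (m ^ e).divisors.filter (fun f => f ≠ 1), T f ≤
      (1 / (M0 : ℝ) ^ (e - 1)) * HH M *
        ∑ f ∈ Icc 2 (M ^ e), wt e f * ((1 / (Nat.totient f : ℝ)) * T f) := by
  have h1 : ∀ m ∈ S, (1 / (Nat.totient (m ^ e) : ℝ)) *
      ∑ f ∈ (m ^ e).divisors.filter (fun f => f ≠ 1), T f ≤
      ∑ f ∈ Icc 2 (M ^ e), if f ∣ m ^ e then (1 / (Nat.totient (m ^ e) : ℝ)) * T f else 0 := by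
    intro m hm
    have hmS := mem_Ioc.1 (hS hm)
    have hm0 : 0 < m := by omega
    rw [mul_sum, ← sum_filter]
    apply sum_le_sum_of_subset_of_nonneg
    · intro f hf
      rw [mem_filter, Nat.mem_divisors] at hf
      rw [mem_filter, mem_Icc]
      have hf0 : 0 < f := Nat.pos_of_dvd_of_pos hf.1.1 (pow_pos hm0 e)
      refine ⟨⟨by have := hf.2; omega, ?_⟩, hf.1.1⟩
      exact (Nat.le_of_dvd (pow_pos hm0 e) hf.1.1).trans (Nat.pow_le_pow_left hmS.2 e)
    · intro f _ _
      exact mul_nonneg (by positivity) (hT f)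
  refine (sum_le_sum h1).trans ?_
  rw [sum_comm, mul_sum]
  apply sum_le_sum
  intro f hf
  rw [mem_Icc] at hf
  have hf0 : f ≠ 0 := by omega
  have h2 := sum_root e M0 M f he hM0 hf0 S hS
  rw [← sum_filter, ← sum_mul]
  calc (∑ m ∈ S.filter (fun m => f ∣ m ^ e), 1 / (Nat.totient (m ^ e) : ℝ)) * T f
      ≤ ((1 / (M0 : ℝ) ^ (e - 1)) * HH M * ((f : ℝ) / rt e f) * (1 / (Nat.totient f : ℝ))) * T f :=
        mul_le_mul_of_nonneg_right h2 (hT f)
    _ = _ := by unfold wt; ring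

/-- the smoothed theorem for the moduli `m ^ e` -/
theorem smooth (e V : ℕ) (he : 2 ≤ e) : ∃ (B : ℕ) (X0 : ℝ), ∀ X : ℝ, X0 ≤ X → ∀ M M0 : ℕ, 1 ≤ M0 →
    (M : ℝ) ^ (6 * (e - 1)) * Real.log X ^ B ≤ X → ∀ S : Finset ℕ, S ⊆ Ioc M0 M → ∀ r : ℕ → ℕ,
    (∀ m ∈ S, Nat.Coprime (r m) (m ^ e)) →
    ∑ m ∈ S, |psiLogAP X (m ^ e) (r m) - psiLog1 X / (Nat.totient (m ^ e) : ℝ)| ≤
      X / ((M0 : ℝ) ^ (e - 1) * Real.log X ^ V) := by
  obtain ⟨k, hk⟩ := sum_pow_omega_div_totient 1 le_rfl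
  obtain ⟨K, hK⟩ : ∃ K : ℕ, K = 2 ^ k := ⟨_, rfl⟩
  obtain ⟨B1, X1, hw⟩ := bv_weight e (V + K + 1) he
  have hlog : Tendsto Real.log atTop atTop := Real.tendsto_log_atTop
  have ev : ∀ᶠ X : ℝ in atTop, X1 ≤ X ∧ 4 ≤ X ∧ 2 ^ (K + 2) + 100 ≤ Real.log X :=
    (eventually_ge_atTop X1).and ((eventually_ge_atTop 4).and (hlog.eventually_ge_atTop _))
  obtain ⟨X0, hX0⟩ := eventually_atTop.1 ev
  refine ⟨B1 + V + 8, X0, ?_⟩
  intro X hX M M0 hM0 hsize S hS r hr
  obtain ⟨hX1, hX4, hLbig⟩ := hX0 X hX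
  set L := Real.log X with hL
  have hp : (0 : ℝ) < 2 ^ (K + 2) := by positivity
  have hL100 : 100 ≤ L := by linarith
  have hL0 : 0 < L := by linarith
  have hL1 : 1 ≤ L := by linarith
  have hXpos : 0 < X := by linarith
  have hX1' : 1 ≤ X := by linarith
  have hM0r : (1 : ℝ) ≤ M0 := by exact_mod_cast hM0
  have hM00 : (0 : ℝ) < M0 := by linarith
  rcases S.eq_empty_or_nonempty with hSe | ⟨m₀, hm₀⟩
  · rw [hSe, sum_empty]; positivity
  have hm₀' := mem_Ioc.1 (hS hm₀)
  have hM1 : 1 ≤ M := by omega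
  have hMr : (1 : ℝ) ≤ M := by exact_mod_cast hM1
  have hM0M : (M0 : ℝ) ≤ M := by exact_mod_cast (by omega : M0 ≤ M)
  have hsz1 : (M : ℝ) ^ (6 * (e - 1)) * L ^ B1 ≤ X := by
    refine le_trans ?_ hsize
    apply mul_le_mul_of_nonneg_left _ (by positivity)
    exact pow_le_pow_right₀ hL1 (by omega)
  have hwX := hw X hX1 M hM1 hsz1
  have hMX : ((M ^ e : ℕ) : ℝ) ≤ X := by
    push_cast
    calc (M : ℝ) ^ e ≤ (M : ℝ) ^ (6 * (e - 1)) := pow_le_pow_right₀ hMr (by omega)
      _ = (M : ℝ) ^ (6 * (e - 1)) * 1 := (mul_one _).symm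
      _ ≤ (M : ℝ) ^ (6 * (e - 1)) * L ^ (B1 + V + 8) := by
          gcongr
          exact one_le_pow₀ hL1
      _ ≤ X := hsize
  have hterm : ∀ m ∈ S, |psiLogAP X (m ^ e) (r m) - psiLog1 X / (Nat.totient (m ^ e) : ℝ)| ≤
      (1 / (Nat.totient (m ^ e) : ℝ)) * (∑ f ∈ (m ^ e).divisors.filter (fun f => f ≠ 1),
        ∑ ψ ∈ Prim f, ‖psiLog X f ψ‖) + 4 * L ^ 3 := by
    intro m hm
    have hmS := mem_Ioc.1 (hS hm)
    have hm0 : 0 < m := by omega
    have h1 := disc_le X hX1' (m ^ e) (r m) (pow_pos hm0 e) (hr m hm)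
    refine h1.trans ?_
    apply add_le_add_right
    have h2 := omega_le_log (m ^ e) (pow_pos hm0 e)
    have h3 : Real.log ((m ^ e : ℕ) : ℝ) ≤ L := by
      apply log_natCast_le _ X hX1'
      refine le_trans ?_ hMX
      exact_mod_cast Nat.pow_le_pow_left hmS.2 e
    calc 2 * (((m ^ e).primeFactors.card : ℝ) * L ^ 2) ≤ 2 * ((2 * L) * L ^ 2) := by
          gcongr
          linarith
      _ = 4 * L ^ 3 := by ring
  refine (sum_le_sum hterm).trans ?_
  rw [sum_add_distrib, sum_const, nsmul_eq_mul]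
  have hint := inter e M0 M (by omega) hM0 S hS (fun f => ∑ ψ ∈ Prim f, ‖psiLog X f ψ‖)
    (fun f => sum_nonneg fun _ _ => norm_nonneg _)
  have hHH : HH M ≤ (2 * L) ^ K := by
    rw [hK]
    apply H343E.Sm.HH_le k hk M L _ hL1
    apply log_natCast_le _ X hX1'
    refine le_trans ?_ hMX
    push_cast
    exact le_self_pow₀ hMr (by omega)
  have hHH0 : 0 ≤ HH M := by
    unfold HH
    exact sum_nonneg fun _ _ => by positivity
  have hA : (1 / (M0 : ℝ) ^ (e - 1)) * HH M *
        ∑ f ∈ Icc 2 (M ^ e), wt e f * ((1 / (Nat.totient f : ℝ)) * ∑ ψ ∈ Prim f, ‖psiLog X f ψ‖) ≤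
      (1 / 2) * (X / ((M0 : ℝ) ^ (e - 1) * L ^ V)) := by
    calc _ ≤ (1 / (M0 : ℝ) ^ (e - 1)) * (2 * L) ^ K * (X / L ^ (V + K + 1)) := by
          apply mul_le_mul _ hwX (sum_nonneg fun f _ => mul_nonneg (wt_nonneg e f) (Sp_nonneg X f))
            (by positivity)
          exact mul_le_mul_of_nonneg_left hHH (by positivity)
      _ = (2 ^ K / L) * (X / ((M0 : ℝ) ^ (e - 1) * L ^ V)) := by
          rw [mul_pow]
          have : L ^ (V + K + 1) = L ^ V * L ^ K * L := by ring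
          rw [this]
          field_simp
      _ ≤ (1 / 2) * (X / ((M0 : ℝ) ^ (e - 1) * L ^ V)) := by
          apply mul_le_mul_of_nonneg_right _ (by positivity)
          rw [div_le_div_iff₀ hL0 (by norm_num), one_mul]
          have : (2 : ℝ) ^ (K + 2) = 2 ^ K * 2 * 2 := by ring
          have h9 : (0 : ℝ) < 2 ^ K := by positivity
          linarith
  have hB : (#S : ℝ) * (4 * L ^ 3) ≤ (1 / 2) * (X / ((M0 : ℝ) ^ (e - 1) * L ^ V)) := by
    have hcard : (#S : ℝ) ≤ M := by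
      have h1 := card_le_card hS
      rw [Nat.card_Ioc] at h1
      have : #S ≤ M := by omega
      exact_mod_cast this
    have h2 : (M : ℝ) * (M0 : ℝ) ^ (e - 1) ≤ (M : ℝ) ^ (6 * (e - 1)) := by
      calc (M : ℝ) * (M0 : ℝ) ^ (e - 1) ≤ M * (M : ℝ) ^ (e - 1) := by gcongr
        _ = (M : ℝ) ^ e := by
            rw [← pow_succ']
            congr 1
            omega
        _ ≤ _ := pow_le_pow_right₀ hMr (by omega)
    have h3 : (#S : ℝ) * (4 * L ^ 3) * ((M0 : ℝ) ^ (e - 1) * L ^ V) ≤ (1 / 2) * X := by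
      calc (#S : ℝ) * (4 * L ^ 3) * ((M0 : ℝ) ^ (e - 1) * L ^ V)
          ≤ M * (4 * L ^ 3) * ((M0 : ℝ) ^ (e - 1) * L ^ V) := by gcongr
        _ = 4 * (M * (M0 : ℝ) ^ (e - 1)) * L ^ (V + 3) := by ring
        _ ≤ 4 * (M : ℝ) ^ (6 * (e - 1)) * L ^ (V + 3) := by gcongr
        _ ≤ (1 / 2) * ((M : ℝ) ^ (6 * (e - 1)) * L ^ (B1 + V + 8)) := by
            have h4 : L ^ (V + 4) ≤ L ^ (B1 + V + 8) := pow_le_pow_right₀ hL1 (by omega)
            have h5 : 8 * L ^ (V + 3) ≤ L ^ (V + 4) := by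
              rw [pow_succ L (V + 3)]
              have : 0 < L ^ (V + 3) := by positivity
              nlinarith
            have h6 : 0 ≤ (M : ℝ) ^ (6 * (e - 1)) := by positivity
            nlinarith
        _ ≤ (1 / 2) * X := by
            apply mul_le_mul_of_nonneg_left hsize (by norm_num)
    have h7 : 0 < (M0 : ℝ) ^ (e - 1) * L ^ V := by positivity
    calc (#S : ℝ) * (4 * L ^ 3) = (#S : ℝ) * (4 * L ^ 3) * ((M0 : ℝ) ^ (e - 1) * L ^ V) /
          ((M0 : ℝ) ^ (e - 1) * L ^ V) := by field_simp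
      _ ≤ (1 / 2) * X / ((M0 : ℝ) ^ (e - 1) * L ^ V) := by gcongr
      _ = _ := by ring
  linarith

end Q239.LC
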