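import Mathlib
import Pool.Agent.Q239.LC.BVW
import Pool.Agent.H343R2.EH.Unsmooth
import Pool.Agent.H343R2.EH.Primes

set_option autoImplicit false

/-!
The theorem for the moduli `m ^ e` without the logarithmic weight.
-/

namespace Q239.LC

open Finset Filter Topology
open Pool.Agent.H398R2.BV Pool.Agent.H410R2 H343E

lemma rt_one (e : ℕ) : rt e 1 = 1 := by
  unfold rt
  simp

/-- the main terms -/
lemma sum_main (e M0 M : ℕ) (he : 1 ≤ e) (hM0 : 1 ≤ M0) (S : Finset ℕ) (hS : S ⊆ Ioc M0 M)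
    {c : ℝ} (hc : 0 ≤ c) :
    ∑ m ∈ S, c / (Nat.totient (m ^ e) : ℝ) ≤ c * ((1 / (M0 : ℝ) ^ (e - 1)) * HH M) := by
  have h := sum_root e M0 M 1 he hM0 one_ne_zero S hS
  rw [rt_one] at h
  have h1 : S.filter (fun m => 1 ∣ m ^ e) = S := filter_true_of_mem fun m _ => one_dvd _
  rw [h1] at h
  simp only [Nat.cast_one, Nat.totient_one, div_one, mul_one] at h
  have h2 : ∑ m ∈ S, c / (Nat.totient (m ^ e) : ℝ) = c * ∑ m ∈ S, 1 / (Nat.totient (m ^ e) : ℝ) := by
    rw [mul_sum]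
    apply sum_congr rfl
    intro m _
    ring
  rw [h2]
  exact mul_le_mul_of_nonneg_left h hc

theorem unsm (e U : ℕ) (he : 2 ≤ e) : ∃ (B : ℕ) (X0 : ℝ), ∀ X : ℝ, X0 ≤ X → ∀ M M0 : ℕ, 1 ≤ M0 →
    (M : ℝ) ^ (6 * (e - 1)) * Real.log X ^ B ≤ X → ∀ S : Finset ℕ, S ⊆ Ioc M0 M → ∀ r : ℕ → ℕ,
    (∀ m ∈ S, Nat.Coprime (r m) (m ^ e)) →
    ∑ m ∈ S, |psiAP X (m ^ e) (r m) - psi1 X / (Nat.totient (m ^ e) : ℝ)| ≤
      X / ((M0 : ℝ) ^ (e - 1) * Real.log X ^ U) := by
  obtain ⟨k, hk⟩ := sum_pow_omega_div_totient 1 le_rfl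
  set K := 2 ^ k with hK
  set V := U + K + 2 with hV
  set U' := U + V + 1 with hU'
  obtain ⟨B0, X1, hs⟩ := smooth e U' he
  have hlarge : ∀ᶠ X : ℝ in Filter.atTop, 1 ≤ X / Real.log X ^ V := by
    have h1 := isLittleO_log_rpow_rpow_atTop (s := 1) (V : ℝ) one_pos
    have h2 := h1.bound (show (0 : ℝ) < 1 by norm_num)
    filter_upwards [h2, Filter.eventually_gt_atTop (3 : ℝ)] with X hX h3
    have hlog : 1 < Real.log X := by
      rw [Real.lt_log_iff_exp_lt (by linarith)]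
      exact lt_trans Real.exp_one_lt_three h3
    rw [Real.rpow_one, Real.norm_of_nonneg (by positivity), Real.norm_of_nonneg (by linarith),
      Real.rpow_natCast, one_mul] at hX
    rwa [one_le_div (by positivity)]
  obtain ⟨X2, hX2⟩ := Filter.eventually_atTop.1 hlarge
  set Cst : ℝ := 3 * 2 ^ B0 + 18 * 2 ^ U' + 16 * 2 ^ K with hCst
  refine ⟨B0 + 1, max (max (3 * X1) X2) (max 9 (Real.exp Cst)), ?_⟩
  intro X hX M M0 hM0 hsize S hS r hr
  have hXX1 : 3 * X1 ≤ X := le_trans (le_trans (le_max_left _ _) (le_max_left _ _)) hX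
  have hXX2 : X2 ≤ X := le_trans (le_trans (le_max_right _ _) (le_max_left _ _)) hX
  have hX9 : 9 ≤ X := le_trans (le_trans (le_max_left _ _) (le_max_right _ _)) hX
  have hXe : Real.exp Cst ≤ X := le_trans (le_trans (le_max_right _ _) (le_max_right _ _)) hX
  have hX0 : 0 < X := by linarith
  have hlogX : Cst ≤ Real.log X := by
    rwa [Real.le_log_iff_exp_le hX0]
  set l := Real.log X with hl
  have hCst3 : (3 : ℝ) * 2 ^ B0 ≤ l := by
    have : (0 : ℝ) ≤ 18 * 2 ^ U' + 16 * 2 ^ K := by positivity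
    linarith
  have hCst18 : (18 : ℝ) * 2 ^ U' ≤ l := by
    have : (0 : ℝ) ≤ 3 * 2 ^ B0 + 16 * 2 ^ K := by positivity
    linarith
  have hCst16 : (16 : ℝ) * 2 ^ K ≤ l := by
    have : (0 : ℝ) ≤ 3 * 2 ^ B0 + 18 * 2 ^ U' := by positivity
    linarith
  have hl1 : 1 < l := by
    have : (1 : ℝ) ≤ 2 ^ B0 := one_le_pow₀ (by norm_num)
    linarith
  have hl0 : 0 < l := by linarith
  set η : ℝ := (l ^ V)⁻¹ with hη
  have hη0 : 0 < η := by positivity
  have hη1 : η ≤ 1 := inv_le_one_of_one_le₀ (one_le_pow₀ hl1.le)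
  have hηX : 1 ≤ η * X := by
    have := hX2 X hXX2
    rw [hη, inv_mul_eq_div]
    exact this
  have hM0r : (0 : ℝ) < M0 := by exact_mod_cast hM0
  obtain ⟨Q, hQ⟩ : ∃ Q : ℝ, Q = (M0 : ℝ) ^ (e - 1) := ⟨_, rfl⟩
  have hQ0 : 0 < Q := by rw [hQ]; positivity
  rw [← hQ]
  rcases S.eq_empty_or_nonempty with hSe | ⟨m₀, hm₀⟩
  · rw [hSe, sum_empty]; positivity
  have hm₀' := mem_Ioc.1 (hS hm₀)
  have hM1 : 1 ≤ M := by omega
  have hMr : (1 : ℝ) ≤ M := by exact_mod_cast hM1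
  -- the three points
  have three : ∀ Y : ℝ, X / 3 ≤ Y → Y ≤ 3 * X →
      ∑ m ∈ S, |psiLogAP Y (m ^ e) (r m) - psiLog1 Y / (Nat.totient (m ^ e) : ℝ)| ≤
        3 * 2 ^ U' * (X / (Q * l ^ U')) := by
    intro Y hY1 hY2
    have hY0 : 0 < Y := by linarith
    have hY3 : 3 ≤ Y := by linarith
    have hlogY2 : Real.log Y ≤ 2 * l := by
      have h1 : Real.log Y ≤ Real.log (X * X) := Real.log_le_log hY0 (by nlinarith)
      rw [Real.log_mul hX0.ne' hX0.ne'] at h1
      linarith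
    have hlogY1 : l / 2 ≤ Real.log Y := by
      have h1 : Real.log X ≤ Real.log (Y * Y) := Real.log_le_log hX0 (by nlinarith)
      rw [Real.log_mul hY0.ne' hY0.ne'] at h1
      linarith
    have hlogY0 : 0 < Real.log Y := by linarith
    have hpow : 3 * Real.log Y ^ B0 ≤ l ^ (B0 + 1) := by
      calc 3 * Real.log Y ^ B0 ≤ 3 * (2 * l) ^ B0 := by gcongr
        _ = (3 * 2 ^ B0) * l ^ B0 := by rw [mul_pow]; ring
        _ ≤ l * l ^ B0 := by gcongr
        _ = l ^ (B0 + 1) := by ring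
    have hsz : (M : ℝ) ^ (6 * (e - 1)) * Real.log Y ^ B0 ≤ Y := by
      have h1 : (M : ℝ) ^ (6 * (e - 1)) * (3 * Real.log Y ^ B0) ≤ X :=
        le_trans (mul_le_mul_of_nonneg_left hpow (by positivity)) hsize
      linarith
    have h1 := hs Y (by linarith) M M0 hM0 hsz S hS r hr
    refine h1.trans ?_
    rw [← hQ]
    have h2 : l ^ U' ≤ 2 ^ U' * Real.log Y ^ U' := by
      rw [← mul_pow]
      gcongr
      linarith
    rw [div_le_iff₀ (by positivity)]
    have h3 : X / (Q * l ^ U') * (Q * l ^ U') = X := by field_simp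
    calc Y ≤ 3 * X := hY2
      _ = 3 * (X / (Q * l ^ U') * (Q * l ^ U')) := by rw [h3]
      _ ≤ 3 * (X / (Q * l ^ U') * (Q * (2 ^ U' * Real.log Y ^ U'))) := by gcongr
      _ = 3 * 2 ^ U' * (X / (Q * l ^ U')) * (Q * Real.log Y ^ U') := by ring
  have hexp3 : Real.exp η ≤ 3 := by
    calc Real.exp η ≤ Real.exp 1 := Real.exp_le_exp.2 hη1
      _ ≤ 3 := Real.exp_one_lt_three.le
  have hexp1 : 1 ≤ Real.exp η := Real.one_le_exp hη0.le
  have hexpm : 1 / 3 ≤ Real.exp (-η) := by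
    rw [Real.exp_neg, one_div]
    exact inv_anti₀ (Real.exp_pos _) hexp3
  have hexpm1 : Real.exp (-η) ≤ 1 := by
    rw [Real.exp_le_one_iff]; linarith
  have t1 := three (X * Real.exp η) (by nlinarith) (by nlinarith)
  have t2 := three X (by linarith) (by linarith)
  have t3 := three (X * Real.exp (-η)) (by nlinarith) (by nlinarith)
  -- sum of the pointwise inequality
  set c : ℝ := psi1 (X * Real.exp η) - psi1 (X * Real.exp (-η)) with hc
  have hc0 : 0 ≤ c := by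
    rw [hc, psi1_eq, psi1_eq, sub_nonneg]
    apply psiP_mono
    nlinarith
  have hc1 : c ≤ (3 * η * X + 1) * (l + 1) := psi1_short (by linarith) hη0 hη1
  have hsum : ∑ m ∈ S, |psiAP X (m ^ e) (r m) - psi1 X / (Nat.totient (m ^ e) : ℝ)| ≤
      (1 / η) * (3 * (3 * 2 ^ U' * (X / (Q * l ^ U')))) + c * ((1 / Q) * HH M) := by
    calc ∑ m ∈ S, |psiAP X (m ^ e) (r m) - psi1 X / (Nat.totient (m ^ e) : ℝ)| ≤
        ∑ m ∈ S, ((1 / η) *
          (|psiLogAP (X * Real.exp η) (m ^ e) (r m) - psiLog1 (X * Real.exp η) / (Nat.totient (m ^ e) : ℝ)| +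
          |psiLogAP X (m ^ e) (r m) - psiLog1 X / (Nat.totient (m ^ e) : ℝ)| +
          |psiLogAP (X * Real.exp (-η)) (m ^ e) (r m) - psiLog1 (X * Real.exp (-η)) / (Nat.totient (m ^ e) : ℝ)|) +
          c / (Nat.totient (m ^ e) : ℝ)) :=
          sum_le_sum fun m _ => unsmooth_point hX0 hη0 (m ^ e) (r m)
      _ = (1 / η) * (
          ∑ m ∈ S,
            |psiLogAP (X * Real.exp η) (m ^ e) (r m) - psiLog1 (X * Real.exp η) / (Nat.totient (m ^ e) : ℝ)| +
          ∑ m ∈ S, |psiLogAP X (m ^ e) (r m) - psiLog1 X / (Nat.totient (m ^ e) : ℝ)| +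
          ∑ m ∈ S,
            |psiLogAP (X * Real.exp (-η)) (m ^ e) (r m) - psiLog1 (X * Real.exp (-η)) / (Nat.totient (m ^ e) : ℝ)|) +
          ∑ m ∈ S, c / (Nat.totient (m ^ e) : ℝ) := by
          simp only [sum_add_distrib, mul_sum, mul_add]
      _ ≤ _ := by
          have hsm := sum_main e M0 M (by omega) hM0 S hS hc0
          rw [← hQ] at hsm
          refine add_le_add ?_ hsm
          apply mul_le_mul_of_nonneg_left _ (by positivity)
          linarith
  refine hsum.trans ?_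
  -- first part
  have p1 : (1 / η) * (3 * (3 * 2 ^ U' * (X / (Q * l ^ U')))) ≤ (X / (Q * l ^ U)) / 2 := by
    have h1 : l ^ U' = l ^ V * l ^ U * l := by rw [hU']; ring
    have h2 : (1 / η) * (3 * (3 * 2 ^ U' * (X / (Q * l ^ U')))) = (9 * 2 ^ U' / l) * (X / (Q * l ^ U)) := by
      rw [hη, h1]
      field_simp
      ring
    rw [h2]
    have h3 : 9 * 2 ^ U' / l ≤ 1 / 2 := by
      rw [div_le_div_iff₀ hl0 (by norm_num)]
      linarith
    calc (9 * 2 ^ U' / l) * (X / (Q * l ^ U)) ≤ (1 / 2) * (X / (Q * l ^ U)) := by gcongr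
      _ = _ := by ring
  have p2 : c * ((1 / Q) * HH M) ≤ (X / (Q * l ^ U)) / 2 := by
    have hHH : HH M ≤ (2 * l) ^ K := by
      rw [hK]
      apply H343E.Sm.HH_le k hk M l _ hl1.le
      apply log_natCast_le _ X (by linarith)
      calc (M : ℝ) ≤ (M : ℝ) ^ (6 * (e - 1)) := le_self_pow₀ hMr (by omega)
        _ = (M : ℝ) ^ (6 * (e - 1)) * 1 := (mul_one _).symm
        _ ≤ (M : ℝ) ^ (6 * (e - 1)) * l ^ (B0 + 1) := by
            gcongr
            exact one_le_pow₀ hl1.le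
        _ ≤ X := hsize
    have hHH0 : 0 ≤ HH M := by
      unfold HH
      exact sum_nonneg fun _ _ => by positivity
    have hc2 : c ≤ 8 * η * X * l := by
      refine hc1.trans ?_
      have h1 : 3 * η * X + 1 ≤ 4 * (η * X) := by linarith
      calc (3 * η * X + 1) * (l + 1) ≤ (4 * (η * X)) * (2 * l) := by
            apply mul_le_mul h1 (by linarith) (by linarith) (by positivity)
        _ = 8 * η * X * l := by ring
    calc c * ((1 / Q) * HH M) ≤ (8 * η * X * l) * ((1 / Q) * (2 * l) ^ K) := by gcongr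
      _ = (8 * 2 ^ K / l) * (X / (Q * l ^ U)) := by
          have h1 : l ^ V = l ^ U * l ^ K * l * l := by rw [hV]; ring
          rw [hη, h1, mul_pow]
          field_simp
      _ ≤ (1 / 2) * (X / (Q * l ^ U)) := by
          apply mul_le_mul_of_nonneg_right _ (by positivity)
          rw [div_le_div_iff₀ hl0 (by norm_num)]
          linarith
      _ = _ := by ring
  linarith

end Q239.LC
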