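import Mathlib
import Pool.Agent.Q239.LC.Unsm

set_option autoImplicit false

/-!
Primes in progressions to the moduli `m ^ e`.
-/

namespace Q239.LC

open Finset Filter Topology
open Pool.Agent.H398R2.BV Pool.Agent.H410R2 H343E

theorem prm (e U : ℕ) (he : 2 ≤ e) : ∃ (B x0 : ℕ), ∀ x : ℕ, x0 ≤ x → ∀ M M0 : ℕ, 1 ≤ M0 →
    (M : ℝ) ^ (6 * (e - 1)) * Real.log x ^ B ≤ x → ∀ S : Finset ℕ, S ⊆ Ioc M0 M → ∀ r : ℕ → ℕ,
    (∀ m ∈ S, Nat.Coprime (r m) (m ^ e)) →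
    ∑ m ∈ S, |piAP x (m ^ e) (r m) - pi1 x / (Nat.totient (m ^ e) : ℝ)| ≤
      x / ((M0 : ℝ) ^ (e - 1) * Real.log x ^ U) := by
  obtain ⟨B1, X0, hun⟩ := unsm e (U + 2) he
  obtain ⟨k, hk⟩ := sum_pow_omega_div_totient 1 le_rfl
  obtain ⟨c0, hc0⟩ : ∃ c : ℕ, c = 2 ^ k := ⟨_, rfl⟩
  obtain ⟨K, hK⟩ : ∃ K : ℕ, K = U + 3 + c0 := ⟨_, rfl⟩
  obtain ⟨B, hB⟩ : ∃ B : ℕ, B = 2 * (B1 + K + U + 10) := ⟨_, rfl⟩
  -- eventual conditions
  have hev1 : ∀ᶠ X : ℝ in Filter.atTop, √X * Real.log X ^ K ≤ X := by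
    have h1 := isLittleO_log_rpow_rpow_atTop (s := 1 / 2) (K : ℝ) (by norm_num)
    have h2 := h1.bound (show (0 : ℝ) < 1 by norm_num)
    filter_upwards [h2, Filter.eventually_gt_atTop (3 : ℝ)] with X hX h3
    have hlog : 1 < Real.log X := by
      rw [Real.lt_log_iff_exp_lt (by linarith)]
      exact lt_trans Real.exp_one_lt_three h3
    rw [Real.norm_of_nonneg (by positivity), Real.norm_of_nonneg (by positivity),
      Real.rpow_natCast, one_mul, ← Real.sqrt_eq_rpow] at hX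
    calc √X * Real.log X ^ K ≤ √X * √X := by gcongr
      _ = X := Real.mul_self_sqrt (by linarith)
  have hev2 : ∀ᶠ X : ℝ in Filter.atTop, X0 ≤ √X :=
    Real.tendsto_sqrt_atTop.eventually (Filter.eventually_ge_atTop X0)
  have hev3 : ∀ᶠ X : ℝ in Filter.atTop, (2 : ℝ) ^ (c0 + 1) + 2 ^ (U + 2) + 24 ≤ Real.log X :=
    Real.tendsto_log_atTop.eventually (Filter.eventually_ge_atTop _)
  have hev4 : ∀ᶠ X : ℝ in Filter.atTop, (4 : ℝ) ≤ X := Filter.eventually_ge_atTop _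
  obtain ⟨Y, hY⟩ := Filter.eventually_atTop.mp (hev1.and (hev2.and (hev3.and hev4)))
  refine ⟨B, ⌈Y⌉₊, ?_⟩
  intro x hx M M0 hM0 hsize S hS r hr
  obtain ⟨g1, g2, g3, g4⟩ := hY x (Nat.ceil_le.mp hx)
  obtain ⟨ℓ, hℓ⟩ : ∃ ℓ : ℝ, ℓ = Real.log x := ⟨_, rfl⟩
  rw [← hℓ] at g1 g3 hsize ⊢
  have hx0 : (0 : ℝ) < x := by linarith
  have hp1 : (0 : ℝ) < 2 ^ (c0 + 1) := by positivity
  have hp2 : (0 : ℝ) < 2 ^ (U + 2) := by positivity
  have hℓ24 : 24 ≤ ℓ := by linarith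
  have hℓ0 : 0 < ℓ := by linarith
  have hℓ1 : 1 ≤ ℓ := by linarith
  have hx2 : 2 ≤ x := by
    have : (2 : ℝ) ≤ x := by linarith
    exact_mod_cast this
  have hsx : √(x : ℝ) * √(x : ℝ) = x := Real.mul_self_sqrt hx0.le
  have hsx0 : 0 < √(x : ℝ) := Real.sqrt_pos.mpr hx0
  have hℓK : 0 < ℓ ^ K := by positivity
  have hxK : √(x : ℝ) ≤ x / ℓ ^ K := by
    rw [le_div_iff₀ hℓK]
    exact g1
  obtain ⟨Q, hQ⟩ : ∃ Q : ℝ, Q = (M0 : ℝ) ^ (e - 1) := ⟨_, rfl⟩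
  have hM0r : (0 : ℝ) < M0 := by exact_mod_cast hM0
  have hQ0 : 0 < Q := by rw [hQ]; positivity
  rw [← hQ]
  rcases S.eq_empty_or_nonempty with hSe | ⟨m₀, hm₀⟩
  · rw [hSe, sum_empty]; positivity
  have hm₀' := mem_Ioc.1 (hS hm₀)
  have hM1 : 1 ≤ M := by omega
  have hMr : (1 : ℝ) ≤ M := by exact_mod_cast hM1
  have hM0M : (M0 : ℝ) ≤ M := by exact_mod_cast (by omega : M0 ≤ M)
  have hcard : (#S : ℝ) ≤ M := by
    have h1 := card_le_card hS
    rw [Nat.card_Ioc] at h1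
    have : #S ≤ M := by omega
    exact_mod_cast this
  have hMQ : (M : ℝ) * Q ≤ (M : ℝ) ^ e := by
    rw [hQ]
    calc (M : ℝ) * (M0 : ℝ) ^ (e - 1) ≤ M * (M : ℝ) ^ (e - 1) := by gcongr
      _ = (M : ℝ) ^ e := by
          rw [← pow_succ']
          congr 1
          omega
  have hMQ6 : (M : ℝ) * Q * ℓ ^ B ≤ x := by
    calc (M : ℝ) * Q * ℓ ^ B ≤ (M : ℝ) ^ (6 * (e - 1)) * ℓ ^ B := by
          apply mul_le_mul_of_nonneg_right _ (by positivity)
          exact hMQ.trans (pow_le_pow_right₀ hMr (by omega))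
      _ ≤ x := hsize
  have hMX : (M : ℝ) ≤ x := by
    calc (M : ℝ) ≤ (M : ℝ) ^ (6 * (e - 1)) := le_self_pow₀ hMr (by omega)
      _ = (M : ℝ) ^ (6 * (e - 1)) * 1 := (mul_one _).symm
      _ ≤ (M : ℝ) ^ (6 * (e - 1)) * ℓ ^ B := by
          gcongr
          exact one_le_pow₀ hℓ1
      _ ≤ x := hsize
  have hHH : HH M ≤ (2 * ℓ) ^ c0 := by
    rw [hc0]
    apply H343E.Sm.HH_le k hk M ℓ _ hℓ1
    rw [hℓ]
    exact log_natCast_le _ _ (by linarith) hMX
  have hHH0 : 0 ≤ HH M := by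
    unfold HH
    exact sum_nonneg fun _ _ => by positivity
  have hQ' : ∀ c : ℝ, 0 ≤ c → ∑ m ∈ S, c / (Nat.totient (m ^ e) : ℝ) ≤ c * ((1 / Q) * (2 * ℓ) ^ c0) := by
    intro c hc
    have h1 := sum_main e M0 M (by omega) hM0 S hS hc
    rw [← hQ] at h1
    refine h1.trans ?_
    gcongr
  -- the bound for all `n`
  have hM : ∀ n, 2 ≤ n → n ≤ x → ∑ m ∈ S, |Eψ n (m ^ e) (r m)| ≤ x / (Q * ℓ ^ (U + 1)) := by
    intro n hn2 hnx
    have hn0 : (0 : ℝ) < n := by exact_mod_cast (by omega : 0 < n)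
    have hn1 : (1 : ℝ) < n := by exact_mod_cast (by omega : 1 < n)
    have hnx' : (n : ℝ) ≤ x := by exact_mod_cast hnx
    have hlnℓ : Real.log n ≤ ℓ := by rw [hℓ]; exact Real.log_le_log hn0 hnx'
    have hln0 : 0 < Real.log n := Real.log_pos hn1
    rcases le_or_gt ((x : ℝ) / ℓ ^ K) n with hcase | hcase
    · -- large n
      have hnsq : √(x : ℝ) ≤ n := hxK.trans hcase
      have e1 : (M : ℝ) ^ (6 * (e - 1)) * Real.log n ^ B1 ≤ n := by
        have e2 : (M : ℝ) ^ (6 * (e - 1)) * ℓ ^ B1 * ℓ ^ K ≤ x := by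
          calc (M : ℝ) ^ (6 * (e - 1)) * ℓ ^ B1 * ℓ ^ K = (M : ℝ) ^ (6 * (e - 1)) * ℓ ^ (B1 + K) := by
                rw [pow_add]; ring
            _ ≤ (M : ℝ) ^ (6 * (e - 1)) * ℓ ^ B := by
                apply mul_le_mul_of_nonneg_left _ (by positivity)
                exact pow_le_pow_right₀ hℓ1 (by omega)
            _ ≤ x := hsize
        rw [← le_div_iff₀ hℓK] at e2
        calc (M : ℝ) ^ (6 * (e - 1)) * Real.log n ^ B1 ≤ (M : ℝ) ^ (6 * (e - 1)) * ℓ ^ B1 := by gcongr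
          _ ≤ x / ℓ ^ K := e2
          _ ≤ n := hcase
      have h1 := hun n (g2.trans hnsq) M M0 hM0 e1 S hS r hr
      rw [← hQ] at h1
      have h2 : ∑ m ∈ S, |Eψ n (m ^ e) (r m)| ≤ n / (Q * Real.log n ^ (U + 2)) := h1
      refine h2.trans ?_
      have h3 : ℓ / 2 ≤ Real.log n := by
        have := Real.log_le_log hsx0 hnsq
        rwa [Real.log_sqrt hx0.le, ← hℓ] at this
      calc (n : ℝ) / (Q * Real.log n ^ (U + 2)) ≤ x / (Q * (ℓ / 2) ^ (U + 2)) := by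
            apply div_le_div₀ hx0.le hnx' (by positivity)
            gcongr
        _ = x / (Q * ℓ ^ (U + 1)) * (2 ^ (U + 2) / ℓ) := by
            rw [div_pow, pow_succ ℓ (U + 1)]; field_simp
        _ ≤ x / (Q * ℓ ^ (U + 1)) * 1 := by
            apply mul_le_mul_of_nonneg_left _ (by positivity)
            rw [div_le_one hℓ0]; linarith
        _ = _ := mul_one _
    · -- small n
      have hterm : ∀ m ∈ S, |Eψ n (m ^ e) (r m)| ≤
          (2 * (n * Real.log n)) / (Nat.totient (m ^ e) : ℝ) + Real.log n := by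
        intro m hm
        have hmS := mem_Ioc.1 (hS hm)
        have hm0 : 0 < m := by omega
        have hme : 1 ≤ m ^ e := pow_pos hm0 e
        have hφ : (0 : ℝ) < Nat.totient (m ^ e) := by exact_mod_cast Nat.totient_pos.2 (pow_pos hm0 e)
        have hφle : (Nat.totient (m ^ e) : ℝ) ≤ ((m ^ e : ℕ) : ℝ) := by
          exact_mod_cast Nat.totient_le _
        unfold Eψ
        have h3 := psiAP_le n (m ^ e) (r m) hme
        have h4 := psi1_le n
        have h5 := psiAP_nonneg n (m ^ e) (r m)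
        have h6 : 0 ≤ psi1 n / (Nat.totient (m ^ e) : ℝ) := div_nonneg (psi1_nonneg n) (Nat.cast_nonneg _)
        have h7 : psi1 n / (Nat.totient (m ^ e) : ℝ) ≤ n * Real.log n / (Nat.totient (m ^ e) : ℝ) :=
          div_le_div_of_nonneg_right h4 (Nat.cast_nonneg _)
        have h8 : ((n : ℝ) / ((m ^ e : ℕ) : ℝ) + 1) * Real.log n ≤
            n * Real.log n / (Nat.totient (m ^ e) : ℝ) + Real.log n := by
          have h9 : (n : ℝ) / ((m ^ e : ℕ) : ℝ) ≤ n / (Nat.totient (m ^ e) : ℝ) :=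
            div_le_div_of_nonneg_left hn0.le hφ hφle
          calc ((n : ℝ) / ((m ^ e : ℕ) : ℝ) + 1) * Real.log n ≤
              (n / (Nat.totient (m ^ e) : ℝ) + 1) * Real.log n := by gcongr
            _ = _ := by ring
        have h10 : (2 * (n * Real.log n)) / (Nat.totient (m ^ e) : ℝ) =
            n * Real.log n / (Nat.totient (m ^ e) : ℝ) + n * Real.log n / (Nat.totient (m ^ e) : ℝ) := by
          ring
        have h11 : 0 ≤ n * Real.log n / (Nat.totient (m ^ e) : ℝ) := by positivity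
        rw [abs_le, h10]
        constructor <;> linarith
      refine (sum_le_sum hterm).trans ?_
      rw [sum_add_distrib, sum_const, nsmul_eq_mul]
      have hnn : (n : ℝ) * Real.log n ≤ x / ℓ ^ K * ℓ := mul_le_mul hcase.le hlnℓ hln0.le (by positivity)
      have h1 := hQ' (2 * (n * Real.log n)) (by positivity)
      have h2 : 2 * (n * Real.log n) * ((1 / Q) * (2 * ℓ) ^ c0) ≤
          2 * (x / ℓ ^ K * ℓ) * ((1 / Q) * (2 * ℓ) ^ c0) := by gcongr
      have h3 : 2 * ((x : ℝ) / ℓ ^ K * ℓ) * ((1 / Q) * (2 * ℓ) ^ c0) = 2 ^ (c0 + 1) * (x / (Q * ℓ ^ (U + 2))) := by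
        rw [hK, mul_pow, show U + 3 + c0 = (U + 2) + 1 + c0 by ring, pow_add ℓ (U + 2 + 1) c0,
          pow_succ ℓ (U + 2), pow_succ 2 c0]
        field_simp
      have h4 : (#S : ℝ) * Real.log n ≤ x / (Q * ℓ ^ (U + 2)) := by
        rw [le_div_iff₀ (by positivity)]
        calc (#S : ℝ) * Real.log n * (Q * ℓ ^ (U + 2)) ≤ M * ℓ * (Q * ℓ ^ (U + 2)) := by gcongr
          _ = M * Q * ℓ ^ (U + 3) := by ring
          _ ≤ M * Q * ℓ ^ B := by
              apply mul_le_mul_of_nonneg_left _ (by positivity)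
              exact pow_le_pow_right₀ hℓ1 (by omega)
          _ ≤ x := hMQ6
      have h5 : (x : ℝ) / (Q * ℓ ^ (U + 2)) * (2 ^ (c0 + 1) + 1) ≤ x / (Q * ℓ ^ (U + 1)) := by
        have e1 : (x : ℝ) / (Q * ℓ ^ (U + 1)) = x / (Q * ℓ ^ (U + 2)) * ℓ := by
          rw [show U + 2 = U + 1 + 1 by ring, pow_succ ℓ (U + 1)]; field_simp
        rw [e1]
        apply mul_le_mul_of_nonneg_left _ (by positivity)
        linarith
      have h6 : (x : ℝ) / (Q * ℓ ^ (U + 2)) * (2 ^ (c0 + 1) + 1) =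
          2 ^ (c0 + 1) * (x / (Q * ℓ ^ (U + 2))) + x / (Q * ℓ ^ (U + 2)) := by ring
      linarith
  -- the sum
  have hl : 0 < Real.log x := by rw [← hℓ]; exact hℓ0
  set MM' : ℝ := x / (Q * ℓ ^ (U + 1)) with hMM'
  have hMM0 : 0 ≤ MM' := by positivity
  have s1 : ∑ m ∈ S, |piAP x (m ^ e) (r m) - pi1 x / (Nat.totient (m ^ e) : ℝ)| ≤
      ∑ m ∈ S, (|Eψ x (m ^ e) (r m)| / Real.log x + ∑ n ∈ Ico 2 x, wA n * |Eψ n (m ^ e) (r m)| +
      (NPa x (m ^ e) (r m) + NP x / (Nat.totient (m ^ e) : ℝ))) :=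
    sum_le_sum fun m _ => pi_err x (m ^ e) (r m) hx2
  have s2 : ∑ m ∈ S, (|Eψ x (m ^ e) (r m)| / Real.log x +
      ∑ n ∈ Ico 2 x, wA n * |Eψ n (m ^ e) (r m)| + (NPa x (m ^ e) (r m) + NP x / (Nat.totient (m ^ e) : ℝ))) =
      (∑ m ∈ S, |Eψ x (m ^ e) (r m)|) / Real.log x +
      ∑ n ∈ Ico 2 x, wA n * ∑ m ∈ S, |Eψ n (m ^ e) (r m)| +
      ∑ m ∈ S, (NPa x (m ^ e) (r m) + NP x / (Nat.totient (m ^ e) : ℝ)) := by
    simp only [sum_add_distrib, sum_div, mul_sum]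
    congr 2
    rw [sum_comm]
  have s6 : (∑ m ∈ S, |Eψ x (m ^ e) (r m)|) / Real.log x ≤ MM' / Real.log x :=
    div_le_div_of_nonneg_right (hM x hx2 le_rfl) hl.le
  have s7 : ∑ n ∈ Ico 2 x, wA n * ∑ m ∈ S, |Eψ n (m ^ e) (r m)| ≤ ∑ n ∈ Ico 2 x, wA n * MM' := by
    apply sum_le_sum
    intro n hn
    rw [mem_Ico] at hn
    exact mul_le_mul_of_nonneg_left (hM n hn.1 hn.2.le) (wA_nonneg hn.1)
  rw [← sum_mul, sum_wA x hx2] at s7
  have s8 : ∑ m ∈ S, (NPa x (m ^ e) (r m) + NP x / (Nat.totient (m ^ e) : ℝ)) ≤ M * (2 * NP x) := by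
    calc ∑ m ∈ S, (NPa x (m ^ e) (r m) + NP x / (Nat.totient (m ^ e) : ℝ)) ≤ ∑ m ∈ S, 2 * NP x := by
          apply sum_le_sum
          intro m hm
          have hmS := mem_Ioc.1 (hS hm)
          have hm0 : 0 < m := by omega
          have hφ : (1 : ℝ) ≤ Nat.totient (m ^ e) := by
            exact_mod_cast Nat.totient_pos.2 (pow_pos hm0 e)
          have h1 : NPa x (m ^ e) (r m) ≤ NP x := by
            unfold NPa NP
            apply sum_le_sum_of_subset_of_nonneg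
            · intro n hn
              rw [mem_filter] at hn ⊢
              exact ⟨hn.1, hn.2.1⟩
            · intro n _ _
              exact div_nonneg ArithmeticFunction.vonMangoldt_nonneg (Real.log_natCast_nonneg n)
          have h2 : NP x / (Nat.totient (m ^ e) : ℝ) ≤ NP x := div_le_self (NP_nonneg x) hφ
          linarith
      _ = (#S : ℝ) * (2 * NP x) := by rw [sum_const, nsmul_eq_mul]
      _ ≤ M * (2 * NP x) := by
          apply mul_le_mul_of_nonneg_right hcard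
          have := NP_nonneg x
          linarith
  have s9 : (M : ℝ) * (2 * NP x) ≤ M * (2 * (3 * (√(x : ℝ) * Real.log x))) :=
    mul_le_mul_of_nonneg_left (by linarith [NP_le x (by omega)]) (by linarith)
  have s10 : MM' / Real.log x + (1 / Real.log 2 - 1 / Real.log x) * MM' ≤ 2 * MM' := by
    have h11 : 1 / Real.log 2 ≤ 2 := by
      rw [div_le_iff₀ (Real.log_pos (by norm_num))]
      linarith [Real.log_two_gt_d9]
    have h12 : MM' / Real.log x + (1 / Real.log 2 - 1 / Real.log x) * MM' = 1 / Real.log 2 * MM' := by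
      ring
    rw [h12]
    exact mul_le_mul_of_nonneg_right h11 hMM0
  have s11 : (M : ℝ) * (2 * (3 * (√(x : ℝ) * Real.log x))) ≤ 6 * (x / (Q * ℓ ^ (U + 2))) := by
    rw [← hℓ]
    have h1 : (M : ℝ) ^ (3 * (e - 1)) * ℓ ^ (B1 + K + U + 10) ≤ √(x : ℝ) := by
      apply Real.le_sqrt_of_sq_le
      calc ((M : ℝ) ^ (3 * (e - 1)) * ℓ ^ (B1 + K + U + 10)) ^ 2
          = (M : ℝ) ^ (6 * (e - 1)) * ℓ ^ B := by
            rw [mul_pow, ← pow_mul, ← pow_mul, hB]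
            congr 2 <;> ring
        _ ≤ x := hsize
    have h2 : (M : ℝ) * Q * ℓ ^ (U + 3) ≤ √(x : ℝ) := by
      refine le_trans ?_ h1
      apply mul_le_mul
      · exact hMQ.trans (pow_le_pow_right₀ hMr (by omega))
      · exact pow_le_pow_right₀ hℓ1 (by omega)
      · positivity
      · positivity
    have h3 : (M : ℝ) * (2 * (3 * (√(x : ℝ) * ℓ))) = 6 * (M * √(x : ℝ) * ℓ) := by ring
    rw [h3]
    apply mul_le_mul_of_nonneg_left _ (by norm_num)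
    rw [le_div_iff₀ (by positivity)]
    calc (M : ℝ) * √(x : ℝ) * ℓ * (Q * ℓ ^ (U + 2)) = (M * Q * ℓ ^ (U + 3)) * √(x : ℝ) := by ring
      _ ≤ √(x : ℝ) * √(x : ℝ) := by gcongr
      _ = x := hsx
  obtain ⟨Z, hZ⟩ : ∃ Z : ℝ, Z = (x : ℝ) / (Q * ℓ ^ (U + 2)) := ⟨_, rfl⟩
  have hZ0 : 0 ≤ Z := by rw [hZ]; positivity
  have h4 : MM' = Z * ℓ := by
    rw [hMM', hZ, show U + 2 = U + 1 + 1 by ring, pow_succ ℓ (U + 1)]; field_simp
  have h5 : (x : ℝ) / (Q * ℓ ^ U) = Z * ℓ * ℓ := by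
    rw [hZ, show U + 2 = U + 1 + 1 by ring, pow_succ ℓ (U + 1), pow_succ ℓ U]; field_simp
  rw [← hZ] at s11
  have h6 : 24 * Z ≤ Z * ℓ := by
    have := mul_le_mul_of_nonneg_left hℓ24 hZ0
    linarith
  have h7 : 24 * (Z * ℓ) ≤ Z * ℓ * ℓ := by
    have := mul_le_mul_of_nonneg_left hℓ24 (by positivity : 0 ≤ Z * ℓ)
    linarith
  rw [h5]
  rw [s2] at s1
  linarith

end Q239.LC
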