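import Mathlib
import Pool.Agent.Q239.LC.Prm
import Pool.Agent.Q239.LC.PairE
import Pool.Agent.W218.LF.Block2

set_option autoImplicit false

/-! First moment over the coefficient of `X ^ e` of one polynomial: one block of `t`. -/

namespace Q239.LC

open Finset Pool.Agent.Erdos456 Pool.Agent.Erdos456.Mert Pool.Agent.W218.HF Pool.Agent.W218.LF H343E

/-- the exponent of the range of the argument -/
def pw (e : ℕ) : ℕ := max 1 (5 * e - 6)

lemma pw_pos (e : ℕ) : 1 ≤ pw e := le_max_left _ _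

/-- Bombieri-Vinogradov for the moduli `m ^ e` -/
theorem bvE (e U : ℕ) (he : 1 ≤ e) : ∃ K X0 : ℕ, ∀ X : ℕ, X0 ≤ X → ∀ M M0 : ℕ, 1 ≤ M0 →
    (M : ℝ) ^ (e + pw e) * Real.log X ^ K ≤ X → ∀ S : Finset ℕ, S ⊆ Ioc M0 M → ∀ r : ℕ → ℕ,
    (∀ m ∈ S, r m < m ^ e ∧ Nat.Coprime (r m) (m ^ e)) →
    ∑ m ∈ S, |piAP X (m ^ e) (r m) - pi1 X / (Nat.totient (m ^ e) : ℝ)| ≤
      X / ((M0 : ℝ) ^ (e - 1) * Real.log X ^ U) := by
  classical
  rcases Nat.eq_or_lt_of_le he with h1 | h1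
  · subst h1
    obtain ⟨K, X0, h⟩ := primes_of U (unsmoothed (U + 2))
    refine ⟨K, max X0 3, ?_⟩
    intro X hX M M0 hM0 hM S hS r hr
    have hX3 : 3 ≤ X := (le_max_right _ _).trans hX
    have hXr : (3 : ℝ) ≤ X := by exact_mod_cast hX3
    have hl : 0 < Real.log X := Real.log_pos (by linarith)
    have e2 : 1 + pw 1 = 2 := by norm_num [pw]
    rw [e2] at hM
    have hM2 : (M : ℝ) ^ 2 ≤ X / Real.log X ^ K := by
      rw [le_div_iff₀ (by positivity)]; exact hM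
    have hM1 : (M : ℝ) ≤ X / Real.log X ^ K := by
      refine le_trans ?_ hM2
      have : M ≤ M ^ 2 := Nat.le_self_pow (by norm_num) M
      exact_mod_cast this
    set L : ℕ → Finset ℕ := fun q => if q ∈ S then {r q} else ∅ with hL
    have hfam : Fam 1 L := by
      constructor
      · intro q a ha
        by_cases hq : q ∈ S
        · rw [hL] at ha
          simp only [if_pos hq, mem_singleton] at ha
          subst ha
          have := hr q hq
          rw [pow_one] at this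
          exact this
        · rw [hL] at ha
          simp only [if_neg hq] at ha
          exact absurd ha (notMem_empty _)
      · intro q
        by_cases hq : q ∈ S
        · rw [hL]; simp only [if_pos hq, card_singleton]; norm_num
        · rw [hL]; simp only [if_neg hq, card_empty]; norm_num
    have h1 := h X ((le_max_left _ _).trans hX) 1 le_rfl M hM1 (by rw [one_mul]; exact hM2) L hfam
    rw [one_mul] at h1
    have hSI : S ⊆ Icc 1 M := fun m hm => by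
      have := mem_Ioc.1 (hS hm)
      exact mem_Icc.2 ⟨by omega, this.2⟩
    have h2 : ∑ m ∈ S, |piAP X (m ^ 1) (r m) - pi1 X / (Nat.totient (m ^ 1) : ℝ)| =
        ∑ m ∈ S, ∑ a ∈ L m, |piAP X m a - pi1 X / (Nat.totient m : ℝ)| := by
      apply sum_congr rfl
      intro m hm
      rw [hL]
      simp only [if_pos hm, sum_singleton, pow_one]
    rw [h2]
    have e3 : (M0 : ℝ) ^ (1 - 1) * Real.log X ^ U = Real.log X ^ U := by
      norm_num
    rw [e3]
    refine le_trans ?_ h1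
    exact sum_le_sum_of_subset_of_nonneg hSI fun t _ _ => sum_nonneg fun a _ => abs_nonneg _
  · obtain ⟨K, X0, h⟩ := prm e U (by omega)
    refine ⟨K, X0, ?_⟩
    intro X hX M M0 hM0 hM S hS r hr
    have e2 : e + pw e = 6 * (e - 1) := by
      unfold pw
      rw [max_eq_right (by omega)]
      omega
    rw [e2] at hM
    exact h X hX M M0 hM0 hM S hS r fun m hm => (hr m hm).2

/-- **One block of the first moment.** -/
theorem blockE (e U : ℕ) (he : 1 ≤ e) : ∃ K : ℕ, ∀ (D : ℕ) (η : ℝ), 0 < η →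
    (2 * D + 2 * e + 4) * η ≤ 1 / 8 →
    ∃ B0 : ℕ, ∀ B : ℕ, B0 ≤ B → ∀ (x : ℕ) (y V : ℝ) (G : ℕ → ℤ) (T : Finset ℕ),
    3 / η ≤ y → y ≤ x → y ^ pw e * Real.log B ^ K ≤ B → |V| ≤ B * y ^ e →
    (∀ t ∈ T, (1 - η) * y < t ∧ (t : ℝ) ≤ y ∧ Nat.Coprime t (G t).natAbs ∧
      |((G t : ℤ) : ℝ) - V| ≤ D * η * (B * y ^ e)) →
    ∑ t ∈ T, max 0 ((1 - (2 * D + 2 * e + 4) * η) * (B / Real.log (3 * B * x ^ e)) * GG t -
        ∑ b ∈ Ioc (lo η B) (2 * B), pr (G t + b * ((t ^ e : ℕ) : ℤ))) ≤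
      6 * 2 ^ e * (B * y / Real.log B ^ U) := by
  classical
  obtain ⟨K, X0, hBV⟩ := bvE e U he
  refine ⟨K + 1, ?_⟩
  intro D η hη hη2
  obtain ⟨x₀, hpnt⟩ := Pool.Agent.H373R2.SH.pnt_windowB 4 (by norm_num) η hη
  refine ⟨max (max X0 x₀) (max 3 ⌈Real.exp (2 * (e + 2 : ℕ) ^ K / η + 3 / η)⌉₊), ?_⟩
  intro B hB x y V G T hy hyx hyB hV hT
  have hBX : X0 ≤ B := (le_max_left _ _).trans ((le_max_left _ _).trans hB)
  have hBx₀ : x₀ ≤ B := (le_max_right _ _).trans ((le_max_left _ _).trans hB)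
  have hB3 : 3 ≤ B := (le_max_left _ _).trans ((le_max_right _ _).trans hB)
  have hBe : ⌈Real.exp (2 * (e + 2 : ℕ) ^ K / η + 3 / η)⌉₊ ≤ B :=
    (le_max_right _ _).trans ((le_max_right _ _).trans hB)
  have hBe' : Real.exp (2 * (e + 2 : ℕ) ^ K / η + 3 / η) ≤ B :=
    (Nat.le_ceil _).trans (by exact_mod_cast hBe)
  have hBr : (3 : ℝ) ≤ B := by exact_mod_cast hB3
  have hB0 : (0 : ℝ) < B := by linarith
  have hl : 2 * (e + 2 : ℕ) ^ K / η + 3 / η ≤ Real.log B := by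
    rw [Real.le_log_iff_exp_le (by linarith)]; exact hBe'
  have p1 : 0 ≤ 2 * ((e + 2 : ℕ) : ℝ) ^ K / η := by positivity
  have p2 : 0 ≤ 3 / η := by positivity
  have hl3' : 2 * ((e + 2 : ℕ) : ℝ) ^ K ≤ η * Real.log B := by
    have : 2 * ((e + 2 : ℕ) : ℝ) ^ K / η ≤ Real.log B := by linarith
    rw [div_le_iff₀ hη] at this; linarith
  have hl1 : 1 ≤ Real.log B := by
    rw [Real.le_log_iff_exp_le (by linarith)]
    have := Real.exp_one_lt_d9
    linarith
  have hηB : 3 ≤ η * B := by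
    have h1 : 3 / η ≤ Real.log B := by linarith
    have h2 : Real.log B ≤ B := (Real.log_le_sub_one_of_pos hB0).trans (by linarith)
    have h3 : 3 / η ≤ B := h1.trans h2
    rw [div_le_iff₀ hη] at h3; linarith
  have hD0 : (0 : ℝ) ≤ D := Nat.cast_nonneg D
  have he0 : (1 : ℝ) ≤ e := by exact_mod_cast he
  have hDη0 : 0 ≤ (D : ℝ) * η := by positivity
  have heη0 : 0 ≤ (e : ℝ) * η := by positivity
  have hη48 : η ≤ 1 / 48 := by nlinarith
  have heη : (e : ℝ) * η ≤ 1 / 16 := by nlinarith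
  have hy60 : 60 ≤ y := by
    have : (60 : ℝ) ≤ 3 / η := by
      rw [le_div_iff₀ hη]; linarith
    linarith
  have hy0 : 0 < y := by linarith
  have hy1 : 1 ≤ y := by linarith
  have hηy : 3 ≤ η * y := by
    rw [div_le_iff₀ hη] at hy; linarith
  have hypw : y ≤ y ^ pw e := le_self_pow₀ hy1 (by have := pw_pos e; omega)
  have hyB1 : y ≤ B := by
    have : y ^ pw e * 1 ≤ y ^ pw e * Real.log B ^ (K + 1) :=
      mul_le_mul_of_nonneg_left (one_le_pow₀ hl1) (by positivity)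
    linarith
  set Y : ℝ := y ^ e with hY
  have hY0 : 0 < Y := by positivity
  have hyY : y ≤ Y := le_self_pow₀ hy1 (by omega)
  have hY1 : 1 ≤ Y := by linarith
  have hBY0 : 0 < (B : ℝ) * Y := by positivity
  have hBleBY : (B : ℝ) * y ≤ B * Y := mul_le_mul_of_nonneg_left hyY hB0.le
  set ρ : ℝ := 1 - η with hρ
  have hρ0 : 0 < ρ := by rw [hρ]; linarith
  obtain ⟨hV1, hV2⟩ := abs_le.1 hV
  set b1 : ℕ := lo η B with hb1
  have hb1le : (b1 : ℝ) ≤ (1 + η) * B := Nat.floor_le (by positivity)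
  have hb1lt : (1 + η) * B < b1 + 1 := Nat.lt_floor_add_one _
  have hb1y : (b1 : ℝ) * Y ≤ B * Y + η * (B * Y) := by
    have := mul_le_mul_of_nonneg_right hb1le hY0.le
    linarith
  have hb1y' : B * Y + η * (B * Y) - Y ≤ (b1 : ℝ) * Y := by
    have := mul_le_mul_of_nonneg_right hb1lt.le hY0.le
    linarith
  have hηBY : 3 * (B : ℝ) ≤ η * (B * Y) := by
    have h1 := mul_le_mul_of_nonneg_left hηy hB0.le
    have h2 := mul_le_mul_of_nonneg_left hBleBY hη.le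
    linarith
  have hηBY3 : 3 * Y ≤ η * (B * Y) := by
    have h1 := mul_le_mul_of_nonneg_right hηB hY0.le
    linarith
  set X₁ : ℕ := ⌈V + b1 * Y + D * η * (B * Y)⌉₊ with hX₁
  set X₂ : ℕ := ⌊V + 2 * (B * Y) - (D + 2 * e) * η * (B * Y)⌋₊ with hX₂
  have hDBy : 0 ≤ D * η * (B * Y) := by positivity
  have heBy : 0 ≤ e * η * (B * Y) := by positivity
  have hDBy8 : (2 * D + 2 * e + 4) * η * (B * Y) ≤ (1 / 8) * (B * Y) :=
    mul_le_mul_of_nonneg_right hη2 hBY0.le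
  have eD : (2 * D + 2 * e + 4) * η * (B * Y) =
    2 * (D * η * (B * Y)) + 2 * (e * η * (B * Y)) + 4 * (η * (B * Y)) := by ring
  have eD2 : (D + 2 * e) * η * (B * Y) = D * η * (B * Y) + 2 * (e * η * (B * Y)) := by ring
  rw [eD] at hDBy8
  have F2 : V + b1 * Y + D * η * (B * Y) ≤ X₁ := Nat.le_ceil _
  have hin1 : 0 ≤ V + b1 * Y + D * η * (B * Y) := by linarith
  have F1 : (X₁ : ℝ) < V + b1 * Y + D * η * (B * Y) + 1 := Nat.ceil_lt_add_one hin1
  have hηBY0 : 0 ≤ η * (B * Y) := by positivity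
  have hinner : 0 ≤ V + 2 * (B * Y) - (D + 2 * e) * η * (B * Y) := by
    rw [eD2]; linarith
  have F3 : (X₂ : ℝ) ≤ V + 2 * (B * Y) - (D + 2 * e) * η * (B * Y) := Nat.floor_le hinner
  have F4 : V + 2 * (B * Y) - (D + 2 * e) * η * (B * Y) - 1 < X₂ := by
    have := Nat.lt_floor_add_one (V + 2 * (B * Y) - (D + 2 * e) * η * (B * Y))
    rw [← hX₂] at this
    linarith
  have hdiff : (1 - (2 * D + 2 * e + 3) * η) * (B * Y) ≤ (X₂ : ℝ) - X₁ := by
    have h3 : (1 - (2 * D + 2 * e + 3) * η) * (B * Y) =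
      B * Y - 2 * (D * η * (B * Y)) - 2 * (e * η * (B * Y)) - 3 * (η * (B * Y)) := by
      ring
    rw [h3]
    rw [eD2] at F4
    linarith
  have hlow : (7 / 8 : ℝ) * (B * Y) ≤ (1 - (2 * D + 2 * e + 3) * η) * (B * Y) := by
    apply mul_le_mul_of_nonneg_right _ hBY0.le
    linarith
  have hX12r : (X₁ : ℝ) ≤ X₂ := by linarith
  have hX12 : X₁ ≤ X₂ := by exact_mod_cast hX12r
  have hX2up : (X₂ : ℝ) ≤ 3 * (B * Y) := by
    rw [eD2] at F3; linarith
  have hX1up : (X₁ : ℝ) ≤ 3 * (B * Y) := hX12r.trans hX2up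
  have hηBy1 : η / 2 * (B * Y) ≤ X₁ := by linarith
  have hηBy2' : η / 2 * (B * Y) ≤ X₂ := by linarith
  have hX1low : (B : ℝ) ≤ X₁ := by linarith
  have hX2low : (B : ℝ) ≤ X₂ := by linarith
  set W : ℕ := X₂ - X₁ with hW
  have hWr : (W : ℝ) = (X₂ : ℝ) - X₁ := by rw [hW, Nat.cast_sub hX12]
  -- logs
  have hlogX : ∀ X : ℕ, (B : ℝ) ≤ X → (X : ℝ) ≤ 3 * (B * Y) →
      Real.log B ≤ Real.log X ∧ Real.log X ≤ (e + 2 : ℕ) * Real.log B := by
    intro X h1 h2
    refine ⟨Real.log_le_log hB0 h1, ?_⟩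
    have h3 : (X : ℝ) ≤ (B : ℝ) ^ (e + 2) := by
      have h4 : Y ≤ (B : ℝ) ^ e := pow_le_pow_left₀ hy0.le hyB1 e
      calc (X : ℝ) ≤ 3 * (B * Y) := h2
        _ ≤ B * (B * B ^ e) := by gcongr
        _ = _ := by ring
    have h4 := Real.log_le_log (by linarith) h3
    rw [Real.log_pow] at h4
    exact h4
  -- level of distribution
  set M : ℕ := ⌊y⌋₊ with hM
  have hMy : (M : ℝ) ≤ y := Nat.floor_le hy0.le
  have hlev : ∀ X : ℕ, (B : ℝ) ≤ X → (X : ℝ) ≤ 3 * (B * Y) → η / 2 * (B * Y) ≤ X →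
      (M : ℝ) ^ (e + pw e) * Real.log X ^ K ≤ X := by
    intro X h1 h2 h3
    obtain ⟨h4, h5⟩ := hlogX X h1 h2
    have h6 : 0 < Real.log X := by linarith
    calc (M : ℝ) ^ (e + pw e) * Real.log X ^ K ≤ y ^ (e + pw e) * ((e + 2 : ℕ) * Real.log B) ^ K := by
          gcongr
      _ = (((e + 2 : ℕ) : ℝ) ^ K) * (y ^ pw e * Real.log B ^ K) * Y := by rw [mul_pow, pow_add]; ring
      _ ≤ (η / 2 * Real.log B) * (y ^ pw e * Real.log B ^ K) * Y := by
          gcongr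
          linarith
      _ = η / 2 * (y ^ pw e * Real.log B ^ (K + 1)) * Y := by ring
      _ ≤ η / 2 * B * Y := by gcongr
      _ = η / 2 * (B * Y) := by ring
      _ ≤ X := h3
  -- the lower end of the moduli
  set M0 : ℕ := ⌊(1 - η) * y⌋₊ with hM0
  have hρy : (47 / 48 : ℝ) * y ≤ (1 - η) * y := by
    apply mul_le_mul_of_nonneg_right _ hy0.le; linarith
  have hM0y : y / 2 ≤ M0 := by
    have := Nat.lt_floor_add_one ((1 - η) * y)
    rw [← hM0] at this
    linarith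
  have hM01 : 1 ≤ M0 := by
    have : (1 : ℝ) ≤ M0 := by linarith
    exact_mod_cast this
  have hTS : T ⊆ Ioc M0 M := by
    intro t ht
    obtain ⟨h1, h2, h3⟩ := hT t ht
    rw [mem_Ioc]
    refine ⟨?_, Nat.le_floor h2⟩
    exact (Nat.floor_lt (by positivity)).2 h1
  set r : ℕ → ℕ := fun t => (G t % ((t ^ e : ℕ) : ℤ)).toNat with hr
  have hrT : ∀ t ∈ T, r t < t ^ e ∧ Nat.Coprime (r t) (t ^ e) := by
    intro t ht
    obtain ⟨h1, h2, h3, h4⟩ := hT t ht
    have ht0r : (0 : ℝ) < t := lt_trans (by positivity) h1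
    have ht0 : 0 < t := by exact_mod_cast ht0r
    have hte : 0 < t ^ e := pow_pos ht0 e
    have htei : (0 : ℤ) < ((t ^ e : ℕ) : ℤ) := by exact_mod_cast hte
    have i0 := Int.emod_nonneg (G t) htei.ne'
    have i1 := Int.emod_lt_of_pos (G t) htei
    have i4 : (((G t % ((t ^ e : ℕ) : ℤ)).toNat : ℕ) : ℤ) = G t % ((t ^ e : ℕ) : ℤ) :=
      Int.toNat_of_nonneg i0
    refine ⟨?_, ?_⟩
    · have : (((G t % ((t ^ e : ℕ) : ℤ)).toNat : ℕ) : ℤ) < ((t ^ e : ℕ) : ℤ) := by rw [i4]; exact i1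
      exact_mod_cast this
    · apply Nat.Coprime.pow_right
      have h6 : IsCoprime (G t) (t : ℤ) := by
        rw [Int.isCoprime_iff_gcd_eq_one]
        exact h3.symm
      have h7 : IsCoprime (G t % ((t ^ e : ℕ) : ℤ)) (t : ℤ) := by
        rw [Int.emod_def]
        obtain ⟨n, hn⟩ : ∃ n, e = n + 1 := ⟨e - 1, by omega⟩
        have e5 : G t - ((t ^ e : ℕ) : ℤ) * (G t / ((t ^ e : ℕ) : ℤ)) =
            G t + (-((t : ℤ) ^ n * (G t / ((t ^ e : ℕ) : ℤ)))) * t := by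
          push_cast
          rw [hn, pow_succ]
          ring
        rw [e5]
        exact h6.add_mul_right_left _
      rw [Int.isCoprime_iff_gcd_eq_one, ← i4] at h7
      exact h7
  have hX0X1 : X0 ≤ X₁ := by
    have : (X0 : ℝ) ≤ X₁ := le_trans (by exact_mod_cast hBX) hX1low
    exact_mod_cast this
  have hX0X2 : X0 ≤ X₂ := hX0X1.trans hX12
  have E1 := hBV X₁ hX0X1 M M0 hM01 (hlev X₁ hX1low hX1up hηBy1) T hTS r hrT
  have E2 := hBV X₂ hX0X2 M M0 hM01 (hlev X₂ hX2low hX2up hηBy2') T hTS r hrT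
  have hErr : ∀ X : ℕ, (B : ℝ) ≤ X → (X : ℝ) ≤ 3 * (B * Y) →
      (X : ℝ) / ((M0 : ℝ) ^ (e - 1) * Real.log X ^ U) ≤ 3 * 2 ^ e * (B * y / Real.log B ^ U) := by
    intro X h1 h2
    obtain ⟨h4, h5⟩ := hlogX X h1 h2
    have h6 : 0 < Real.log B := by linarith
    obtain ⟨n, hn⟩ : ∃ n, e = n + 1 := ⟨e - 1, by omega⟩
    have h7 : (y / 2) ^ n ≤ (M0 : ℝ) ^ (e - 1) := by
      rw [hn, Nat.add_sub_cancel]
      exact pow_le_pow_left₀ (by positivity) hM0y n
    have h8 : 0 < (y / 2) ^ n := by positivity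
    calc (X : ℝ) / ((M0 : ℝ) ^ (e - 1) * Real.log X ^ U) ≤
        (3 * (B * Y)) / ((y / 2) ^ n * Real.log B ^ U) := by gcongr
      _ = 3 * 2 ^ n * (B * y / Real.log B ^ U) := by
        rw [hY, hn, pow_succ, div_pow]
        field_simp
      _ ≤ 3 * 2 ^ e * (B * y / Real.log B ^ U) := by
        have : (2 : ℝ) ^ n ≤ 2 ^ e := pow_le_pow_right₀ (by norm_num) (by omega)
        gcongr
  have E1' := E1.trans (hErr X₁ hX1low hX1up)
  have E2' := E2.trans (hErr X₂ hX2low hX2up)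
  -- the window
  have hWlow : (B : ℝ) ≤ W := by rw [hWr]; linarith
  have hWx₀ : x₀ ≤ W := by
    have : (x₀ : ℝ) ≤ W := le_trans (by exact_mod_cast hBx₀) hWlow
    exact_mod_cast this
  have hX1W : X₁ ≤ 4 * W := by
    have : (X₁ : ℝ) ≤ 4 * W := by rw [hWr]; linarith
    exact_mod_cast this
  have hP := hpnt W hWx₀ X₁ hX1W
  have hWX : W + X₁ = X₂ := by omega
  rw [hWX, ← pi1_eq, ← pi1_eq] at hP
  set Λ : ℝ := (1 - η) * ((1 - (2 * D + 2 * e + 3) * η) * (B * Y) / Real.log (3 * B * x ^ e)) with hΛ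
  have hWup : (W : ℝ) ≤ 3 * B * x ^ e := by
    have h0 : Y ≤ (x : ℝ) ^ e := pow_le_pow_left₀ hy0.le hyx e
    have h1 : (B : ℝ) * Y ≤ B * x ^ e := mul_le_mul_of_nonneg_left h0 hB0.le
    have h2 : (W : ℝ) ≤ X₂ := by
      have : W ≤ X₂ := by omega
      exact_mod_cast this
    linarith
  have hW3 : (3 : ℝ) ≤ W := by linarith
  have hlW : 0 < Real.log W := Real.log_pos (by linarith)
  have hlWup : Real.log W ≤ Real.log (3 * B * x ^ e) := Real.log_le_log (by linarith) hWup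
  have hMle : Λ ≤ pi1 X₂ - pi1 X₁ := by
    refine le_trans ?_ hP
    rw [hΛ]
    apply mul_le_mul_of_nonneg_left _ (by linarith)
    apply div_le_div₀ (by linarith) _ hlW hlWup
    rw [hWr]; exact hdiff
  have hlog3 : 0 < Real.log (3 * B * x ^ e) := by linarith
  have hΛ0 : 0 ≤ Λ := by
    rw [hΛ]
    have h2 : 0 ≤ (1 - (2 * D + 2 * e + 3) * η) * (B * Y) := by linarith
    have h3 : 0 ≤ 1 - η := by linarith
    positivity
  -- termwise
  have hterm : ∀ t ∈ T, max 0 ((1 - (2 * D + 2 * e + 4) * η) * (B / Real.log (3 * B * x ^ e)) * GG t -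
        ∑ b ∈ Ioc b1 (2 * B), pr (G t + b * ((t ^ e : ℕ) : ℤ))) ≤
      |piAP X₁ (t ^ e) (r t) - pi1 X₁ / (Nat.totient (t ^ e) : ℝ)| +
      |piAP X₂ (t ^ e) (r t) - pi1 X₂ / (Nat.totient (t ^ e) : ℝ)| := by
    intro t ht
    obtain ⟨h1, h2, h3, hclose⟩ := hT t ht
    obtain ⟨hcl1, hcl2⟩ := abs_le.1 hclose
    have ht0r : (0 : ℝ) < t := lt_trans (by positivity) h1
    have ht0 : 0 < t := by exact_mod_cast ht0r
    have hte : 0 < t ^ e := pow_pos ht0 e
    have hter : (0 : ℝ) < ((t ^ e : ℕ) : ℝ) := by exact_mod_cast hte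
    have hφ : (0 : ℝ) < Nat.totient (t ^ e) := by exact_mod_cast Nat.totient_pos.2 hte
    have hteY : ((t ^ e : ℕ) : ℝ) ≤ Y := by
      push_cast
      exact pow_le_pow_left₀ ht0r.le h2 e
    have hteY' : (1 - e * η) * Y ≤ ((t ^ e : ℕ) : ℝ) := by
      push_cast
      have j1 : ((1 - η) * y) ^ e ≤ (t : ℝ) ^ e := pow_le_pow_left₀ (by positivity) h1.le e
      rw [mul_pow] at j1
      have j2 := one_add_mul_le_pow (show (-2 : ℝ) ≤ -η by linarith) e
      have j3 : 1 + (e : ℝ) * -η = 1 - e * η := by ring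
      have j4 : 1 + -η = 1 - η := by ring
      rw [j3, j4] at j2
      exact (mul_le_mul_of_nonneg_right j2 hY0.le).trans j1
    have g1 : G t + (b1 : ℤ) * ((t ^ e : ℕ) : ℤ) ≤ X₁ := by
      have : ((G t : ℤ) : ℝ) + (b1 : ℝ) * ((t ^ e : ℕ) : ℝ) ≤ X₁ := by
        refine le_trans ?_ F2
        have i1 : (b1 : ℝ) * ((t ^ e : ℕ) : ℝ) ≤ b1 * Y := by gcongr
        linarith
      exact_mod_cast this
    have g2 : (X₂ : ℤ) ≤ G t + ((2 * B : ℕ) : ℤ) * ((t ^ e : ℕ) : ℤ) := by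
      have : (X₂ : ℝ) ≤ ((G t : ℤ) : ℝ) + ((2 * B : ℕ) : ℝ) * ((t ^ e : ℕ) : ℝ) := by
        refine F3.trans ?_
        have i1 : (B : ℝ) * ((1 - e * η) * Y) ≤ B * ((t ^ e : ℕ) : ℝ) := by gcongr
        have i2 : (B : ℝ) * ((1 - e * η) * Y) = B * Y - e * η * (B * Y) := by ring
        have i3 : ((2 * B : ℕ) : ℝ) = 2 * B := by push_cast; ring
        rw [eD2, i3]
        linarith
      exact_mod_cast this
    have h4 := to_b2 (t := t ^ e) (b1 := b1) (M := 2 * B) (X₁ := X₁) (X₂ := X₂) (G := G t) (c := G t)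
      hte (by rw [sub_self]; exact dvd_zero _) g1 g2
    have h5 : piAP X₂ (t ^ e) (r t) - piAP X₁ (t ^ e) (r t) ≤
        ∑ b ∈ Ioc b1 (2 * B), pr (G t + b * ((t ^ e : ℕ) : ℤ)) := by
      rw [piAP_diff X₁ X₂ (t ^ e) _ hX12]
      exact h4
    have h6 := neg_abs_le (piAP X₂ (t ^ e) (r t) - pi1 X₂ / (Nat.totient (t ^ e) : ℝ))
    have h7 := le_abs_self (piAP X₁ (t ^ e) (r t) - pi1 X₁ / (Nat.totient (t ^ e) : ℝ))
    have h8 : (1 - (2 * D + 2 * e + 4) * η) * (B / Real.log (3 * B * x ^ e)) * GG t ≤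
        pi1 X₂ / (Nat.totient (t ^ e) : ℝ) - pi1 X₁ / (Nat.totient (t ^ e) : ℝ) := by
      rw [← sub_div]
      have h11 : (1 - (2 * D + 2 * e + 4) * η) * (B / Real.log (3 * B * x ^ e)) ≤ Λ / Y := by
        rw [le_div_iff₀ hY0, hΛ]
        have h12 : 0 ≤ (B : ℝ) * Y / Real.log (3 * B * x ^ e) := by positivity
        have e1 : (1 - (2 * D + 2 * e + 4) * η) * (B / Real.log (3 * B * x ^ e)) * Y =
            (1 - (2 * D + 2 * e + 4) * η) * (B * Y / Real.log (3 * B * x ^ e)) := by ring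
        have e2 : (1 - η) * ((1 - (2 * D + 2 * e + 3) * η) * (B * Y) / Real.log (3 * B * x ^ e)) =
            ((1 - η) * (1 - (2 * D + 2 * e + 3) * η)) * (B * Y / Real.log (3 * B * x ^ e)) := by ring
        rw [e1, e2]
        apply mul_le_mul_of_nonneg_right _ h12
        have : 0 ≤ (2 * (D : ℝ) + 2 * e + 3) * η * η := by positivity
        nlinarith
      have h13 : Λ * GG t / Y ≤ Λ / (Nat.totient (t ^ e) : ℝ) := by
        rw [← GG_pow he]
        unfold GG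
        rw [div_le_div_iff₀ hY0 hφ]
        have e9 : Λ * (((t ^ e : ℕ) : ℝ) / (Nat.totient (t ^ e) : ℝ)) * (Nat.totient (t ^ e) : ℝ) =
            Λ * ((t ^ e : ℕ) : ℝ) := by
          field_simp
        rw [e9]
        exact mul_le_mul_of_nonneg_left hteY hΛ0
      have h14 := mul_le_mul_of_nonneg_right h11 (GG_nonneg t)
      have e3 : Λ / Y * GG t = Λ * GG t / Y := by ring
      rw [e3] at h14
      exact h14.trans (h13.trans (div_le_div_of_nonneg_right hMle hφ.le))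
    apply max_le
    · positivity
    · linarith
  calc _ ≤ ∑ t ∈ T, (|piAP X₁ (t ^ e) (r t) - pi1 X₁ / (Nat.totient (t ^ e) : ℝ)| +
      |piAP X₂ (t ^ e) (r t) - pi1 X₂ / (Nat.totient (t ^ e) : ℝ)|) := sum_le_sum hterm
    _ ≤ 6 * 2 ^ e * (B * y / Real.log B ^ U) := by
      rw [sum_add_distrib]; linarith

end Q239.LC
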