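import Mathlib
import Pool.Agent.Q239.LC.BlockE
import Pool.Agent.W218.LF.FirstTotal2

set_option autoImplicit false

/-! First moment over one coefficient of each of `k` polynomials: all `t`. -/

namespace Q239.LC

open Finset Pool.Agent.Erdos456 Pool.Agent.Erdos456.Mert Pool.Agent.W218.HF Pool.Agent.W218.LF

/-- the blocks, uniformly in the exponent -/
theorem blockU (E U : ℕ) : ∃ K : ℕ, ∀ (D : ℕ) (η : ℝ), 0 < η →
    (2 * D + 2 * E + 4) * η ≤ 1 / 8 →
    ∃ B0 : ℕ, ∀ e : ℕ, 1 ≤ e → e ≤ E → ∀ B : ℕ, B0 ≤ B → ∀ (x : ℕ) (y V : ℝ) (G : ℕ → ℤ)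
    (T : Finset ℕ),
    3 / η ≤ y → y ≤ x → y ^ pw e * Real.log B ^ K ≤ B → |V| ≤ B * y ^ e →
    (∀ t ∈ T, (1 - η) * y < t ∧ (t : ℝ) ≤ y ∧ Nat.Coprime t (G t).natAbs ∧
      |((G t : ℤ) : ℝ) - V| ≤ D * η * (B * y ^ e)) →
    ∑ t ∈ T, max 0 ((1 - (2 * D + 2 * E + 4) * η) * (B / Real.log (3 * B * x ^ e)) * GG t -
        ∑ b ∈ Ioc (lo η B) (2 * B), pr (G t + b * ((t ^ e : ℕ) : ℤ))) ≤
      6 * 2 ^ E * (B * y / Real.log B ^ U) := by
  classical
  have h0 : ∀ e : ℕ, ∃ K : ℕ, 1 ≤ e → ∀ (D : ℕ) (η : ℝ), 0 < η →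
    (2 * D + 2 * e + 4) * η ≤ 1 / 8 →
    ∃ B0 : ℕ, ∀ B : ℕ, B0 ≤ B → ∀ (x : ℕ) (y V : ℝ) (G : ℕ → ℤ) (T : Finset ℕ),
    3 / η ≤ y → y ≤ x → y ^ pw e * Real.log B ^ K ≤ B → |V| ≤ B * y ^ e →
    (∀ t ∈ T, (1 - η) * y < t ∧ (t : ℝ) ≤ y ∧ Nat.Coprime t (G t).natAbs ∧
      |((G t : ℤ) : ℝ) - V| ≤ D * η * (B * y ^ e)) →
    ∑ t ∈ T, max 0 ((1 - (2 * D + 2 * e + 4) * η) * (B / Real.log (3 * B * x ^ e)) * GG t -
        ∑ b ∈ Ioc (lo η B) (2 * B), pr (G t + b * ((t ^ e : ℕ) : ℤ))) ≤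
      6 * 2 ^ e * (B * y / Real.log B ^ U) := by
    intro e
    by_cases he : 1 ≤ e
    · obtain ⟨K, hK⟩ := blockE e U he
      exact ⟨K, fun _ => hK⟩
    · exact ⟨0, fun h => absurd h he⟩
  choose Kf hKf using h0
  refine ⟨∑ e ∈ range (E + 1), Kf e, ?_⟩
  intro D η hη hη2
  have h1 : ∀ e : ℕ, ∃ B0 : ℕ, 1 ≤ e → e ≤ E →
    ∀ B : ℕ, B0 ≤ B → ∀ (x : ℕ) (y V : ℝ) (G : ℕ → ℤ) (T : Finset ℕ),
    3 / η ≤ y → y ≤ x → y ^ pw e * Real.log B ^ (Kf e) ≤ B → |V| ≤ B * y ^ e →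
    (∀ t ∈ T, (1 - η) * y < t ∧ (t : ℝ) ≤ y ∧ Nat.Coprime t (G t).natAbs ∧
      |((G t : ℤ) : ℝ) - V| ≤ D * η * (B * y ^ e)) →
    ∑ t ∈ T, max 0 ((1 - (2 * D + 2 * e + 4) * η) * (B / Real.log (3 * B * x ^ e)) * GG t -
        ∑ b ∈ Ioc (lo η B) (2 * B), pr (G t + b * ((t ^ e : ℕ) : ℤ))) ≤
      6 * 2 ^ e * (B * y / Real.log B ^ U) := by
    intro e
    by_cases he : 1 ≤ e ∧ e ≤ E
    · have heE : (e : ℝ) ≤ E := by exact_mod_cast he.2
      obtain ⟨B0, hB0⟩ := hKf e he.1 D η hη (by nlinarith)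
      exact ⟨B0, fun _ _ => hB0⟩
    · exact ⟨0, fun h2 h3 => absurd ⟨h2, h3⟩ he⟩
  choose Bf hBf using h1
  refine ⟨(∑ e ∈ range (E + 1), Bf e) + 3, ?_⟩
  intro e he1 heE B hB x y V G T hy hyx hyB hV hT
  have hmem : e ∈ range (E + 1) := mem_range.2 (by omega)
  have hB1 : Bf e ≤ B := by
    have : Bf e ≤ ∑ e ∈ range (E + 1), Bf e := single_le_sum (f := Bf) (fun _ _ => Nat.zero_le _) hmem
    omega
  have hKe : Kf e ≤ ∑ e ∈ range (E + 1), Kf e := single_le_sum (f := Kf) (fun _ _ => Nat.zero_le _) hmem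
  have hB3 : 3 ≤ B := by omega
  have hBr : (3 : ℝ) ≤ B := by exact_mod_cast hB3
  have hl1 : 1 ≤ Real.log B := by
    rw [Real.le_log_iff_exp_le (by linarith)]
    have := Real.exp_one_lt_d9
    linarith
  have hEe : (e : ℝ) ≤ E := by exact_mod_cast heE
  have hη48 : η ≤ 1 / 32 := by
    have : 0 ≤ (2 * (D : ℝ) + 2 * E) * η := by positivity
    linarith
  have hy0 : 0 ≤ y := by
    have : 0 ≤ 3 / η := by positivity
    linarith
  have h2 := hBf e he1 heE B hB1 x y V G T hy hyx (by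
    refine le_trans ?_ hyB
    apply mul_le_mul_of_nonneg_left _ (by positivity)
    exact pow_le_pow_right₀ hl1 hKe) hV hT
  have h3 : (6 : ℝ) * 2 ^ e * (B * y / Real.log B ^ U) ≤ 6 * 2 ^ E * (B * y / Real.log B ^ U) := by
    have : (2 : ℝ) ^ e ≤ 2 ^ E := pow_le_pow_right₀ (by norm_num) heE
    gcongr
  refine le_trans ?_ (h2.trans h3)
  apply sum_le_sum
  intro t _
  apply max_le_max le_rfl
  apply sub_le_sub_right
  apply mul_le_mul_of_nonneg_right _ (GG_nonneg t)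
  have hx0 : 0 ≤ Real.log (3 * B * x ^ e) := by
    rcases Nat.eq_zero_or_pos x with h | h
    · rw [h, Nat.cast_zero, zero_pow (by omega), mul_zero, Real.log_zero]
    · apply Real.log_nonneg
      have : (1 : ℝ) ≤ (x : ℝ) ^ e := one_le_pow₀ (by exact_mod_cast h)
      nlinarith
  apply mul_le_mul_of_nonneg_right _ (by positivity)
  nlinarith

/-- the values of a polynomial near `y` -/
lemma poly_varE {g : Polynomial ℤ} {d e : ℕ} (hg : g.natDegree ≤ d) {x B : ℕ} {η y : ℝ}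
    (hη : 0 < η) (hη1 : η ≤ 1) (hy1 : 1 ≤ y) (hyx : y ≤ x)
    (hA : ∑ j ∈ range (d + 1), |((g.coeff j : ℤ) : ℝ)| * (x : ℝ) ^ (j - e) ≤ B) :
    |∑ j ∈ range (d + 1), ((g.coeff j : ℤ) : ℝ) * y ^ j| ≤ B * y ^ e ∧
    ∀ t : ℕ, (1 - η) * y < t → (t : ℝ) ≤ y →
      |((g.eval (t : ℤ) : ℤ) : ℝ) - ∑ j ∈ range (d + 1), ((g.coeff j : ℤ) : ℝ) * y ^ j| ≤
        d * η * (B * y ^ e) := by
  have hy0 : 0 < y := by linarith
  have hpow : ∀ j ∈ range (d + 1), y ^ j ≤ x ^ (j - e) * y ^ e := by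
    intro j _
    by_cases hj : e ≤ j
    · obtain ⟨i, rfl⟩ : ∃ i, j = i + e := ⟨j - e, by omega⟩
      rw [Nat.add_sub_cancel, pow_add]
      gcongr
    · rw [Nat.sub_eq_zero_of_le (by omega), pow_zero, one_mul]
      exact pow_le_pow_right₀ hy1 (by omega)
  have habs : ∑ j ∈ range (d + 1), |((g.coeff j : ℤ) : ℝ)| * y ^ j ≤ B * y ^ e := by
    calc ∑ j ∈ range (d + 1), |((g.coeff j : ℤ) : ℝ)| * y ^ j
        ≤ ∑ j ∈ range (d + 1), |((g.coeff j : ℤ) : ℝ)| * (x ^ (j - e) * y ^ e) := by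
          apply sum_le_sum
          intro j hj
          exact mul_le_mul_of_nonneg_left (hpow j hj) (abs_nonneg _)
      _ = (∑ j ∈ range (d + 1), |((g.coeff j : ℤ) : ℝ)| * (x : ℝ) ^ (j - e)) * y ^ e := by
          rw [sum_mul]; apply sum_congr rfl; intro j _; ring
      _ ≤ B * y ^ e := by gcongr
  constructor
  · refine (abs_sum_le_sum_abs _ _).trans (le_trans (le_of_eq ?_) habs)
    apply sum_congr rfl
    intro j _
    rw [abs_mul, abs_of_nonneg (pow_nonneg hy0.le j)]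
  · intro t ht1 ht2
    have ht0 : (0 : ℝ) ≤ t := Nat.cast_nonneg t
    have h1 : ((g.eval (t : ℤ) : ℤ) : ℝ) =
        ∑ j ∈ range (d + 1), ((g.coeff j : ℤ) : ℝ) * (t : ℝ) ^ j := by
      have h2 := Polynomial.eval_eq_sum_range' (show g.natDegree < d + 1 by omega) (t : ℤ)
      rw [h2]
      push_cast
      rfl
    rw [h1, ← sum_sub_distrib]
    refine (abs_sum_le_sum_abs _ _).trans ?_
    have h4 : ∀ j ∈ range (d + 1),
        |((g.coeff j : ℤ) : ℝ) * (t : ℝ) ^ j - ((g.coeff j : ℤ) : ℝ) * y ^ j| ≤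
        (d * η) * (|((g.coeff j : ℤ) : ℝ)| * y ^ j) := by
      intro j hj
      have hjd : (j : ℝ) ≤ d := by exact_mod_cast Nat.lt_succ_iff.1 (mem_range.1 hj)
      rw [← mul_sub, abs_mul]
      have h5 : |(t : ℝ) ^ j - y ^ j| ≤ d * η * y ^ j := by
        have h6 : (t : ℝ) ^ j ≤ y ^ j := pow_le_pow_left₀ ht0 ht2 j
        rw [abs_of_nonpos (by linarith)]
        have h7 : ((1 - η) * y) ^ j ≤ (t : ℝ) ^ j :=
          pow_le_pow_left₀ (mul_nonneg (by linarith) hy0.le) ht1.le j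
        rw [mul_pow] at h7
        have h8 : 1 - j * η ≤ (1 - η) ^ j := by
          have := one_add_mul_le_pow (show (-2 : ℝ) ≤ -η by linarith) j
          have e : 1 + (j : ℝ) * -η = 1 - j * η := by ring
          rw [e] at this
          have e2 : 1 + -η = 1 - η := by ring
          rwa [e2] at this
        have h9 : 0 ≤ y ^ j := pow_nonneg hy0.le j
        have h10 := mul_le_mul_of_nonneg_right h8 h9
        have h11 : j * η * y ^ j ≤ d * η * y ^ j := by gcongr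
        linarith
      calc |((g.coeff j : ℤ) : ℝ)| * |(t : ℝ) ^ j - y ^ j|
          ≤ |((g.coeff j : ℤ) : ℝ)| * (d * η * y ^ j) := by gcongr
        _ = _ := by ring
    refine (sum_le_sum h4).trans ?_
    rw [← mul_sum]
    gcongr

lemma prod_lowerE {ι : Type*} [DecidableEq ι] (s : Finset ι) (n E M : ι → ℝ)
    (hM : ∀ i ∈ s, 0 < M i)
    (hn : ∀ i ∈ s, 0 ≤ n i) (hE : ∀ i ∈ s, 0 ≤ E i) (h : ∀ i ∈ s, M i - E i ≤ n i) :
    (∏ i ∈ s, M i) * (1 - ∑ i ∈ s, E i / M i) ≤ ∏ i ∈ s, n i := by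
  induction s using Finset.induction_on with
  | empty => simp
  | insert a s ha ih =>
    have ih' := ih (fun i hi => hM i (mem_insert_of_mem hi)) (fun i hi => hn i (mem_insert_of_mem hi))
      (fun i hi => hE i (mem_insert_of_mem hi)) (fun i hi => h i (mem_insert_of_mem hi))
    rw [prod_insert ha, sum_insert ha, prod_insert ha]
    have hP0 : 0 ≤ ∏ i ∈ s, n i := prod_nonneg fun i hi => hn i (mem_insert_of_mem hi)
    have hna := hn a (mem_insert_self a s)
    have hEa := hE a (mem_insert_self a s)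
    have hha := h a (mem_insert_self a s)
    have hMa := hM a (mem_insert_self a s)
    have hS0 : 0 ≤ ∑ i ∈ s, E i / M i := sum_nonneg fun i hi =>
      div_nonneg (hE i (mem_insert_of_mem hi)) (hM i (mem_insert_of_mem hi)).le
    have he0 : 0 ≤ E a / M a := div_nonneg hEa hMa.le
    have hMk : 0 < ∏ i ∈ s, M i := prod_pos fun i hi => hM i (mem_insert_of_mem hi)
    set P := ∏ i ∈ s, M i with hP
    set S := ∑ i ∈ s, E i / M i with hS
    set e := E a / M a with he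
    have hMe : M a * (1 - e) = M a - E a := by rw [he]; field_simp
    by_cases hc : 1 - (e + S) ≤ 0
    · have h1 : M a * P * (1 - (e + S)) ≤ 0 :=
        mul_nonpos_of_nonneg_of_nonpos (by positivity) hc
      exact h1.trans (mul_nonneg hna hP0)
    · push Not at hc
      have h1 : 0 ≤ M a * (1 - e) := mul_nonneg hMa.le (by linarith)
      have h2 : 0 ≤ P * (1 - S) := mul_nonneg hMk.le (by linarith)
      have h3 : M a * (1 - e) * (P * (1 - S)) ≤ n a * ∏ i ∈ s, n i :=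
        mul_le_mul (by rw [hMe]; exact hha) ih' h2 hna
      refine le_trans ?_ h3
      have e1 : M a * (1 - e) * (P * (1 - S)) - M a * P * (1 - (e + S)) =
          M a * P * (e * S) := by ring
      have h4 : 0 ≤ M a * P * (e * S) := by positivity
      linarith

/-- the number of coefficients for which the value at `t` is prime -/
noncomputable def nnE (b1 B e : ℕ) (g : Polynomial ℤ) (t : ℕ) : ℝ :=
  ∑ b ∈ Ioc b1 (2 * B), pr (g.eval (t : ℤ) + b * ((t ^ e : ℕ) : ℤ))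

lemma nnE_nonneg (b1 B e : ℕ) (g : Polynomial ℤ) (t : ℕ) : 0 ≤ nnE b1 B e g t :=
  sum_nonneg fun _ _ => pr_nonneg _

theorem first_total3 (k E : ℕ) (hk : 1 ≤ k) : ∃ K : ℕ, ∀ (d : ℕ) (η : ℝ), 0 < η →
    (2 * d + 2 * E + 4) * η ≤ 1 / 8 → ∀ δ : ℝ, 0 < δ → ∃ J B0 : ℕ, ∀ B : ℕ, B0 ≤ B →
    ∀ (x : ℕ) (e : Fin k → ℕ) (g : Fin k → Polynomial ℤ) (T : Finset ℕ), Real.log B ≤ x →
    (∀ i, 1 ≤ e i ∧ e i ≤ E) →
    (∀ i, (x : ℝ) ^ pw (e i) * Real.log B ^ K ≤ B) → (∀ i, (g i).natDegree ≤ d) →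
    (∀ i, ∑ j ∈ range (d + 1), |(((g i).coeff j : ℤ) : ℝ)| * (x : ℝ) ^ (j - e i) ≤ B) →
    T ⊆ Icc 1 x → (∀ t ∈ T, ∀ i, Nat.Coprime t ((g i).coeff 0).natAbs) → δ * x ≤ T.card →
    3 / η ≤ (1 - η) ^ J * x ∧
    (1 - (k * (2 * d + 2 * E + 5) + 2) * η) * (∏ i, (B / Real.log (B * x ^ e i))) *
        ∑ t ∈ T, GG t ^ k ≤
      ∑ t ∈ T.filter (fun t : ℕ => (1 - η) ^ J * (x : ℝ) < t),
        ∏ i, nnE (lo η B) B (e i) (g i) t := by
  classical
  obtain ⟨K, hblock⟩ := blockU E (k + 1)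
  refine ⟨K, ?_⟩
  intro d η hη hη2 δ hδ
  obtain ⟨B₁, hblock⟩ := hblock d η hη hη2
  obtain ⟨C₁, hC₁, hid⟩ := gmom_id k hk
  obtain ⟨C₅, hC₅, hcrude⟩ := GG_crude
  have hd0 : (0 : ℝ) ≤ d := Nat.cast_nonneg d
  have hE0 : (0 : ℝ) ≤ E := Nat.cast_nonneg E
  have hdη0 : 0 ≤ (d : ℝ) * η := by positivity
  have hEη0 : 0 ≤ (E : ℝ) * η := by positivity
  have hη48 : η ≤ 1 / 32 := by nlinarith
  set ρ : ℝ := 1 - η with hρ
  have hρ0 : 0 < ρ := by rw [hρ]; linarith
  have hρ1 : ρ < 1 := by rw [hρ]; linarith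
  obtain ⟨J, hJ⟩ := exists_pow_lt_of_lt_one (show 0 < η * δ / C₁ by positivity) hρ1
  have hρJ : 0 < ρ ^ J := by positivity
  set Z : ℝ := C₅ ^ (k - 1) * (6 * 2 ^ E * k * J) * (E + 1) ^ k with hZ
  have hZ0 : 0 ≤ Z := by positivity
  refine ⟨J, max (max B₁ 3) ⌈Real.exp (3 / η / ρ ^ J + Z / (η * δ) + 2 / η)⌉₊, ?_⟩
  intro B hB x e g T hlog he hxB hg hA hT hTc hTcard
  have hB1 : B₁ ≤ B := (le_max_left _ _).trans ((le_max_left _ _).trans hB)
  have hB3 : 3 ≤ B := (le_max_right _ _).trans ((le_max_left _ _).trans hB)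
  have hBe : ⌈Real.exp (3 / η / ρ ^ J + Z / (η * δ) + 2 / η)⌉₊ ≤ B :=
    (le_max_right _ _).trans hB
  have hBe' : Real.exp (3 / η / ρ ^ J + Z / (η * δ) + 2 / η) ≤ B :=
    (Nat.le_ceil _).trans (by exact_mod_cast hBe)
  have hBr : (3 : ℝ) ≤ B := by exact_mod_cast hB3
  have hB0 : (0 : ℝ) < B := by linarith
  have hl : 3 / η / ρ ^ J + Z / (η * δ) + 2 / η ≤ Real.log B := by
    rw [Real.le_log_iff_exp_le hB0]; exact hBe'
  have p1 : 0 ≤ 3 / η / ρ ^ J := by positivity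
  have p2 : 0 ≤ Z / (η * δ) := by positivity
  have p3 : 0 ≤ 2 / η := by positivity
  have hl1 : 3 / η ≤ ρ ^ J * Real.log B := by
    have : 3 / η / ρ ^ J ≤ Real.log B := by linarith
    rw [div_le_iff₀ hρJ] at this
    linarith
  have hl2 : Z ≤ η * δ * Real.log B := by
    have : Z / (η * δ) ≤ Real.log B := by linarith
    rw [div_le_iff₀ (by positivity)] at this
    linarith
  have hl3 : 2 ≤ η * Real.log B := by
    have : 2 / η ≤ Real.log B := by linarith
    rw [div_le_iff₀ hη] at this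
    linarith
  have hlB1 : 1 ≤ Real.log B := by
    rw [Real.le_log_iff_exp_le hB0]
    have := Real.exp_one_lt_d9
    linarith
  have hlB0 : 0 < Real.log B := by linarith
  have hx0 : 0 < (x : ℝ) := by linarith
  have hx1 : 1 ≤ x := by
    have : 0 < x := by exact_mod_cast hx0
    omega
  have hx1r : (1 : ℝ) ≤ x := by exact_mod_cast hx1
  have hyJ : 3 / η ≤ ρ ^ J * x := hl1.trans (by gcongr)
  refine ⟨hyJ, ?_⟩
  have hxleB : (x : ℝ) ≤ B := by
    have i0 : Fin k := ⟨0, hk⟩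
    have h1 := hxB i0
    have h2 : (x : ℝ) ≤ (x : ℝ) ^ pw (e i0) := le_self_pow₀ hx1r (by have := pw_pos (e i0); omega)
    have h3 : (x : ℝ) ^ pw (e i0) * 1 ≤ (x : ℝ) ^ pw (e i0) * Real.log B ^ K :=
      mul_le_mul_of_nonneg_left (one_le_pow₀ hlB1) (by positivity)
    linarith
  set M0 : Fin k → ℝ := fun i => (1 - (2 * d + 2 * E + 4) * η) * (B / Real.log (3 * B * x ^ e i)) with hM0
  set Df : Fin k → ℕ → ℝ := fun i t => max 0 (M0 i * GG t - nnE (lo η B) B (e i) (g i) t) with hDf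
  have hDf0 : ∀ i t, 0 ≤ Df i t := fun i t => le_max_left _ _
  -- blocks
  have hind : ∀ i : Fin k, ∀ j : ℕ, j ≤ J →
      ∑ t ∈ T.filter (fun t : ℕ => ρ ^ j * (x : ℝ) < t), Df i t ≤
        j * (6 * 2 ^ E * (B * x / Real.log B ^ (k + 1))) := by
    intro i j
    induction j with
    | zero =>
      intro _
      have h0 : T.filter (fun t : ℕ => ρ ^ 0 * (x : ℝ) < t) = ∅ := by
        apply filter_eq_empty_iff.2
        intro t ht h
        have h1 := (mem_Icc.1 (hT ht)).2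
        have h2 : (t : ℝ) ≤ x := by exact_mod_cast h1
        rw [pow_zero, one_mul] at h
        linarith
      rw [h0]
      simp
    | succ j ih =>
      intro hj
      have ih' := ih (by omega)
      have hsplit : T.filter (fun t : ℕ => ρ ^ (j + 1) * (x : ℝ) < t) =
          T.filter (fun t : ℕ => ρ ^ j * (x : ℝ) < t) ∪
          T.filter (fun t : ℕ => ρ * (ρ ^ j * (x : ℝ)) < t ∧ (t : ℝ) ≤ ρ ^ j * x) := by
        ext t
        simp only [mem_filter, mem_union]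
        have e1 : ρ ^ (j + 1) * (x : ℝ) = ρ * (ρ ^ j * x) := by ring
        constructor
        · rintro ⟨h1, h2⟩
          rw [e1] at h2
          by_cases h3 : ρ ^ j * (x : ℝ) < t
          · exact Or.inl ⟨h1, h3⟩
          · exact Or.inr ⟨h1, h2, not_lt.1 h3⟩
        · rintro (⟨h1, h2⟩ | ⟨h1, h2, h3⟩)
          · refine ⟨h1, lt_of_le_of_lt ?_ h2⟩
            rw [e1]
            have : 0 ≤ ρ ^ j * (x : ℝ) := by positivity
            nlinarith
          · exact ⟨h1, by rw [e1]; exact h2⟩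
      have hdisj : Disjoint (T.filter (fun t : ℕ => ρ ^ j * (x : ℝ) < t))
          (T.filter (fun t : ℕ => ρ * (ρ ^ j * (x : ℝ)) < t ∧ (t : ℝ) ≤ ρ ^ j * x)) := by
        rw [disjoint_left]
        intro t h1 h2
        rw [mem_filter] at h1 h2
        linarith [h1.2, h2.2.2]
      have hρj : ρ ^ j ≤ 1 := pow_le_one₀ hρ0.le hρ1.le
      have hρjJ : ρ ^ J ≤ ρ ^ j := pow_le_pow_of_le_one hρ0.le hρ1.le (by omega)
      have hyx : ρ ^ j * (x : ℝ) ≤ x := by
        have := mul_le_mul_of_nonneg_right hρj hx0.le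
        linarith
      have hy0 : 0 < ρ ^ j * (x : ℝ) := by positivity
      have hylow : 3 / η ≤ ρ ^ j * x := hyJ.trans (by gcongr)
      have hy1 : 1 ≤ ρ ^ j * (x : ℝ) := by
        have : (1 : ℝ) ≤ 3 / η := by
          rw [le_div_iff₀ hη]; linarith
        linarith
      obtain ⟨hV, hcl⟩ := poly_varE (e := e i) (hg i) hη (by linarith) hy1 hyx (hA i)
      have hb := hblock (e i) (he i).1 (he i).2 B hB1 x (ρ ^ j * x)
        (∑ m ∈ range (d + 1), (((g i).coeff m : ℤ) : ℝ) * (ρ ^ j * (x : ℝ)) ^ m)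
        (fun t => (g i).eval (t : ℤ))
        (T.filter (fun t : ℕ => ρ * (ρ ^ j * (x : ℝ)) < t ∧ (t : ℝ) ≤ ρ ^ j * x))
        hylow hyx
        (le_trans (mul_le_mul_of_nonneg_right (pow_le_pow_left₀ hy0.le hyx _) (by positivity)) (hxB i)) hV
        (by
          intro t ht
          rw [mem_filter] at ht
          refine ⟨ht.2.1, ht.2.2, ?_, hcl t ht.2.1 ht.2.2⟩
          have h := Polynomial.sub_dvd_eval_sub (t : ℤ) 0 (g i)
          rw [sub_zero, ← Polynomial.coeff_zero_eq_eval_zero] at h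
          obtain ⟨u, hu⟩ := h
          have h6 : IsCoprime (t : ℤ) ((g i).coeff 0) := by
            rw [Int.isCoprime_iff_gcd_eq_one]
            exact hTc t ht.1 i
          have h7 : IsCoprime (t : ℤ) ((g i).eval (t : ℤ)) := by
            have := h6.add_mul_left_right u
            have e3 : (g i).coeff 0 + t * u = (g i).eval (t : ℤ) := by linear_combination -hu
            rwa [e3] at this
          rw [Int.isCoprime_iff_gcd_eq_one] at h7
          exact h7)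
      rw [hsplit, sum_union hdisj]
      have herr : (B : ℝ) * (ρ ^ j * x) / Real.log B ^ (k + 1) ≤ B * x / Real.log B ^ (k + 1) := by
        gcongr
      have herr2 := mul_le_mul_of_nonneg_left herr (show (0 : ℝ) ≤ 6 * 2 ^ E by positivity)
      have hb' : ∑ t ∈ T.filter (fun t : ℕ => ρ * (ρ ^ j * (x : ℝ)) < t ∧ (t : ℝ) ≤ ρ ^ j * x),
          Df i t ≤ 6 * 2 ^ E * (B * (ρ ^ j * x) / Real.log B ^ (k + 1)) := hb
      push_cast
      linarith
  -- logs
  have hxe1 : ∀ i, (1 : ℝ) ≤ (x : ℝ) ^ e i := fun i => one_le_pow₀ hx1r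
  have hBx0 : ∀ i, 0 < (B : ℝ) * x ^ e i := fun i => by positivity
  have hL1 : ∀ i, Real.log B ≤ Real.log (B * x ^ e i) := by
    intro i
    apply Real.log_le_log hB0
    have := mul_le_mul_of_nonneg_left (hxe1 i) hB0.le
    linarith
  have hL2 : ∀ i, Real.log (B * x ^ e i) ≤ (E + 1) * Real.log B := by
    intro i
    rw [Real.log_mul hB0.ne' (by positivity), Real.log_pow]
    have h1 := Real.log_le_log hx0 hxleB
    have h2 : ((e i : ℕ) : ℝ) ≤ E := by exact_mod_cast (he i).2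
    have h3 : ((e i : ℕ) : ℝ) * Real.log x ≤ E * Real.log B := by
      have h4 : 0 ≤ Real.log x := Real.log_nonneg hx1r
      gcongr
    linarith
  have hL0 : ∀ i, 0 < Real.log (B * x ^ e i) := fun i => by linarith [hL1 i]
  have hL3 : ∀ i, Real.log (3 * B * x ^ e i) ≤ (1 + η) * Real.log (B * x ^ e i) := by
    intro i
    have e1 : (3 : ℝ) * B * x ^ e i = 3 * (B * x ^ e i) := by ring
    rw [e1, Real.log_mul (by norm_num) (hBx0 i).ne']
    have h2 : Real.log 3 ≤ 2 := by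
      rw [Real.log_le_iff_le_exp (by norm_num)]
      have := Real.add_one_le_exp (2 : ℝ)
      linarith
    have h3 : 2 ≤ η * Real.log (B * x ^ e i) := hl3.trans (mul_le_mul_of_nonneg_left (hL1 i) hη.le)
    linarith
  have hL4' : ∀ i, Real.log (B * x ^ e i) ≤ Real.log (3 * B * x ^ e i) := by
    intro i
    apply Real.log_le_log (hBx0 i)
    have := hBx0 i
    linarith
  have hL4 : ∀ i, 0 < Real.log (3 * B * x ^ e i) := fun i => by linarith [hL0 i, hL4' i]
  set Q : Fin k → ℝ := fun i => B / Real.log (B * x ^ e i) with hQ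
  have hQ0 : ∀ i, 0 < Q i := fun i => div_pos hB0 (hL0 i)
  have ha0 : 0 < 1 - (2 * (d : ℝ) + 2 * E + 4) * η := by linarith
  have hM0pos : ∀ i, 0 < M0 i := fun i => mul_pos ha0 (div_pos hB0 (hL4 i))
  have hM0low : ∀ i, (1 - (2 * d + 2 * E + 5) * η) * Q i ≤ M0 i := by
    intro i
    have h1 : (1 - η) * Q i ≤ B / Real.log (3 * B * x ^ e i) := by
      have h0 := hL0 i
      rw [le_div_iff₀ (hL4 i)]
      calc (1 - η) * (B / Real.log (B * x ^ e i)) * Real.log (3 * B * x ^ e i)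
          ≤ (1 - η) * (B / Real.log (B * x ^ e i)) * ((1 + η) * Real.log (B * x ^ e i)) := by
            apply mul_le_mul_of_nonneg_left (hL3 i)
            apply mul_nonneg hρ0.le (by positivity)
        _ = (1 - η ^ 2) * B := by field_simp; ring
        _ ≤ B := by nlinarith [sq_nonneg η]
    calc (1 - (2 * d + 2 * E + 5) * η) * Q i ≤ (1 - (2 * d + 2 * E + 4) * η) * (1 - η) * Q i := by
          apply mul_le_mul_of_nonneg_right _ (hQ0 i).le
          have : 0 ≤ (2 * (d : ℝ) + 2 * E + 4) * η * η := by positivity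
          linarith
      _ = (1 - (2 * d + 2 * E + 4) * η) * ((1 - η) * Q i) := by ring
      _ ≤ _ := mul_le_mul_of_nonneg_left h1 ha0.le
  have hM0up : ∀ i, M0 i ≤ B / Real.log B := by
    intro i
    have h1 : (B : ℝ) / Real.log (3 * B * x ^ e i) ≤ B / Real.log B :=
      div_le_div_of_nonneg_left hB0.le hlB0 ((hL1 i).trans (hL4' i))
    have h2 : 1 - (2 * (d : ℝ) + 2 * E + 4) * η ≤ 1 := by
      have : 0 ≤ (2 * (d : ℝ) + 2 * E + 4) * η := by positivity
      linarith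
    calc (1 - (2 * d + 2 * E + 4) * η) * (B / Real.log (3 * B * x ^ e i)) ≤ 1 * (B / Real.log B) := by
          apply mul_le_mul h2 h1 (div_nonneg hB0.le (hL4 i).le) (by norm_num)
      _ = _ := one_mul _
  -- product lower bound
  set T' := T.filter (fun t : ℕ => ρ ^ J * (x : ℝ) < t) with hT'
  have hprod : ∀ t ∈ T', (∏ i, M0 i) * GG t ^ k - (C₅ * B) ^ (k - 1) * ∑ i, Df i t ≤
      ∏ i, nnE (lo η B) B (e i) (g i) t := by
    intro t ht
    have htT := (mem_filter.1 ht).1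
    have ht1 := mem_Icc.1 (hT htT)
    have hGt : 0 < GG t := GG_pos (by omega)
    have hMt : ∀ i, 0 < M0 i * GG t := fun i => mul_pos (hM0pos i) hGt
    have h1 := prod_lowerE (univ : Finset (Fin k)) (fun i => nnE (lo η B) B (e i) (g i) t)
      (fun i => Df i t) (fun i => M0 i * GG t) (fun i _ => hMt i) (fun i _ => nnE_nonneg _ _ _ _ _)
      (fun i _ => hDf0 i t) (fun i _ => by
        have : M0 i * GG t - nnE (lo η B) B (e i) (g i) t ≤ Df i t := le_max_right _ _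
        linarith)
    refine le_trans ?_ h1
    have e1 : (∏ i, M0 i) * GG t ^ k = ∏ i, (M0 i * GG t) := by
      have h := Finset.prod_mul_distrib (s := univ) (f := M0) (g := fun _ => GG t)
      rw [prod_const, card_univ, Fintype.card_fin] at h
      exact h.symm
    rw [mul_sub, mul_one, e1]
    apply sub_le_sub_left
    rw [mul_sum, mul_sum]
    apply sum_le_sum
    intro i _
    have h3 : ∀ j, M0 j * GG t ≤ C₅ * B := by
      intro j
      have h4 : GG t ≤ C₅ * Real.log B := by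
        apply hcrude B t hB3 ht1.1
        have : (t : ℝ) ≤ B := le_trans (by exact_mod_cast ht1.2) hxleB
        exact_mod_cast this
      calc M0 j * GG t ≤ (B / Real.log B) * (C₅ * Real.log B) :=
            mul_le_mul (hM0up j) h4 hGt.le (by positivity)
        _ = C₅ * B := by field_simp
    have h4 : ∏ j, (M0 j * GG t) = (M0 i * GG t) * ∏ j ∈ univ.erase i, (M0 j * GG t) :=
      (mul_prod_erase univ (fun j => M0 j * GG t) (mem_univ i)).symm
    have h5 : ∏ j ∈ univ.erase i, (M0 j * GG t) ≤ (C₅ * B) ^ (k - 1) := by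
      calc ∏ j ∈ univ.erase i, (M0 j * GG t) ≤ ∏ _j ∈ univ.erase i, (C₅ * (B : ℝ)) :=
            prod_le_prod (fun j _ => (hMt j).le) fun j _ => h3 j
        _ = _ := by rw [prod_const, card_erase_of_mem (mem_univ i), card_univ, Fintype.card_fin]
    have h6 : (∏ j, (M0 j * GG t)) * (Df i t / (M0 i * GG t)) =
        (∏ j ∈ univ.erase i, (M0 j * GG t)) * Df i t := by
      have h7 := (hMt i).ne'
      rw [h4]
      calc (M0 i * GG t) * (∏ j ∈ univ.erase i, (M0 j * GG t)) * (Df i t / (M0 i * GG t))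
          = (∏ j ∈ univ.erase i, (M0 j * GG t)) * ((M0 i * GG t) * (Df i t / (M0 i * GG t))) := by ring
        _ = _ := by rw [mul_div_cancel₀ _ h7]
    rw [h6]
    exact mul_le_mul_of_nonneg_right h5 (hDf0 i t)
  have hsumprod := sum_le_sum hprod
  rw [sum_sub_distrib, ← mul_sum, ← mul_sum] at hsumprod
  have hDfsum : ∑ t ∈ T', ∑ i, Df i t ≤ k * (J * (6 * 2 ^ E * (B * x / Real.log B ^ (k + 1)))) := by
    rw [sum_comm]
    calc _ ≤ ∑ _i : Fin k, (J : ℝ) * (6 * 2 ^ E * (B * x / Real.log B ^ (k + 1))) :=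
          sum_le_sum fun i _ => hind i J le_rfl
      _ = _ := by rw [sum_const, card_univ, Fintype.card_fin, nsmul_eq_mul]
  -- small t
  set m : ℝ := ∑ t ∈ T, GG t ^ k with hm
  have hsm : ∑ t ∈ T.filter (fun t : ℕ => ¬ ρ ^ J * (x : ℝ) < t), GG t ^ k ≤ η * (δ * x) := by
    have h1 : T.filter (fun t : ℕ => ¬ ρ ^ J * (x : ℝ) < t) ⊆ Icc 1 ⌊ρ ^ J * (x : ℝ)⌋₊ := by
      intro t ht
      rw [mem_filter] at ht
      rw [mem_Icc]
      exact ⟨(mem_Icc.1 (hT ht.1)).1, Nat.le_floor (not_lt.1 ht.2)⟩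
    have h2 : ∑ t ∈ T.filter (fun t : ℕ => ¬ ρ ^ J * (x : ℝ) < t), GG t ^ k ≤
        ∑ t ∈ Icc 1 ⌊ρ ^ J * (x : ℝ)⌋₊, GG t ^ k :=
      sum_le_sum_of_subset_of_nonneg h1 fun t _ _ => pow_nonneg (GG_nonneg t) k
    have h3 : ((⌊ρ ^ J * (x : ℝ)⌋₊ : ℕ) : ℝ) ≤ ρ ^ J * x := Nat.floor_le (by positivity)
    have h4 : C₁ * ρ ^ J ≤ η * δ := by
      rw [lt_div_iff₀ hC₁] at hJ
      linarith
    calc _ ≤ C₁ * ((⌊ρ ^ J * (x : ℝ)⌋₊ : ℕ) : ℝ) := h2.trans (hid _)
      _ ≤ C₁ * (ρ ^ J * x) := by gcongr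
      _ = (C₁ * ρ ^ J) * x := by ring
      _ ≤ (η * δ) * x := by gcongr
      _ = _ := by ring
  have hmcard : δ * x ≤ m := by
    refine hTcard.trans ?_
    rw [hm, card_eq_sum_ones]
    push_cast
    apply sum_le_sum
    intro t ht
    exact one_le_pow₀ (one_le_GG (by have := (mem_Icc.1 (hT ht)).1; omega))
  have hbig : (1 - η) * m ≤ ∑ t ∈ T', GG t ^ k := by
    have h1 := sum_filter_add_sum_filter_not T (fun t : ℕ => ρ ^ J * (x : ℝ) < t) (fun t => GG t ^ k)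
    rw [← hm] at h1
    have h2 : η * (δ * x) ≤ η * m := by gcongr
    linarith
  have hm0 : 0 < m := lt_of_lt_of_le (by positivity) hmcard
  set PQ : ℝ := ∏ i, Q i with hPQ
  have hPQ0 : 0 < PQ := prod_pos fun i _ => hQ0 i
  have hPQlow : (B : ℝ) ^ k / ((E + 1) ^ k * Real.log B ^ k) ≤ PQ := by
    rw [← mul_pow, ← div_pow]
    calc ((B : ℝ) / ((E + 1) * Real.log B)) ^ k = ∏ _i : Fin k, ((B : ℝ) / ((E + 1) * Real.log B)) := by
          rw [prod_const, card_univ, Fintype.card_fin]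
      _ ≤ PQ := by
          rw [hPQ]
          apply prod_le_prod
          · intro i _; positivity
          · intro i _
            exact div_le_div_of_nonneg_left hB0.le (hL0 i) (hL2 i)
  -- error
  have herr : (C₅ * B) ^ (k - 1) * (k * (J * (6 * 2 ^ E * (B * x / Real.log B ^ (k + 1))))) ≤
      η * (PQ * m) := by
    have h1 : (C₅ * B) ^ (k - 1) * (k * (J * (6 * 2 ^ E * (B * x / Real.log B ^ (k + 1))))) =
        (C₅ ^ (k - 1) * (6 * 2 ^ E * k * J)) * (B ^ k * x / Real.log B ^ (k + 1)) := by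
      obtain ⟨n, hn⟩ : ∃ n, k = n + 1 := ⟨k - 1, by omega⟩
      rw [hn, Nat.add_sub_cancel, mul_pow, pow_succ (B : ℝ) n]
      ring
    have h3 : (C₅ ^ (k - 1) * (6 * 2 ^ E * k * J)) * (B ^ k * x / Real.log B ^ (k + 1)) =
        Z * ((B : ℝ) ^ k / ((E + 1) ^ k * Real.log B ^ k)) * x / Real.log B := by
      rw [hZ, pow_succ (Real.log B)]
      field_simp
    rw [h1, h3]
    calc Z * ((B : ℝ) ^ k / ((E + 1) ^ k * Real.log B ^ k)) * x / Real.log B
        ≤ (η * δ * Real.log B) * PQ * x / Real.log B := by gcongr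
      _ = η * (PQ * (δ * x)) := by field_simp
      _ ≤ η * (PQ * m) := by gcongr
  have hmain : (1 - (k * (2 * d + 2 * E + 5) + 1) * η) * PQ * m ≤
      (∏ i, M0 i) * ∑ t ∈ T', GG t ^ k := by
    have hbase : 0 ≤ 1 - (2 * (d : ℝ) + 2 * E + 5) * η := by linarith
    set q : ℝ := (1 - (2 * d + 2 * E + 5) * η) ^ k with hq
    have h1 : q * PQ ≤ ∏ i, M0 i := by
      have e5 : q * PQ = ∏ i, ((1 - (2 * d + 2 * E + 5) * η) * Q i) := by
        rw [prod_mul_distrib, prod_const, card_univ, Fintype.card_fin]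
      rw [e5]
      apply prod_le_prod
      · intro i _
        exact mul_nonneg hbase (hQ0 i).le
      · intro i _
        exact hM0low i
    have hq1 : q ≤ 1 := pow_le_one₀ hbase (by
      have : 0 ≤ (2 * (d : ℝ) + 2 * E + 5) * η := by positivity
      linarith)
    have hq0 : 0 ≤ q := pow_nonneg hbase k
    have hq2 : 1 - k * (2 * d + 2 * E + 5) * η ≤ q := by
      have := one_add_mul_le_pow (show (-2 : ℝ) ≤ -((2 * d + 2 * E + 5) * η) by linarith) k
      have e : 1 + (k : ℝ) * -((2 * d + 2 * E + 5) * η) = 1 - k * (2 * d + 2 * E + 5) * η := by ring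
      rw [e] at this
      have e2 : 1 + -((2 * (d : ℝ) + 2 * E + 5) * η) = 1 - (2 * d + 2 * E + 5) * η := by ring
      rwa [e2] at this
    calc (1 - (k * (2 * d + 2 * E + 5) + 1) * η) * PQ * m ≤ (q * (1 - η)) * PQ * m := by
          apply mul_le_mul_of_nonneg_right _ hm0.le
          apply mul_le_mul_of_nonneg_right _ (by positivity)
          have := mul_le_mul_of_nonneg_right hq1 hη.le
          linarith
      _ = (q * PQ) * ((1 - η) * m) := by ring
      _ ≤ (∏ i, M0 i) * ((1 - η) * m) := by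
          apply mul_le_mul_of_nonneg_right h1
          exact mul_nonneg hρ0.le hm0.le
      _ ≤ (∏ i, M0 i) * ∑ t ∈ T', GG t ^ k := by
          have : 0 < ∏ i, M0 i := prod_pos fun i _ => hM0pos i
          gcongr
  have herr2 : (C₅ * B) ^ (k - 1) * ∑ t ∈ T', ∑ i, Df i t ≤ η * (PQ * m) :=
    le_trans (by gcongr) herr
  have e3 : (1 - (k * (2 * d + 2 * E + 5) + 2) * η) * PQ * m =
      (1 - (k * (2 * d + 2 * E + 5) + 1) * η) * PQ * m - η * (PQ * m) := by ring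
  rw [e3]
  linarith

end Q239.LC
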