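import Mathlib
import Pool.Agent.W468.CFMost

set_option autoImplicit false

/-!
For all but few leading coefficients, the constant of Conjecture F is close to its cut product.
-/

namespace Q239.LC
open Finset Filter Topology
open Pool.Agent.W468.ConjF

/-- all but few `c` have a small tail -/
theorem good_most' (a b : ℤ) (ha : a ≠ 0) (ε η : ℝ) (hε : 0 < ε) (hη : 0 < η) :
    ∃ z₀ : ℕ, ∀ z : ℕ, z₀ ≤ z → ∃ H₀ : ℕ, ∀ H : ℕ, H₀ ≤ H → ∃ E : Finset ℕ, (#E : ℝ) ≤ η * H ∧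
      ∀ c ∈ Icc 1 H, c ∉ E → ¬ IsSquare (b ^ 2 - 4 * a * (c : ℤ)) →
        ∀ᶠ N in atTop, |SJ (b ^ 2 - 4 * a * (c : ℤ)) z N| ≤ ε := by
  classical
  set K : ℕ := b.natAbs ^ 2 + 4 * a.natAbs with hK
  obtain ⟨n₁, hn₁⟩ := tail 402
  obtain ⟨m₁, hm₁⟩ := ev_small K (ε / 3) (by positivity)
  obtain ⟨m₂, hm₂⟩ := ev_log (ε / 3) (by positivity)
  refine ⟨max (max 2 (2 * a.natAbs)) ⌈36 / (η * ε ^ 2)⌉₊, fun z hz => ?_⟩
  have hz2 : 2 ≤ z := ((le_max_left _ _).trans (le_max_left _ _)).trans hz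
  have hza : 2 * a.natAbs ≤ z := ((le_max_right _ _).trans (le_max_left _ _)).trans hz
  have hzε : 36 / (η * ε ^ 2) ≤ z := (Nat.le_ceil _).trans (by exact_mod_cast (le_max_right _ _).trans hz)
  have hz0 : (0 : ℝ) < z := by exact_mod_cast (by omega : 0 < z)
  have hev : ∀ᶠ H : ℕ in atTop, (max (max 2 m₁) (max z (K ^ 3))) ≤ Nat.log 2 H / 3 ∧
      (128 * (K + 1) * 320 ^ 10 / η) ≤ (H : ℝ) ^ ((1 : ℝ) / 200) ∧
      ((max (max n₁ m₂) (4 * K + 3) : ℕ) : ℝ) ≤ (H : ℝ) ^ ((1 : ℝ) / 200) ∧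
      ((Nat.log 2 H / 3 : ℕ) : ℝ) ≤ (H : ℝ) ^ ((1 : ℝ) / 200) ∧ 1 ≤ H := by
    filter_upwards [ev_i0 (max (max 2 m₁) (max z (K ^ 3))), ev_t (128 * (K + 1) * 320 ^ 10 / η),
      ev_t ((max (max n₁ m₂) (4 * K + 3) : ℕ) : ℝ), ev_logt, eventually_ge_atTop 1] with H h1 h2 h3 h4 h5
    exact ⟨h1, h2, h3, h4, h5⟩
  obtain ⟨H₀, hH₀⟩ := eventually_atTop.1 hev
  refine ⟨H₀, fun H hH => ?_⟩
  obtain ⟨c1, c2, c3, c4, c5⟩ := hH₀ H hH
  set i0 := Nat.log 2 H / 3 with hi0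
  set t : ℝ := (H : ℝ) ^ ((1 : ℝ) / 200) with ht
  set I := ⌈t⌉₊ with hI
  have hH0 : (1 : ℝ) ≤ H := by exact_mod_cast c5
  have hi2 : 2 ≤ i0 := ((le_max_left _ _).trans (le_max_left _ _)).trans c1
  have him : m₁ ≤ i0 := ((le_max_right _ _).trans (le_max_left _ _)).trans c1
  have hiz : z ≤ i0 := ((le_max_left _ _).trans (le_max_right _ _)).trans c1
  have hiK : K ^ 3 ≤ i0 := ((le_max_right _ _).trans (le_max_right _ _)).trans c1
  have htI : t ≤ I := Nat.le_ceil t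
  have hIn : n₁ ≤ I := by
    have h1 : ((n₁ : ℕ) : ℝ) ≤ I := le_trans (by exact_mod_cast ((le_max_left _ _).trans (le_max_left _ _))) (c3.trans htI)
    exact_mod_cast h1
  have hIm : m₂ ≤ I := by
    have h1 : ((m₂ : ℕ) : ℝ) ≤ I := le_trans (by exact_mod_cast ((le_max_right _ _).trans (le_max_left _ _))) (c3.trans htI)
    exact_mod_cast h1
  have hIK : 4 * K + 3 ≤ I := by
    have h1 : ((4 * K + 3 : ℕ) : ℝ) ≤ I := le_trans (by exact_mod_cast (le_max_right _ _)) (c3.trans htI)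
    exact_mod_cast h1
  have hiI : i0 ≤ I := by
    have h1 : (i0 : ℝ) ≤ I := c4.trans htI
    exact_mod_cast h1
  have ht1 : 1 ≤ t := Real.one_le_rpow hH0 (by norm_num)
  have hI2t : (I : ℝ) ≤ 2 * t := by
    have := Nat.ceil_lt_add_one (show 0 ≤ t by linarith)
    linarith
  have ht200 : t ^ 200 = H := by
    rw [ht, ← Real.rpow_natCast, ← Real.rpow_mul (by positivity)]
    norm_num
  have hHI : H ≤ I ^ 200 := by
    have h1 : (H : ℝ) ≤ (I : ℝ) ^ 200 := by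
      rw [← ht200]
      exact pow_le_pow_left₀ (by linarith) htI 200
    exact_mod_cast h1
  -- size of the discriminants
  have hΔ : ∀ c ∈ Icc 1 H, (b ^ 2 - 4 * a * (c : ℤ)).natAbs ≤ K * H := by
    intro c hc
    rw [mem_Icc] at hc
    calc (b ^ 2 - 4 * a * (c : ℤ)).natAbs ≤ (b ^ 2).natAbs + (4 * a * (c : ℤ)).natAbs := Int.natAbs_sub_le _ _
      _ = b.natAbs ^ 2 + 4 * a.natAbs * c := by
          rw [Int.natAbs_pow, Int.natAbs_mul, Int.natAbs_mul]; rfl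
      _ ≤ b.natAbs ^ 2 * H + 4 * a.natAbs * H := by
          apply add_le_add
          · exact Nat.le_mul_of_pos_right _ (by omega)
          · exact Nat.mul_le_mul_left _ hc.2
      _ = K * H := by rw [hK]; ring
  -- powers of two
  have hp1 : (2 ^ i0) ^ 3 ≤ H := by
    rw [← pow_mul]
    calc 2 ^ (i0 * 3) ≤ 2 ^ Nat.log 2 H := Nat.pow_le_pow_right (by norm_num) (Nat.div_mul_le_self _ _)
      _ ≤ H := Nat.pow_log_le_self 2 (by omega)
  have hp2 : H ≤ (2 * 2 ^ i0) ^ 3 := by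
    have h1 : H < 2 ^ (Nat.log 2 H + 1) := Nat.lt_pow_succ_log_self (by norm_num) H
    have h2 : Nat.log 2 H + 1 ≤ 3 * (i0 + 1) := by
      have := Nat.div_add_mod (Nat.log 2 H) 3
      have := Nat.mod_lt (Nat.log 2 H) (show 0 < 3 by norm_num)
      omega
    calc H ≤ 2 ^ (Nat.log 2 H + 1) := h1.le
      _ ≤ 2 ^ (3 * (i0 + 1)) := Nat.pow_le_pow_right (by norm_num) h2
      _ = (2 * 2 ^ i0) ^ 3 := by rw [← pow_succ', ← pow_mul]; ring_nf
  have hi2i : i0 < 2 ^ i0 := Nat.lt_two_pow_self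
  have hΔ3 : (K * H) ^ 3 ≤ (2 * 2 ^ i0) ^ 10 := by
    calc (K * H) ^ 3 = K ^ 3 * H ^ 3 := mul_pow _ _ _
      _ ≤ (2 * 2 ^ i0) * ((2 * 2 ^ i0) ^ 3) ^ 3 := by
          apply Nat.mul_le_mul
          · omega
          · exact Nat.pow_le_pow_left hp2 3
      _ = (2 * 2 ^ i0) ^ 10 := by ring
  have hL : Nat.log 2 (K * H) ≤ K + 3 * i0 + 3 := by
    apply Nat.le_of_lt_succ
    apply Nat.log_lt_of_lt_pow'
    · omega
    · calc K * H ≤ 2 ^ K * (2 * 2 ^ i0) ^ 3 := Nat.mul_le_mul Nat.lt_two_pow_self.le hp2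
        _ = 2 ^ (K + 3 * i0 + 3) := by
            rw [← pow_succ', ← pow_mul, ← pow_add]; ring_nf
        _ < 2 ^ (K + 3 * i0 + 3 + 1) := Nat.pow_lt_pow_right (by norm_num) (by omega)
  -- the first exceptional set
  set P := (Ioc z (2 ^ i0)).filter Nat.Prime with hP
  have hPp : ∀ p ∈ P, p.Prime ∧ p ≠ 2 ∧ z < p ∧ p ≤ 2 ^ i0 ∧ ¬ (p : ℤ) ∣ (-4 * a) := by
    intro p hp
    rw [hP, mem_filter, mem_Ioc] at hp
    refine ⟨hp.2, by omega, hp.1.1, hp.1.2, ?_⟩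
    intro hd
    have h1 : (p : ℤ) ∣ 4 * a := by
      have := (dvd_neg (α := ℤ)).2 hd
      simpa using this
    rcases (Nat.prime_iff_prime_int.1 hp.2).dvd_or_dvd h1 with h2 | h2
    · have h3 : p ∣ 2 ^ 2 := by exact_mod_cast h2
      have := Nat.le_of_dvd (by norm_num) (hp.2.dvd_of_dvd_pow h3)
      omega
    · have h5 := Nat.le_of_dvd (Int.natAbs_pos.2 ha) (Int.natCast_dvd.1 h2)
      omega
  have hlow := low_count (b ^ 2 - 4 * a) (-4 * a) P z (2 ^ i0) H (by omega) hPp (ε / 3) (by positivity)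
  set E1' := (range H).filter (fun c : ℕ => ε / 3 < |∑ p ∈ P, (jacobiSym ((b ^ 2 - 4 * a) + (-4 * a) * c) p : ℝ) / p|) with hE1'
  set E1 := E1'.image (fun c => c + 1) with hE1
  have hE1c : (#E1 : ℝ) ≤ η / 2 * H := by
    have h1 : (#E1 : ℝ) ≤ #E1' := by exact_mod_cast card_image_le
    refine h1.trans (hlow.trans ?_)
    have h2 : ((2 ^ i0 : ℕ) : ℝ) ^ 2 ≤ H / z := by
      rw [le_div_iff₀ hz0]
      have h3 : (2 ^ i0) ^ 2 * z ≤ H := by
        calc (2 ^ i0) ^ 2 * z ≤ (2 ^ i0) ^ 2 * 2 ^ i0 := Nat.mul_le_mul_left _ (by omega)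
          _ = (2 ^ i0) ^ 3 := by ring
          _ ≤ H := hp1
      exact_mod_cast h3
    have h4 : (36 : ℝ) / (η * ε ^ 2) * (η * ε ^ 2) = 36 := by field_simp
    have h5 : 36 ≤ z * (η * ε ^ 2) := by
      rw [← h4]
      exact mul_le_mul_of_nonneg_right hzε (by positivity)
    calc ((H : ℝ) / z + ((2 ^ i0 : ℕ) : ℝ) ^ 2) / (ε / 3) ^ 2 ≤ (H / z + H / z) / (ε / 3) ^ 2 := by
          apply div_le_div_of_nonneg_right _ (by positivity)
          linarith
      _ = (18 / (z * ε ^ 2)) * H := by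
          field_simp
          ring
      _ ≤ η / 2 * H := by
          apply mul_le_mul_of_nonneg_right _ (by positivity)
          rw [div_le_iff₀ (by positivity)]
          nlinarith
  -- the second exceptional set
  obtain ⟨E2, hE2c, hE2⟩ := mid_count a b ha H (K * H) i0 I 10 hΔ (by omega) (by norm_num) hΔ3
  have hE2c' : (#E2 : ℝ) ≤ η / 2 * H := by
    refine hE2c.trans ?_
    have h1 : ((Nat.sqrt (K * H) : ℕ) : ℝ) ≤ K * t ^ 100 := by
      have h2 : ((Nat.sqrt (K * H) : ℕ) : ℝ) ^ 2 ≤ (K * t ^ 100) ^ 2 := by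
        have h3 : (Nat.sqrt (K * H)) ^ 2 ≤ K * H := Nat.sqrt_le' _
        calc ((Nat.sqrt (K * H) : ℕ) : ℝ) ^ 2 ≤ ((K * H : ℕ) : ℝ) := by exact_mod_cast h3
          _ = K * t ^ 200 := by rw [ht200]; push_cast; ring
          _ ≤ (K : ℝ) ^ 2 * t ^ 200 := by
              apply mul_le_mul_of_nonneg_right _ (by positivity)
              have : (K : ℝ) ≤ (K : ℝ) ^ 2 := by exact_mod_cast Nat.le_self_pow (by norm_num) K
              exact this
          _ = (K * t ^ 100) ^ 2 := by ring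
      exact (pow_le_pow_iff_left₀ (by positivity) (by positivity) (by norm_num)).1 h2
    have h2 : (Nat.sqrt (K * H) : ℝ) + 1 ≤ (K + 1) * t ^ 100 := by
      have : 1 ≤ t ^ 100 := one_le_pow₀ ht1
      nlinarith
    have h3 : (I : ℝ) * (8 * (2 * ((10 : ℕ) : ℝ) * (I : ℝ) ^ 4) ^ 10) ≤ 2 * t * (8 * (2 * 10 * (2 * t) ^ 4) ^ 10) := by
      push_cast
      gcongr
    have h4 : (128 * ((K : ℝ) + 1) * 320 ^ 10 / η) * η = 128 * (K + 1) * 320 ^ 10 := by field_simp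
    have h5 : 128 * ((K : ℝ) + 1) * 320 ^ 10 ≤ t * η := by
      rw [← h4]
      exact mul_le_mul_of_nonneg_right c2 hη.le
    have h6 : t ≤ t ^ 59 := le_self_pow₀ ht1 (by norm_num)
    calc 4 * ((Nat.sqrt (K * H) : ℝ) + 1) * ((I : ℝ) * (8 * (2 * ((10 : ℕ) : ℝ) * (I : ℝ) ^ 4) ^ 10))
        ≤ 4 * ((K + 1) * t ^ 100) * (2 * t * (8 * (2 * 10 * (2 * t) ^ 4) ^ 10)) := by
          apply mul_le_mul _ h3 (by positivity) (by positivity)
          linarith
      _ = (128 * (K + 1) * 320 ^ 10) / 2 * t ^ 141 := by ring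
      _ ≤ (t ^ 59 * η) / 2 * t ^ 141 := by
          apply mul_le_mul_of_nonneg_right _ (by positivity)
          have : t * η ≤ t ^ 59 * η := mul_le_mul_of_nonneg_right h6 hη.le
          linarith
      _ = η / 2 * t ^ 200 := by ring
      _ = η / 2 * H := by rw [ht200]
  refine ⟨E1 ∪ E2, ?_, ?_⟩
  · calc (#(E1 ∪ E2) : ℝ) ≤ #E1 + #E2 := by exact_mod_cast card_union_le _ _
      _ ≤ η * H := by linarith
  · intro c hc hcE hsq
    rw [mem_union, not_or] at hcE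
    set D : ℤ := b ^ 2 - 4 * a * (c : ℤ) with hD
    have hD0 : D ≠ 0 := by
      intro h; apply hsq; rw [h]; exact ⟨0, by simp⟩
    have hcI := mem_Icc.1 hc
    have b1 : |SJ D z (2 ^ i0)| ≤ ε / 3 := by
      by_contra hcon
      push Not at hcon
      apply hcE.1
      rw [hE1, mem_image]
      refine ⟨c - 1, ?_, by omega⟩
      rw [hE1', mem_filter, mem_range]
      refine ⟨by omega, ?_⟩
      have e : (b ^ 2 - 4 * a) + (-4 * a) * ((c - 1 : ℕ) : ℤ) = D := by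
        rw [hD, Nat.cast_sub hcI.1]; push_cast; ring
      rw [e]
      exact hcon
    have b2 : |SJ D (2 ^ i0) (2 ^ (I + 1))| ≤ ε / 3 := by
      refine (mid_sum D i0 I (Nat.log 2 (K * H)) (by positivity) hi2 hiI (hE2 c hc hcE.2 hD0)).trans ?_
      refine le_trans ?_ (hm₁ i0 him)
      have h1 : (Nat.log 2 (K * H) : ℝ) ≤ ((K + 3 * i0 + 3 : ℕ) : ℝ) := by exact_mod_cast hL
      gcongr
    have hzi : z ≤ 2 ^ i0 := by omega
    have hII : 2 ^ i0 ≤ 2 ^ (I + 1) := Nat.pow_le_pow_right (by norm_num) (by omega)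
    have hIlt : I + 1 < 2 ^ (I + 1) := Nat.lt_two_pow_self
    filter_upwards [eventually_ge_atTop (2 ^ (I + 1))] with N hN
    have b3 : |SJ D (2 ^ (I + 1)) N| ≤ ε / 3 := by
      refine (hn₁ (2 ^ (I + 1)) (by omega) D hsq ?_ N hN).trans (hm₂ (2 ^ (I + 1)) (by omega))
      have h1 : (4 * D.natAbs : ℝ) ≤ 4 * K * (I : ℝ) ^ 200 := by
        have h2 : 4 * D.natAbs ≤ 4 * K * I ^ 200 := by
          calc 4 * D.natAbs ≤ 4 * (K * H) := Nat.mul_le_mul_left 4 (hΔ c hc)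
            _ ≤ 4 * (K * I ^ 200) := Nat.mul_le_mul_left 4 (Nat.mul_le_mul_left K hHI)
            _ = 4 * K * I ^ 200 := by ring
        exact_mod_cast h2
      have h3 : Real.log ((2 ^ (I + 1) : ℕ) : ℝ) = ((I + 1 : ℕ) : ℝ) * Real.log 2 := by
        push_cast
        rw [Real.log_pow]
        push_cast
        ring
      rw [h3]
      refine h1.trans ?_
      set y : ℝ := ((I + 1 : ℕ) : ℝ) with hy
      have hy4 : 4 ≤ y := by
        rw [hy]; exact_mod_cast (by omega : 4 ≤ I + 1)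
      have hyK : 4 * (K : ℝ) ≤ y := by
        rw [hy]; exact_mod_cast (by omega : 4 * K ≤ I + 1)
      have hyI : (I : ℝ) ≤ y := by rw [hy]; exact_mod_cast (by omega : I ≤ I + 1)
      have h8 : (0.6 : ℝ) < Real.log 2 := by have := Real.log_two_gt_d9; linarith
      have h4 : y ≤ (y * Real.log 2) ^ 2 := by
        have h5 : y * 0.6 ≤ y * Real.log 2 := mul_le_mul_of_nonneg_left h8.le (by linarith)
        have h6 : (y * 0.6) ^ 2 ≤ (y * Real.log 2) ^ 2 := pow_le_pow_left₀ (by positivity) h5 2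
        nlinarith
      calc 4 * (K : ℝ) * (I : ℝ) ^ 200 ≤ y * y ^ 200 := by
            apply mul_le_mul hyK _ (by positivity) (by linarith)
            exact pow_le_pow_left₀ (by positivity) hyI 200
        _ = y ^ 201 := by ring
        _ ≤ ((y * Real.log 2) ^ 2) ^ 201 := pow_le_pow_left₀ (by linarith) h4 201
        _ = (y * Real.log 2) ^ 402 := by rw [← pow_mul]
    rw [SJ_add D z (2 ^ (I + 1)) N (hzi.trans hII) hN, SJ_add D z (2 ^ i0) (2 ^ (I + 1)) hzi hII]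
    refine (abs_add_le _ _).trans ?_
    have h1 := abs_add_le (SJ D z (2 ^ i0)) (SJ D (2 ^ i0) (2 ^ (I + 1)))
    linarith



open Classical in
/-- few leading coefficients give a square discriminant -/
lemma few_squares (c b : ℤ) (hc : c ≠ 0) (η : ℝ) (hη : 0 < η) : ∃ H₀ : ℕ, ∀ H : ℕ, H₀ ≤ H →
    (#((Icc 1 H).filter (fun a : ℕ => IsSquare (b ^ 2 - 4 * c * (a : ℤ)))) : ℝ) ≤ η * H := by
  set K : ℕ := b.natAbs ^ 2 + 4 * c.natAbs with hK
  have hbound : ∀ H : ℕ, 1 ≤ H →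
      #((Icc 1 H).filter (fun a : ℕ => IsSquare (b ^ 2 - 4 * c * (a : ℤ)))) ≤ Nat.sqrt (K * H) + 1 := by
    intro H hH
    rw [← card_range (Nat.sqrt (K * H) + 1)]
    apply card_le_card_of_injOn (fun a : ℕ => Nat.sqrt (b ^ 2 - 4 * c * (a : ℤ)).natAbs)
    · intro a ha
      rw [mem_coe, mem_filter, mem_Icc] at ha
      rw [mem_coe, mem_range, Nat.lt_succ_iff]
      apply Nat.sqrt_le_sqrt
      calc (b ^ 2 - 4 * c * (a : ℤ)).natAbs ≤ (b ^ 2).natAbs + (4 * c * (a : ℤ)).natAbs := Int.natAbs_sub_le _ _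
        _ = b.natAbs ^ 2 + 4 * c.natAbs * a := by
            rw [Int.natAbs_pow, Int.natAbs_mul, Int.natAbs_mul]; rfl
        _ ≤ b.natAbs ^ 2 * H + 4 * c.natAbs * H := by
            apply add_le_add
            · exact Nat.le_mul_of_pos_right _ (by omega)
            · exact Nat.mul_le_mul_left _ ha.1.2
        _ = K * H := by rw [hK]; ring
    · intro a ha a' ha' h
      rw [mem_coe, mem_filter] at ha ha'
      have key : ∀ n : ℕ, IsSquare (b ^ 2 - 4 * c * (n : ℤ)) →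
          b ^ 2 - 4 * c * (n : ℤ) = ((Nat.sqrt (b ^ 2 - 4 * c * (n : ℤ)).natAbs : ℕ) : ℤ) ^ 2 := by
        rintro n ⟨r, hr⟩
        have h1 : (b ^ 2 - 4 * c * (n : ℤ)).natAbs = r.natAbs * r.natAbs := by
          rw [hr, Int.natAbs_mul]
        rw [h1, Nat.sqrt_eq, hr]
        rw [sq, Int.natAbs_mul_self']
      have h1 := key a ha.2
      have h2 := key a' ha'.2
      have h3 : Nat.sqrt (b ^ 2 - 4 * c * (a : ℤ)).natAbs = Nat.sqrt (b ^ 2 - 4 * c * (a' : ℤ)).natAbs := h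
      rw [h3] at h1
      have h4 : 4 * c * ((a : ℤ) - a') = 0 := by
        have : b ^ 2 - 4 * c * (a : ℤ) = b ^ 2 - 4 * c * (a' : ℤ) := by rw [h1, ← h2]
        linarith
      rcases mul_eq_zero.1 h4 with h5 | h5
      · exfalso; apply hc; omega
      · omega
  have hlim : Tendsto (fun H : ℕ => ((K : ℝ) + 1) / Real.sqrt H) atTop (𝓝 0) := by
    apply Tendsto.div_atTop tendsto_const_nhds
    exact Real.tendsto_sqrt_atTop.comp tendsto_natCast_atTop_atTop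
  obtain ⟨H₀, hH₀⟩ := eventually_atTop.1 (hlim.eventually (ge_mem_nhds hη))
  refine ⟨max H₀ 1, fun H hH => ?_⟩
  have hH1 : 1 ≤ H := (le_max_right _ _).trans hH
  have h1 := hH₀ H ((le_max_left _ _).trans hH)
  have hHr : (1 : ℝ) ≤ H := by exact_mod_cast hH1
  have hs1 : 1 ≤ Real.sqrt H := by rw [Real.one_le_sqrt]; exact hHr
  have hs0 : 0 < Real.sqrt H := by linarith
  have hsq : Real.sqrt H * Real.sqrt H = H := Real.mul_self_sqrt (by linarith)
  have h2 : ((Nat.sqrt (K * H) : ℕ) : ℝ) ≤ K * Real.sqrt H := by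
    have h3 : (((Nat.sqrt (K * H) : ℕ) : ℝ)) ^ 2 ≤ (K * Real.sqrt H) ^ 2 := by
      have h4 : (Nat.sqrt (K * H)) ^ 2 ≤ K * H := Nat.sqrt_le' _
      have h5 : (((Nat.sqrt (K * H) : ℕ) : ℝ)) ^ 2 ≤ (K : ℝ) * H := by exact_mod_cast h4
      have h6 : (K : ℝ) ≤ (K : ℝ) ^ 2 := by exact_mod_cast Nat.le_self_pow (by norm_num) K
      calc (((Nat.sqrt (K * H) : ℕ) : ℝ)) ^ 2 ≤ (K : ℝ) * H := h5
        _ ≤ (K : ℝ) ^ 2 * H := by gcongr
        _ = (K * Real.sqrt H) ^ 2 := by rw [mul_pow, Real.sq_sqrt (by linarith)]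
    exact (pow_le_pow_iff_left₀ (by positivity) (by positivity) (by norm_num)).1 h3
  have h7 : (#((Icc 1 H).filter (fun a : ℕ => IsSquare (b ^ 2 - 4 * c * (a : ℤ)))) : ℝ) ≤
      ((Nat.sqrt (K * H) : ℕ) : ℝ) + 1 := by exact_mod_cast hbound H hH1
  rw [div_le_iff₀ hs0] at h1
  calc _ ≤ ((Nat.sqrt (K * H) : ℕ) : ℝ) + 1 := h7
    _ ≤ K * Real.sqrt H + 1 * Real.sqrt H := by linarith
    _ = (K + 1) * Real.sqrt H := by ring
    _ ≤ (η * Real.sqrt H) * Real.sqrt H := by gcongr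
    _ = η * H := by rw [mul_assoc, hsq]

/-- the sum of `1 / p` over the prime factors `p > z` -/
noncomputable def bigP (z a : ℕ) : ℝ := ∑ p ∈ a.primeFactors.filter (fun p => z < p), 1 / (p : ℝ)

lemma bigP_nonneg (z a : ℕ) : 0 ≤ bigP z a := sum_nonneg fun _ _ => by positivity

open Classical in
/-- few integers have a large sum over their large prime factors -/
lemma few_bigP (ε η : ℝ) (hε : 0 < ε) (hη : 0 < η) : ∃ z₀ : ℕ, ∀ z : ℕ, z₀ ≤ z → ∀ H : ℕ,
    (#((Icc 1 H).filter (fun a : ℕ => ε < bigP z a)) : ℝ) ≤ η * H := by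
  refine ⟨max 1 ⌈1 / (η * ε)⌉₊, fun z hz H => ?_⟩
  have hz1 : 1 ≤ z := (le_max_left _ _).trans hz
  have hzr : 1 / (η * ε) ≤ z := (Nat.le_ceil _).trans (by exact_mod_cast (le_max_right _ _).trans hz)
  have hz0 : (0 : ℝ) < z := by exact_mod_cast (by omega : 0 < z)
  have hsum : ∑ a ∈ Icc 1 H, bigP z a ≤ H / z := by
    have h1 : ∀ a ∈ Icc 1 H, bigP z a ≤ ∑ p ∈ Ioc z H, (if p ∣ a then 1 / (p : ℝ) else 0) := by
      intro a ha
      rw [mem_Icc] at ha
      unfold bigP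
      rw [← sum_filter]
      apply sum_le_sum_of_subset_of_nonneg
      · intro p hp
        rw [mem_filter, Nat.mem_primeFactors] at hp
        rw [mem_filter, mem_Ioc]
        have := Nat.le_of_dvd (by omega) hp.1.2.1
        exact ⟨⟨hp.2, by omega⟩, hp.1.2.1⟩
      · intro p _ _; positivity
    refine (sum_le_sum h1).trans ?_
    rw [sum_comm]
    have h2 : ∀ p ∈ Ioc z H, ∑ a ∈ Icc 1 H, (if p ∣ a then 1 / (p : ℝ) else 0) ≤ H * (1 / (p : ℝ) ^ 2) := by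
      intro p hp
      rw [mem_Ioc] at hp
      have hp0 : (0 : ℝ) < p := by exact_mod_cast (by omega : 0 < p)
      rw [← sum_filter, sum_const, nsmul_eq_mul]
      have h3 : #((Icc 1 H).filter (fun a => p ∣ a)) = H / p := by
        have h4 : (Icc 1 H).filter (fun a => p ∣ a) = (Ioc 0 H).filter (fun a => p ∣ a) := by
          congr 1
        rw [h4, Nat.Ioc_filter_dvd_card_eq_div]
      rw [h3]
      have h5 : ((H / p : ℕ) : ℝ) ≤ (H : ℝ) / p := Nat.cast_div_le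
      calc ((H / p : ℕ) : ℝ) * (1 / (p : ℝ)) ≤ ((H : ℝ) / p) * (1 / p) := by gcongr
        _ = _ := by field_simp
    refine (sum_le_sum h2).trans ?_
    rw [← mul_sum]
    rcases le_or_gt z H with hzH | hzH
    · have h6 := sum_inv_sq z H hz1 hzH
      have h7 : (0 : ℝ) ≤ 1 / (H : ℝ) := by positivity
      calc (H : ℝ) * ∑ p ∈ Ioc z H, 1 / (p : ℝ) ^ 2 ≤ H * (1 / z) := by
            apply mul_le_mul_of_nonneg_left _ (by positivity); linarith
        _ = H / z := by ring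
    · rw [Ioc_eq_empty (by omega), sum_empty, mul_zero]; positivity
  have h8 : (#((Icc 1 H).filter (fun a : ℕ => ε < bigP z a)) : ℝ) * ε ≤ H / z := by
    calc (#((Icc 1 H).filter (fun a : ℕ => ε < bigP z a)) : ℝ) * ε
        = ∑ a ∈ (Icc 1 H).filter (fun a : ℕ => ε < bigP z a), ε := by
          rw [sum_const, nsmul_eq_mul]
      _ ≤ ∑ a ∈ (Icc 1 H).filter (fun a : ℕ => ε < bigP z a), bigP z a :=
          sum_le_sum fun a ha => (mem_filter.1 ha).2.le
      _ ≤ ∑ a ∈ Icc 1 H, bigP z a :=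
          sum_le_sum_of_subset_of_nonneg (filter_subset _ _) fun a _ _ => bigP_nonneg z a
      _ ≤ _ := hsum
  have h9 : (H : ℝ) / z ≤ η * H * ε := by
    rw [div_le_iff₀ hz0]
    have h10 : 1 ≤ z * (η * ε) := by
      rwa [div_le_iff₀ (by positivity)] at hzr
    have h11 : 0 ≤ (H : ℝ) := by positivity
    nlinarith
  exact le_of_mul_le_mul_right (h8.trans h9) hε

end Q239.LC
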