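import Mathlib
import Pool.Agent.Q239.LC.CMost

set_option autoImplicit false

/-!
Cutting the product of Conjecture F below the prime factors of the leading coefficient.
-/

namespace Q239.LC
open Finset Filter Topology
open Pool.Agent.W468.ConjF

/-- cutting the product -/
lemma CF_split_le (a : ℕ) (b c : ℤ) (ha : 0 < a) (z N : ℕ) (hz : 2 ≤ z) (hN : z ≤ N) :
    CF a b c N ≤ CF a b c z * PJ (b ^ 2 - 4 * a * c) z N * Real.exp (5 * bigP z a) := by
  classical
  set D : ℤ := b ^ 2 - 4 * a * c with hD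
  set f : ℕ → ℝ := fun p => 1 - (jacobiSym D p : ℝ) / (p - 1) with hf
  set A := (Ioc z N).filter Nat.Prime with hA
  set A1 := A.filter (fun p : ℕ => (p : ℤ) ∣ a ∧ (p : ℤ) ∣ b) with hA1
  set A2 := A.filter (fun p : ℕ => ¬ (p : ℤ) ∣ a) with hA2
  set A3 := A.filter (fun p : ℕ => (p : ℤ) ∣ a) with hA3
  have e1 : (range (N + 1)).filter (fun p : ℕ => p.Prime ∧ 3 ≤ p ∧ (p : ℤ) ∣ (a : ℤ) ∧ (p : ℤ) ∣ b) =
      (range (z + 1)).filter (fun p : ℕ => p.Prime ∧ 3 ≤ p ∧ (p : ℤ) ∣ (a : ℤ) ∧ (p : ℤ) ∣ b) ∪ A1 := by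
    ext p
    simp only [hA1, hA, mem_filter, mem_range, mem_union, mem_Ioc]
    constructor
    · rintro ⟨h0, h1, h2, h3, h4⟩
      by_cases h5 : p < z + 1
      · exact Or.inl ⟨h5, h1, h2, h3, h4⟩
      · exact Or.inr ⟨⟨⟨by omega, by omega⟩, h1⟩, h3, h4⟩
    · rintro (⟨h0, h1, h2, h3, h4⟩ | ⟨⟨⟨h0, h5⟩, h1⟩, h3, h4⟩)
      · exact ⟨by omega, h1, h2, h3, h4⟩
      · exact ⟨by omega, h1, by omega, h3, h4⟩
  have e2 : (range (N + 1)).filter (fun p : ℕ => p.Prime ∧ 3 ≤ p ∧ ¬ (p : ℤ) ∣ (a : ℤ)) =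
      (range (z + 1)).filter (fun p : ℕ => p.Prime ∧ 3 ≤ p ∧ ¬ (p : ℤ) ∣ (a : ℤ)) ∪ A2 := by
    ext p
    simp only [hA2, hA, mem_filter, mem_range, mem_union, mem_Ioc]
    constructor
    · rintro ⟨h0, h1, h2, h3⟩
      by_cases h5 : p < z + 1
      · exact Or.inl ⟨h5, h1, h2, h3⟩
      · exact Or.inr ⟨⟨⟨by omega, by omega⟩, h1⟩, h3⟩
    · rintro (⟨h0, h1, h2, h3⟩ | ⟨⟨⟨h0, h5⟩, h1⟩, h3⟩)
      · exact ⟨by omega, h1, h2, h3⟩
      · exact ⟨by omega, h1, by omega, h3⟩
  have d1 : Disjoint ((range (z + 1)).filter (fun p : ℕ => p.Prime ∧ 3 ≤ p ∧ (p : ℤ) ∣ (a : ℤ) ∧ (p : ℤ) ∣ b)) A1 := by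
    rw [Finset.disjoint_left]
    intro p h1 h2
    simp only [hA1, hA, mem_filter, mem_range, mem_Ioc] at h1 h2
    omega
  have d2 : Disjoint ((range (z + 1)).filter (fun p : ℕ => p.Prime ∧ 3 ≤ p ∧ ¬ (p : ℤ) ∣ (a : ℤ))) A2 := by
    rw [Finset.disjoint_left]
    intro p h1 h2
    simp only [hA2, hA, mem_filter, mem_range, mem_Ioc] at h1 h2
    omega
  have hsplit : CF a b c N = CF a b c z * (∏ p ∈ A1, (p : ℝ) / (p - 1)) * ∏ p ∈ A2, f p := by
    unfold CF
    rw [e1, e2, prod_union d1, prod_union d2]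
    ring
  have hA3p : ∀ p ∈ A3, p.Prime ∧ z < p ∧ p ∣ a := by
    intro p hp
    simp only [hA3, hA, mem_filter, mem_Ioc] at hp
    exact ⟨hp.1.2, hp.1.1.1, by exact_mod_cast hp.2⟩
  have hPJ : PJ D z N = (∏ p ∈ A3, f p) * ∏ p ∈ A2, f p := by
    unfold PJ
    rw [← prod_filter_mul_prod_filter_not A (fun p : ℕ => (p : ℤ) ∣ (a : ℤ))]
  have hf3 : ∀ p ∈ A3, 0 < f p := fun p hp => factor_pos D p (by have := hA3p p hp; omega)
  have hf3' : 0 < ∏ p ∈ A3, f p := prod_pos hf3
  have hbig : ∑ p ∈ A3, 1 / (p : ℝ) ≤ bigP z a := by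
    unfold bigP
    apply sum_le_sum_of_subset_of_nonneg
    · intro p hp
      obtain ⟨h1, h2, h3⟩ := hA3p p hp
      rw [mem_filter, Nat.mem_primeFactors]
      exact ⟨⟨h1, h3, by omega⟩, h2⟩
    · intro p _ _; positivity
  have h2 : ∏ p ∈ A2, f p ≤ PJ D z N * Real.exp (3 * bigP z a) := by
    have h3 : (∏ p ∈ A3, f p)⁻¹ ≤ Real.exp (3 * bigP z a) := by
      rw [← prod_inv_distrib]
      calc ∏ p ∈ A3, (f p)⁻¹ ≤ ∏ p ∈ A3, Real.exp (3 * (1 / (p : ℝ))) := by
            apply Finset.prod_le_prod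
            · intro p hp; exact (inv_pos.2 (hf3 p hp)).le
            · intro p hp
              have hp3 : 3 ≤ p := by have := hA3p p hp; omega
              have hp3r : (3 : ℝ) ≤ p := by exact_mod_cast hp3
              have h4 := js_abs D p
              have h5 : 1 - 1 / ((p : ℝ) - 1) ≤ f p := by
                rw [hf]
                simp only
                apply sub_le_sub_left
                apply div_le_div_of_nonneg_right (abs_le.1 h4).2
                linarith
              have h6 : 1 - 1 / ((p : ℝ) - 1) = ((p : ℝ) - 2) / (p - 1) := by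
                have : (p : ℝ) - 1 ≠ 0 := by linarith
                field_simp
                ring
              have h7 : 0 < ((p : ℝ) - 2) / (p - 1) := by
                apply div_pos <;> linarith
              have h8 : (f p)⁻¹ ≤ (((p : ℝ) - 2) / (p - 1))⁻¹ := by
                apply inv_anti₀ h7
                rw [← h6]; exact h5
              have h9 : (((p : ℝ) - 2) / (p - 1))⁻¹ ≤ 1 + 3 * (1 / (p : ℝ)) := by
                rw [inv_div, div_le_iff₀ (by linarith)]
                have h10 : (1 + 3 * (1 / (p : ℝ))) * (p - 2) = p + 1 - 6 / p := by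
                  have : (p : ℝ) ≠ 0 := by linarith
                  field_simp
                  ring
                rw [h10]
                have h11 : 6 / (p : ℝ) ≤ 2 := by
                  rw [div_le_iff₀ (by linarith)]; linarith
                linarith
              have h12 := Real.add_one_le_exp (3 * (1 / (p : ℝ)))
              linarith
        _ = Real.exp (3 * ∑ p ∈ A3, 1 / (p : ℝ)) := by
            rw [← Real.exp_sum, mul_sum]
        _ ≤ _ := by
            apply Real.exp_le_exp.2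
            linarith
    have h4 : ∏ p ∈ A2, f p = PJ D z N * (∏ p ∈ A3, f p)⁻¹ := by
      rw [hPJ]
      field_simp
    rw [h4]
    exact mul_le_mul_of_nonneg_left h3 (PJ_pos D z N hz).le
  have h1 : ∏ p ∈ A1, (p : ℝ) / (p - 1) ≤ Real.exp (2 * bigP z a) := by
    have hA1p : ∀ p ∈ A1, p.Prime ∧ z < p ∧ p ∣ a := by
      intro p hp
      simp only [hA1, hA, mem_filter, mem_Ioc] at hp
      exact ⟨hp.1.2, hp.1.1.1, by exact_mod_cast hp.2.1⟩
    calc ∏ p ∈ A1, (p : ℝ) / (p - 1) ≤ ∏ p ∈ A1, Real.exp (2 * (1 / (p : ℝ))) := by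
          apply Finset.prod_le_prod
          · intro p hp
            have hp3 : 3 ≤ p := by have := hA1p p hp; omega
            have hp3r : (3 : ℝ) ≤ p := by exact_mod_cast hp3
            apply div_nonneg <;> linarith
          · intro p hp
            have hp3 : 3 ≤ p := by have := hA1p p hp; omega
            have hp3r : (3 : ℝ) ≤ p := by exact_mod_cast hp3
            have h9 : (p : ℝ) / (p - 1) ≤ 1 + 2 * (1 / (p : ℝ)) := by
              rw [div_le_iff₀ (by linarith)]
              have h10 : (1 + 2 * (1 / (p : ℝ))) * (p - 1) = p + 1 - 2 / p := by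
                have : (p : ℝ) ≠ 0 := by linarith
                field_simp
                ring
              rw [h10]
              have h11 : 2 / (p : ℝ) ≤ 1 := by
                rw [div_le_iff₀ (by linarith)]; linarith
              linarith
            have h12 := Real.add_one_le_exp (2 * (1 / (p : ℝ)))
            linarith
      _ = Real.exp (2 * ∑ p ∈ A1, 1 / (p : ℝ)) := by
          rw [← Real.exp_sum, mul_sum]
      _ ≤ _ := by
          apply Real.exp_le_exp.2
          have h13 : ∑ p ∈ A1, 1 / (p : ℝ) ≤ bigP z a := by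
            unfold bigP
            apply sum_le_sum_of_subset_of_nonneg
            · intro p hp
              obtain ⟨h1, h2, h3⟩ := hA1p p hp
              rw [mem_filter, Nat.mem_primeFactors]
              exact ⟨⟨h1, h3, by omega⟩, h2⟩
            · intro p _ _; positivity
          linarith
  have hCF := CF_pos a b c z
  have h20 : 0 ≤ ∏ p ∈ A2, f p := by
    apply prod_nonneg
    intro p hp
    simp only [hA2, hA, mem_filter, mem_Ioc] at hp
    exact (factor_pos D p (by omega)).le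
  rw [hsplit]
  have e5 : Real.exp (5 * bigP z a) = Real.exp (2 * bigP z a) * Real.exp (3 * bigP z a) := by
    rw [← Real.exp_add]; congr 1; ring
  rw [e5]
  calc CF a b c z * (∏ p ∈ A1, (p : ℝ) / (p - 1)) * ∏ p ∈ A2, f p
      ≤ CF a b c z * Real.exp (2 * bigP z a) * (PJ D z N * Real.exp (3 * bigP z a)) := by
        have := PJ_pos D z N hz
        gcongr
    _ = _ := by ring

/-- comparison of the constant with the cut product -/
theorem CF_limit_le' (a : ℕ) (b c : ℤ) (ha : 0 < a) (K : ℝ)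
    (hK : Tendsto (fun z => CF a b c z) atTop (𝓝 K)) (z : ℕ)
    (hz : 2 ≤ z) (ε : ℝ) (hε : ∀ᶠ N in atTop, |SJ (b ^ 2 - 4 * a * c) z N| ≤ ε) :
    K ≤ CF a b c z * Real.exp (ε + 1 / z + 5 * bigP z a) := by
  apply le_of_tendsto hK
  filter_upwards [hε, eventually_ge_atTop z] with N h1 hN
  refine (CF_split_le a b c ha z N hz hN).trans ?_
  have h2 : PJ (b ^ 2 - 4 * a * c) z N ≤ Real.exp (ε + 1 / z) :=
    (PJ_le _ z N hz hN).trans (Real.exp_le_exp.2 (by linarith))
  rw [Real.exp_add (ε + 1 / z), mul_assoc]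
  have := CF_pos a b c z
  gcongr

end Q239.LC
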