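import Mathlib
import Pool.Agent.Q239.LC.PairE
import Pool.Agent.W218.LF.Second2

set_option autoImplicit false

/-! Second moment over one coefficient of each of `k` polynomials. -/

namespace Q239.LC

open Finset Pool.Agent.Erdos456 Pool.Agent.Erdos456.Mert Pool.Agent.W218.HF Pool.Agent.W218.LF

/-- moment of the determinants for one polynomial -/
lemma det_moment' (m d E : ℕ) (hm : 1 ≤ m) (hE : 1 ≤ E) (δ : ℝ) (hδ : 0 < δ) : ∃ C : ℝ, 0 < C ∧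
    ∀ (B x e : ℕ) (g : Polynomial ℤ), 4 * (2 * E).factorial ≤ B → Real.log B ≤ x → 1 ≤ e → e ≤ E →
    g.natDegree ≤ d →
    g.coeff 0 ≠ 0 → δ * (g.coeff 0).natAbs ≤ Nat.totient (g.coeff 0).natAbs →
    (∀ t ∈ Icc 1 x, |((g.eval (t : ℤ) : ℤ) : ℝ)| ≤ 2 * B * x ^ e) →
    ∑ t₁ ∈ Icc 1 x, ∑ t₂ ∈ Icc 1 x,
      GG (((t₁ ^ e : ℕ) : ℤ) * g.eval (t₂ : ℤ) - ((t₂ ^ e : ℕ) : ℤ) * g.eval (t₁ : ℤ)).natAbs ^ m ≤
      C * x ^ 2 := by
  obtain ⟨C₁, hC₁, h1⟩ := gmom_id m hm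
  obtain ⟨C₂, hC₂, h2⟩ := gmom m (d + E) hm
  refine ⟨C₂ * (1 / δ) ^ m * C₁, by positivity, ?_⟩
  intro B x e g hB hlog he1 heE hg hc hδc hbd
  have hfac : 1 ≤ (2 * E).factorial := Nat.factorial_pos _
  have hB4 : 4 ≤ B := by omega
  have hBr : (4 : ℝ) ≤ B := by exact_mod_cast hB4
  have hlB : 0 < Real.log B := Real.log_pos (by linarith)
  have hx0 : 0 < (x : ℝ) := lt_of_lt_of_le hlB hlog
  have hx1 : 1 ≤ x := by
    have : 0 < x := by exact_mod_cast hx0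
    omega
  have hx1r : (1 : ℝ) ≤ x := by exact_mod_cast hx1
  have hBx : (B : ℝ) ≤ Real.exp x := by
    have := Real.exp_le_exp.2 hlog
    rwa [Real.exp_log (by linarith)] at this
  set c := g.coeff 0 with hcdef
  have hc0 : 0 < c.natAbs := Int.natAbs_pos.2 hc
  have hGc : GG c.natAbs ≤ 1 / δ := by
    unfold GG
    have h2 : (0 : ℝ) < Nat.totient c.natAbs := by exact_mod_cast Nat.totient_pos.2 hc0
    rw [div_le_div_iff₀ h2 hδ]
    linarith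
  have hinner : ∀ t₁ ∈ Icc 1 x, ∑ t₂ ∈ Icc 1 x,
      GG (((t₁ ^ e : ℕ) : ℤ) * g.eval (t₂ : ℤ) - ((t₂ ^ e : ℕ) : ℤ) * g.eval (t₁ : ℤ)).natAbs ^ m ≤
      C₂ * (1 / δ) ^ m * x * GG t₁ ^ m := by
    intro t₁ ht₁
    have ht₁' := mem_Icc.1 ht₁
    have h3 := h2 x (fun t₂ => ((t₁ ^ e : ℕ) : ℤ) * g.eval (t₂ : ℤ) - ((t₂ ^ e : ℕ) : ℤ) * g.eval (t₁ : ℤ))
      (t₁ ^ e * c.natAbs) hx1 (Nat.mul_pos (pow_pos (by omega) e) hc0) (by
        intro t ht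
        have ht' := mem_Icc.1 ht
        have h4 : (((((t₁ ^ e : ℕ) : ℤ) * g.eval (t : ℤ) - ((t ^ e : ℕ) : ℤ) * g.eval (t₁ : ℤ)).natAbs : ℕ) : ℝ) =
            |((t₁ : ℝ) ^ e) * ((g.eval (t : ℤ) : ℤ) : ℝ) - ((t : ℝ) ^ e) * ((g.eval (t₁ : ℤ) : ℤ) : ℝ)| := by
          rw [Nat.cast_natAbs]; push_cast; rfl
        rw [h4]
        have h5 : (t₁ : ℝ) ^ e ≤ (x : ℝ) ^ e := by
          apply pow_le_pow_left₀ (Nat.cast_nonneg _); exact_mod_cast ht₁'.2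
        have h6 : (t : ℝ) ^ e ≤ (x : ℝ) ^ e := by
          apply pow_le_pow_left₀ (Nat.cast_nonneg _); exact_mod_cast ht'.2
        have hxe0 : 0 ≤ (x : ℝ) ^ e := by positivity
        have h7 : |((t₁ : ℝ) ^ e) * ((g.eval (t : ℤ) : ℤ) : ℝ)| ≤ x ^ e * (2 * B * x ^ e) := by
          rw [abs_mul, abs_of_nonneg (by positivity : (0 : ℝ) ≤ (t₁ : ℝ) ^ e)]
          exact mul_le_mul h5 (hbd t ht) (abs_nonneg _) hxe0
        have h8 : |((t : ℝ) ^ e) * ((g.eval (t₁ : ℤ) : ℤ) : ℝ)| ≤ x ^ e * (2 * B * x ^ e) := by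
          rw [abs_mul, abs_of_nonneg (by positivity : (0 : ℝ) ≤ (t : ℝ) ^ e)]
          exact mul_le_mul h6 (hbd t₁ ht₁) (abs_nonneg _) hxe0
        have h9 := abs_sub (((t₁ : ℝ) ^ e) * ((g.eval (t : ℤ) : ℤ) : ℝ)) (((t : ℝ) ^ e) * ((g.eval (t₁ : ℤ) : ℤ) : ℝ))
        have h10 : (x : ℝ) ^ e * x ^ e ≤ (2 * E).factorial * Real.exp x := by
          have i1 := Real.pow_div_factorial_le_exp (x : ℝ) hx0.le (2 * E)
          rw [div_le_iff₀ (by positivity)] at i1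
          calc (x : ℝ) ^ e * x ^ e = x ^ (2 * e) := by rw [two_mul, pow_add]
            _ ≤ x ^ (2 * E) := pow_le_pow_right₀ hx1r (by omega)
            _ ≤ _ := by linarith
        have h11 : (4 : ℝ) * (2 * E).factorial ≤ Real.exp x := by
          refine le_trans ?_ hBx
          exact_mod_cast hB
        have hex1 : 1 ≤ Real.exp x := by
          have := Real.add_one_le_exp (x : ℝ); linarith
        have h14 : Real.exp (4 * x) = Real.exp x * (Real.exp x * (Real.exp x * Real.exp x)) := by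
          rw [← Real.exp_add, ← Real.exp_add, ← Real.exp_add]; congr 1; ring
        rw [h14]
        have h15 : 4 * (B : ℝ) * ((x : ℝ) ^ e * x ^ e) ≤ Real.exp x * (Real.exp x * Real.exp x) := by
          calc 4 * (B : ℝ) * ((x : ℝ) ^ e * x ^ e) ≤ 4 * (B : ℝ) * ((2 * E).factorial * Real.exp x) := by
                gcongr
            _ = (B : ℝ) * ((4 * (2 * E).factorial) * Real.exp x) := by ring
            _ ≤ Real.exp x * (Real.exp x * Real.exp x) := by gcongr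
        have h16 : Real.exp x * (Real.exp x * Real.exp x) ≤
            Real.exp x * (Real.exp x * (Real.exp x * Real.exp x)) := by
          have e0 := Real.exp_pos (x : ℝ)
          apply mul_le_mul_of_nonneg_left _ e0.le
          apply mul_le_mul_of_nonneg_left _ e0.le
          nlinarith
        have e4 : (x : ℝ) ^ e * (2 * B * x ^ e) + x ^ e * (2 * B * x ^ e) = 4 * B * (x ^ e * x ^ e) := by ring
        linarith) (by
        intro p hp hpd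
        have h16 : ∀ t : ℕ, ((t₁ ^ e : ℕ) : ℤ) * g.eval (t : ℤ) - ((t ^ e : ℕ) : ℤ) * g.eval (t₁ : ℤ) =
            (Polynomial.C ((t₁ ^ e : ℕ) : ℤ) * g - Polynomial.C (g.eval (t₁ : ℤ)) * Polynomial.X ^ e).eval
              (t : ℤ) := by
          intro t
          simp only [Polynomial.eval_sub, Polynomial.eval_mul, Polynomial.eval_C,
            Polynomial.eval_X, Polynomial.eval_pow]
          push_cast
          ring
        have h17 : (Polynomial.C ((t₁ ^ e : ℕ) : ℤ) * g -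
            Polynomial.C (g.eval (t₁ : ℤ)) * Polynomial.X ^ e).natDegree ≤ d + E := by
          refine (Polynomial.natDegree_sub_le _ _).trans (max_le ?_ ?_)
          · exact ((Polynomial.natDegree_C_mul_le _ _).trans hg).trans (by omega)
          · refine (Polynomial.natDegree_C_mul_le _ _).trans ?_
            rw [Polynomial.natDegree_X_pow]; omega
        have h18 : (Polynomial.C ((t₁ ^ e : ℕ) : ℤ) * g -
            Polynomial.C (g.eval (t₁ : ℤ)) * Polynomial.X ^ e).coeff 0 = ((t₁ ^ e : ℕ) : ℤ) * c := by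
          rw [Polynomial.coeff_sub, Polynomial.coeff_C_mul, Polynomial.coeff_C_mul,
            Polynomial.coeff_X_pow, if_neg (by omega)]
          ring
        have h19 := poly_zeros (Polynomial.C ((t₁ ^ e : ℕ) : ℤ) * g -
            Polynomial.C (g.eval (t₁ : ℤ)) * Polynomial.X ^ e) (d + E) h17 p hp (by
          rw [h18, Int.natAbs_mul, Int.natAbs_natCast]; exact hpd)
        obtain ⟨Z, hZ1, hZ2, hZ3⟩ := h19
        refine ⟨Z, hZ1, hZ2, fun t ht => hZ3 t ?_⟩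
        rw [← h16]; exact ht)
    refine h3.trans ?_
    have h20 : GG (t₁ ^ e * c.natAbs) ≤ GG t₁ * (1 / δ) := by
      have h21 : GG (t₁ ^ e * c.natAbs) ≤ GG t₁ * GG c.natAbs := by
        have := GG_mul_le (t₁ ^ e) c.natAbs
        rwa [GG_pow he1] at this
      exact h21.trans (mul_le_mul_of_nonneg_left hGc (GG_nonneg _))
    calc C₂ * GG (t₁ ^ e * c.natAbs) ^ m * x ≤ C₂ * (GG t₁ * (1 / δ)) ^ m * x := by
          have := GG_nonneg (t₁ ^ e * c.natAbs)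
          gcongr
      _ = _ := by rw [mul_pow]; ring
  refine (sum_le_sum hinner).trans ?_
  rw [← mul_sum]
  have h21 := h1 x
  calc C₂ * (1 / δ) ^ m * x * ∑ t ∈ Icc 1 x, GG t ^ m ≤ C₂ * (1 / δ) ^ m * x * (C₁ * x) := by gcongr
    _ = _ := by ring

theorem second3 (k d E : ℕ) (hk : 1 ≤ k) (hE : 1 ≤ E) (δ : ℝ) (hδ : 0 < δ) : ∃ C : ℝ, 0 < C ∧
    ∀ (B b1 x : ℕ) (e : Fin k → ℕ) (g : Fin k → Polynomial ℤ) (T : Finset ℕ),
    4 * (2 * E).factorial ≤ B → B ≤ b1 → 2 * b1 ≤ 3 * B →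
    Real.log B ^ k ≤ x → 1 ≤ Real.log B → (∀ i, 1 ≤ e i ∧ e i ≤ E) → (∀ i, (g i).natDegree ≤ d) →
    (∀ i, (g i).coeff 0 ≠ 0 ∧ δ * ((g i).coeff 0).natAbs ≤ Nat.totient ((g i).coeff 0).natAbs) →
    (∀ i, ∀ t ∈ Icc 1 x, |(((g i).eval (t : ℤ) : ℤ) : ℝ)| ≤ 2 * B * x ^ e i) → T ⊆ Icc 1 x →
    (∀ t ∈ T, ∀ i, Nat.Coprime t ((g i).coeff 0).natAbs ∧
      0 ≤ (g i).eval (t : ℤ) + b1 * ((t ^ e i : ℕ) : ℤ)) →
    ∑ b ∈ Fintype.piFinset (fun _ : Fin k => Ioc b1 (2 * B)),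
      (∑ t ∈ T, ∏ i, pr ((g i).eval (t : ℤ) + b i * ((t ^ e i : ℕ) : ℤ))) ^ 2 ≤
      C * (x ^ 2 * (B / Real.log B ^ 2) ^ k) := by
  classical
  obtain ⟨C₁, hC₁, hid⟩ := gmom_id k hk
  obtain ⟨C₂, hC₂, hid6⟩ := gmom_id (6 * k) (by omega)
  obtain ⟨C₃, hC₃, hdet⟩ := det_moment' (6 * k) d E (by omega) hE δ hδ
  obtain ⟨C₄, hC₄, hpair⟩ := pair_count'
  refine ⟨40 ^ k * C₁ + C₄ ^ k * (k * (2 * C₂ + C₃)), by positivity, ?_⟩
  intro B b1 x e g T hBE hb1 hb2 hlog hlB1 he hg hgc hgb hT hTc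
  have hfac : 1 ≤ (2 * E).factorial := Nat.factorial_pos _
  have hB : 4 ≤ B := by omega
  have hBr : (4 : ℝ) ≤ B := by exact_mod_cast hB
  have hlB0 : 0 < Real.log B := by linarith
  have hlogx : Real.log B ≤ x := (le_self_pow₀ hlB1 (by omega)).trans hlog
  set Q : ℝ := B / Real.log B ^ 2 with hQ
  have hQ0 : 0 ≤ Q := by positivity
  have hdvd : ∀ (i : Fin k) (t : ℕ), (t : ℤ) ∣ (g i).eval (t : ℤ) - (g i).coeff 0 := by
    intro i t
    have h := Polynomial.sub_dvd_eval_sub (t : ℤ) 0 (g i)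
    rw [sub_zero, ← Polynomial.coeff_zero_eq_eval_zero] at h
    exact h
  have hcopG : ∀ (i : Fin k) (t : ℕ), Nat.Coprime t ((g i).coeff 0).natAbs →
      Nat.Coprime (t ^ e i) ((g i).eval (t : ℤ)).natAbs := by
    intro i t h
    apply Nat.Coprime.pow_left
    obtain ⟨u, hu⟩ := hdvd i t
    have h6 : IsCoprime (t : ℤ) ((g i).coeff 0) := by
      rw [Int.isCoprime_iff_gcd_eq_one]
      exact h
    have h7 : IsCoprime (t : ℤ) ((g i).eval (t : ℤ)) := by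
      have := h6.add_mul_left_right u
      have e3 : (g i).coeff 0 + t * u = (g i).eval (t : ℤ) := by linear_combination -hu
      rwa [e3] at this
    rw [Int.isCoprime_iff_gcd_eq_one] at h7
    exact h7
  -- expand
  have hexp : ∑ b ∈ Fintype.piFinset (fun _ : Fin k => Ioc b1 (2 * B)),
      (∑ t ∈ T, ∏ i, pr ((g i).eval (t : ℤ) + b i * ((t ^ e i : ℕ) : ℤ))) ^ 2 =
      ∑ t₁ ∈ T, ∑ t₂ ∈ T, ∏ i, ∑ β ∈ Ioc b1 (2 * B),
        pr ((g i).eval (t₁ : ℤ) + β * ((t₁ ^ e i : ℕ) : ℤ)) *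
          pr ((g i).eval (t₂ : ℤ) + β * ((t₂ ^ e i : ℕ) : ℤ)) := by
    have h1 : ∀ b : Fin k → ℕ, (∑ t ∈ T, ∏ i, pr ((g i).eval (t : ℤ) + b i * ((t ^ e i : ℕ) : ℤ))) ^ 2 =
        ∑ t₁ ∈ T, ∑ t₂ ∈ T, ∏ i, (pr ((g i).eval (t₁ : ℤ) + b i * ((t₁ ^ e i : ℕ) : ℤ)) *
          pr ((g i).eval (t₂ : ℤ) + b i * ((t₂ ^ e i : ℕ) : ℤ))) := by
      intro b
      rw [sq, sum_mul_sum]
      apply sum_congr rfl
      intro t₁ _
      apply sum_congr rfl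
      intro t₂ _
      rw [prod_mul_distrib]
    rw [sum_congr rfl fun b _ => h1 b, sum_comm]
    apply sum_congr rfl
    intro t₁ _
    rw [sum_comm]
    apply sum_congr rfl
    intro t₂ _
    rw [Finset.prod_univ_sum]
  rw [hexp]
  set Dt : Fin k → ℕ → ℕ → ℝ := fun i t₁ t₂ =>
    GG (((t₁ ^ e i : ℕ) : ℤ) * (g i).eval (t₂ : ℤ) - ((t₂ ^ e i : ℕ) : ℤ) * (g i).eval (t₁ : ℤ)).natAbs
    with hDt
  have hDt0 : ∀ i t₁ t₂, 0 ≤ Dt i t₁ t₂ := fun i t₁ t₂ => GG_nonneg _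
  have hterm : ∀ t₁ ∈ T, ∀ t₂ ∈ T, ∏ i, ∑ β ∈ Ioc b1 (2 * B),
        pr ((g i).eval (t₁ : ℤ) + β * ((t₁ ^ e i : ℕ) : ℤ)) *
          pr ((g i).eval (t₂ : ℤ) + β * ((t₂ ^ e i : ℕ) : ℤ)) ≤
      (if t₁ = t₂ then 40 ^ k * GG t₁ ^ k * (x * Q ^ k) else 0) +
      C₄ ^ k * Q ^ k * ∑ i, (GG t₁ ^ (6 * k) + GG t₂ ^ (6 * k) + Dt i t₁ t₂ ^ (6 * k)) := by
    intro t₁ h₁ t₂ h₂
    have ht₁ := mem_Icc.1 (hT h₁)
    have ht₂ := mem_Icc.1 (hT h₂)
    have hoff0 : 0 ≤ C₄ ^ k * Q ^ k * ∑ i, (GG t₁ ^ (6 * k) + GG t₂ ^ (6 * k) + Dt i t₁ t₂ ^ (6 * k)) := by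
      have a1 := GG_nonneg t₁
      have a2 := GG_nonneg t₂
      refine mul_nonneg (by positivity) (sum_nonneg fun i _ => ?_)
      have a3 := hDt0 i t₁ t₂
      positivity
    by_cases h12 : t₁ = t₂
    · subst h12
      rw [if_pos rfl]
      have h3 : ∏ i, ∑ β ∈ Ioc b1 (2 * B),
          pr ((g i).eval (t₁ : ℤ) + β * ((t₁ ^ e i : ℕ) : ℤ)) *
            pr ((g i).eval (t₁ : ℤ) + β * ((t₁ ^ e i : ℕ) : ℤ)) ≤
          ∏ _i : Fin k, (40 * GG t₁ * (B / Real.log B)) := by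
        apply prod_le_prod
        · intro i _
          exact sum_nonneg fun β _ => mul_nonneg (pr_nonneg _) (pr_nonneg _)
        · intro i _
          have h4 := single_count hB hb1 hb2 (t := t₁ ^ e i) (G := (g i).eval (t₁ : ℤ))
            (Nat.one_le_pow _ _ ht₁.1) (hTc t₁ h₁ i).2
          rw [GG_pow (he i).1] at h4
          refine le_trans (le_of_eq ?_) h4
          exact sum_congr rfl fun β _ => pr_sq _
      rw [prod_const, card_univ, Fintype.card_fin] at h3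
      have h5 : (40 * GG t₁ * (B / Real.log B)) ^ k = 40 ^ k * GG t₁ ^ k * (Real.log B ^ k * Q ^ k) := by
        rw [← mul_pow, ← mul_pow, ← mul_pow]
        congr 1
        rw [hQ]; field_simp
      have h6 : 40 ^ k * GG t₁ ^ k * (Real.log B ^ k * Q ^ k) ≤ 40 ^ k * GG t₁ ^ k * (x * Q ^ k) := by
        have := GG_nonneg t₁
        gcongr
      linarith
    · rw [if_neg h12, zero_add]
      have h3 : ∏ i, ∑ β ∈ Ioc b1 (2 * B),
          pr ((g i).eval (t₁ : ℤ) + β * ((t₁ ^ e i : ℕ) : ℤ)) *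
            pr ((g i).eval (t₂ : ℤ) + β * ((t₂ ^ e i : ℕ) : ℤ)) ≤
          ∏ i : Fin k, (C₄ * Q * (GG t₁ * GG t₂ * Dt i t₁ t₂) ^ 2) := by
        apply prod_le_prod
        · intro i _
          exact sum_nonneg fun β _ => mul_nonneg (pr_nonneg _) (pr_nonneg _)
        · intro i _
          have hne : t₁ ^ e i ≠ t₂ ^ e i := fun h =>
            h12 (Nat.pow_left_injective (by have := (he i).1; omega) h)
          have h4 := hpair B b1 (t₁ ^ e i) (t₂ ^ e i) ((g i).eval (t₁ : ℤ)) ((g i).eval (t₂ : ℤ))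
            hB hb1 hb2 (Nat.one_le_pow _ _ ht₁.1) (Nat.one_le_pow _ _ ht₂.1) hne
            (hcopG i t₁ (hTc t₁ h₁ i).1) (hcopG i t₂ (hTc t₂ h₂ i).1)
            (hTc t₁ h₁ i).2 (hTc t₂ h₂ i).2
          rw [GG_pow (he i).1, GG_pow (he i).1] at h4
          refine h4.trans (le_of_eq ?_)
          simp only [hDt, hQ]
          ring
      rw [prod_mul_distrib, prod_const, card_univ, Fintype.card_fin, mul_pow] at h3
      refine h3.trans ?_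
      apply mul_le_mul_of_nonneg_left _ (by positivity)
      refine (prod_le_sum_pow hk _ fun i => sq_nonneg _).trans ?_
      apply sum_le_sum
      intro i _
      exact amgm_pow (GG_nonneg _) (GG_nonneg _) (hDt0 _ _ _) k
  -- sum up
  have hall : ∑ t₁ ∈ T, ∑ t₂ ∈ T, ∏ i, ∑ β ∈ Ioc b1 (2 * B),
        pr ((g i).eval (t₁ : ℤ) + β * ((t₁ ^ e i : ℕ) : ℤ)) *
          pr ((g i).eval (t₂ : ℤ) + β * ((t₂ ^ e i : ℕ) : ℤ)) ≤
      ∑ t₁ ∈ Icc 1 x, (40 ^ k * GG t₁ ^ k * (x * Q ^ k)) +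
      ∑ t₁ ∈ Icc 1 x, ∑ t₂ ∈ Icc 1 x, C₄ ^ k * Q ^ k * ∑ i, (GG t₁ ^ (6 * k) + GG t₂ ^ (6 * k) +
        Dt i t₁ t₂ ^ (6 * k)) := by
    have h1 := sum_le_sum fun t₁ h₁ => sum_le_sum fun t₂ h₂ => hterm t₁ h₁ t₂ h₂
    refine h1.trans ?_
    have hnn : ∀ t₁ t₂ : ℕ, 0 ≤ C₄ ^ k * Q ^ k * (∑ i : Fin k, (GG t₁ ^ (6 * k) +
        GG t₂ ^ (6 * k) + Dt i t₁ t₂ ^ (6 * k))) := by
      intro t₁ t₂
      have a1 := GG_nonneg t₁
      have a2 := GG_nonneg t₂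
      refine mul_nonneg (by positivity) (sum_nonneg fun i _ => ?_)
      have a3 := hDt0 i t₁ t₂
      positivity
    rw [Finset.sum_congr rfl fun t₁ _ => sum_add_distrib, sum_add_distrib]
    apply add_le_add
    · have h2 : ∀ t₁ ∈ T, ∑ t₂ ∈ T, (if t₁ = t₂ then 40 ^ k * GG t₁ ^ k * (x * Q ^ k) else 0) =
          40 ^ k * GG t₁ ^ k * (x * Q ^ k) := by
        intro t₁ h₁
        rw [sum_ite_eq, if_pos h₁]
      rw [sum_congr rfl h2]
      apply sum_le_sum_of_subset_of_nonneg hT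
      intro t _ _
      have := GG_nonneg t
      positivity
    · refine (sum_le_sum_of_subset_of_nonneg hT fun t₁ _ _ => sum_nonneg fun t₂ _ => hnn t₁ t₂).trans ?_
      apply sum_le_sum
      intro t₁ _
      exact sum_le_sum_of_subset_of_nonneg hT fun t₂ _ _ => hnn t₁ t₂
  have hdiag : ∑ t₁ ∈ Icc 1 x, (40 ^ k * GG t₁ ^ k * (x * Q ^ k)) ≤
      40 ^ k * C₁ * (x ^ 2 * Q ^ k) := by
    rw [← sum_mul, ← mul_sum]
    have h2 := hid x
    calc (40 ^ k * ∑ t ∈ Icc 1 x, GG t ^ k) * (x * Q ^ k)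
        ≤ (40 ^ k * (C₁ * x)) * (x * Q ^ k) := by gcongr
      _ = _ := by ring
  have hoff : ∑ t₁ ∈ Icc 1 x, ∑ t₂ ∈ Icc 1 x, C₄ ^ k * Q ^ k * ∑ i, (GG t₁ ^ (6 * k) +
        GG t₂ ^ (6 * k) + Dt i t₁ t₂ ^ (6 * k)) ≤
      C₄ ^ k * (k * (2 * C₂ + C₃)) * (x ^ 2 * Q ^ k) := by
    have h1 : ∑ t₁ ∈ Icc 1 x, ∑ t₂ ∈ Icc 1 x, ∑ i : Fin k, (GG t₁ ^ (6 * k) +
        GG t₂ ^ (6 * k) + Dt i t₁ t₂ ^ (6 * k)) ≤ k * (2 * C₂ + C₃) * x ^ 2 := by
      rw [sum3_comm (Icc 1 x) (fun t₁ t₂ i => GG t₁ ^ (6 * k) +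
          GG t₂ ^ (6 * k) + Dt i t₁ t₂ ^ (6 * k))]
      have h2 : ∀ i : Fin k, ∑ t₁ ∈ Icc 1 x, ∑ t₂ ∈ Icc 1 x, (GG t₁ ^ (6 * k) +
        GG t₂ ^ (6 * k) + Dt i t₁ t₂ ^ (6 * k)) ≤ (2 * C₂ + C₃) * x ^ 2 := by
        intro i
        simp only [sum_add_distrib]
        have h3 := hdet B x (e i) (g i) hBE hlogx (he i).1 (he i).2 (hg i) (hgc i).1 (hgc i).2 (hgb i)
        have h4 := hid6 x
        rw [sum_const, nsmul_eq_mul, Nat.card_Icc, Nat.add_sub_cancel]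
        have h5 : ∑ t₁ ∈ Icc 1 x, ∑ _t₂ ∈ Icc 1 x, GG t₁ ^ (6 * k) =
            x * ∑ t₁ ∈ Icc 1 x, GG t₁ ^ (6 * k) := by
          rw [mul_sum]
          apply sum_congr rfl
          intro t₁ _
          rw [sum_const, nsmul_eq_mul, Nat.card_Icc, Nat.add_sub_cancel]
        rw [h5]
        have h6 : (x : ℝ) * ∑ t₁ ∈ Icc 1 x, GG t₁ ^ (6 * k) ≤ x * (C₂ * x) := by gcongr
        have h3' : ∑ t₁ ∈ Icc 1 x, ∑ t₂ ∈ Icc 1 x, Dt i t₁ t₂ ^ (6 * k) ≤ C₃ * x ^ 2 := h3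
        linarith [h6, h3']
      calc _ ≤ ∑ _i : Fin k, (2 * C₂ + C₃) * (x : ℝ) ^ 2 := sum_le_sum fun i _ => h2 i
        _ = _ := by rw [sum_const, card_univ, Fintype.card_fin, nsmul_eq_mul]; ring
    have e2 : ∑ t₁ ∈ Icc 1 x, ∑ t₂ ∈ Icc 1 x, C₄ ^ k * Q ^ k * ∑ i, (GG t₁ ^ (6 * k) +
        GG t₂ ^ (6 * k) + Dt i t₁ t₂ ^ (6 * k)) =
        C₄ ^ k * Q ^ k * ∑ t₁ ∈ Icc 1 x, ∑ t₂ ∈ Icc 1 x, ∑ i, (GG t₁ ^ (6 * k) +
        GG t₂ ^ (6 * k) + Dt i t₁ t₂ ^ (6 * k)) := by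
      simp only [mul_sum]
    rw [e2]
    calc _ ≤ C₄ ^ k * Q ^ k * (k * (2 * C₂ + C₃) * x ^ 2) := by gcongr
      _ = _ := by ring
  calc _ ≤ 40 ^ k * C₁ * (x ^ 2 * Q ^ k) + C₄ ^ k * (k * (2 * C₂ + C₃)) * (x ^ 2 * Q ^ k) :=
        hall.trans (add_le_add hdiag hoff)
    _ = _ := by ring

end Q239.LC
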