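import Mathlib
import Pool.Agent.Q239.LC.FirstE
import Pool.Agent.Q239.LC.SecE
import Pool.Agent.W218.LF.Main2

set_option autoImplicit false

/-! The main theorem on one coefficient of each of `k` polynomials. -/

namespace Q239.LC

open Finset Pool.Agent.Erdos456 Pool.Agent.Erdos456.Mert Pool.Agent.W218.HF Pool.Agent.W218.LF

/-- the `t ∈ T` for which all `g_i(t) + b_i t ^ e_i` have no prime factor `≤ z` -/
noncomputable def roughE (z : ℕ) {k : ℕ} (e : Fin k → ℕ) (g : Fin k → Polynomial ℤ) (b : Fin k → ℕ)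
    (T : Finset ℕ) : ℕ :=
  (T.filter (fun t : ℕ => ∀ i, ∀ p ≤ z, p.Prime →
    ¬ ((p : ℤ) ∣ (g i).eval (t : ℤ) + b i * ((t ^ e i : ℕ) : ℤ)))).card

/-- the number of `t ∈ T` for which all `g_i(t) + b_i t ^ e_i` are prime -/
noncomputable def primeE {k : ℕ} (e : Fin k → ℕ) (g : Fin k → Polynomial ℤ) (b : Fin k → ℕ)
    (T : Finset ℕ) : ℕ :=
  (T.filter (fun t : ℕ => ∀ i, ((g i).eval (t : ℤ) + b i * ((t ^ e i : ℕ) : ℤ)).toNat.Prime)).card

lemma primeE_eq {k : ℕ} (e : Fin k → ℕ) (g : Fin k → Polynomial ℤ) (b : Fin k → ℕ) (T : Finset ℕ) :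
    (primeE e g b T : ℝ) = ∑ t ∈ T, ∏ i, pr ((g i).eval (t : ℤ) + b i * ((t ^ e i : ℕ) : ℤ)) := by
  classical
  unfold primeE
  rw [card_filter]
  push_cast
  apply sum_congr rfl
  intro t _
  by_cases h : ∀ i, ((g i).eval (t : ℤ) + b i * (t : ℤ) ^ e i).toNat.Prime
  · rw [if_pos h]
    symm
    apply prod_eq_one
    intro i _
    unfold pr
    rw [if_pos (h i)]
  · rw [if_neg h]
    push Not at h
    obtain ⟨i, hi⟩ := h
    symm
    apply prod_eq_zero (mem_univ i)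
    unfold pr
    rw [if_neg hi]

lemma roughE_eq (z : ℕ) {k : ℕ} (e : Fin k → ℕ) (g : Fin k → Polynomial ℤ) (b : Fin k → ℕ)
    (T : Finset ℕ) :
    (roughE z e g b T : ℝ) = ∑ t ∈ T, ∏ i, ro z ((g i).eval (t : ℤ) + b i * ((t ^ e i : ℕ) : ℤ)) := by
  classical
  unfold roughE
  rw [card_filter]
  push_cast
  apply sum_congr rfl
  intro t _
  by_cases h : ∀ i, ∀ p ≤ z, p.Prime → ¬ ((p : ℤ) ∣ (g i).eval (t : ℤ) + b i * (t : ℤ) ^ e i)
  · rw [if_pos h]
    symm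
    apply prod_eq_one
    intro i _
    unfold ro
    rw [if_pos (h i)]
  · rw [if_neg h]
    push Not at h
    obtain ⟨i, hi⟩ := h
    symm
    apply prod_eq_zero (mem_univ i)
    unfold ro
    rw [if_neg]
    push Not
    exact hi

theorem main3 (k E : ℕ) (hk : 1 ≤ k) (hE : 1 ≤ E) : ∃ K : ℕ, ∀ d : ℕ, ∀ δ : ℝ, 0 < δ →
    ∀ θ : ℝ, θ < 1 →
    ∃ η : ℝ, 0 < η ∧ ∃ B0 : ℕ, ∀ B : ℕ, B0 ≤ B → ∀ z : ℕ, Pz z ≤ η * B →
    ∀ (x : ℕ) (e : Fin k → ℕ) (g : Fin k → Polynomial ℤ) (T : Finset ℕ),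
    (∀ i, 1 ≤ e i ∧ e i ≤ E) → (∀ i, (g i).natDegree ≤ d) →
    (∀ i, (g i).coeff 0 ≠ 0 ∧
      δ * ((g i).coeff 0).natAbs ≤ Nat.totient ((g i).coeff 0).natAbs) →
    (∀ i, ∑ j ∈ range (d + 1), |(((g i).coeff j : ℤ) : ℝ)| * (x : ℝ) ^ (j - e i) ≤ B) →
    Real.log B ^ k ≤ x → (∀ i, (x : ℝ) ^ pw (e i) * Real.log B ^ K ≤ B) → T ⊆ Icc 1 x →
    (∀ t ∈ T, ∀ i, Nat.Coprime t ((g i).coeff 0).natAbs) → δ * x ≤ T.card →
    η * B ^ k ≤ ((((Fintype.piFinset (fun _ : Fin k => Ioc B (2 * B))).filter (fun b =>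
      θ * (roughE z e g b T / Wz z ^ k) / (∏ i, Real.log (B * x ^ e i)) ≤ primeE e g b T ∧
      η * x / Real.log B ^ k ≤ primeE e g b T)).card : ℕ) : ℝ) := by
  classical
  obtain ⟨K, hfirst⟩ := first_total3 k E hk
  refine ⟨K, ?_⟩
  intro d δ hδ θ hθ
  obtain ⟨C₂, hC₂, hsecond⟩ := second3 k d E hk hE δ hδ
  have hkr : (1 : ℝ) ≤ k := by exact_mod_cast hk
  have hd0 : (0 : ℝ) ≤ d := Nat.cast_nonneg d
  have hEr : (1 : ℝ) ≤ E := by exact_mod_cast hE
  set θ₀ : ℝ := max θ 0 with hθ₀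
  have hθ0 : 0 ≤ θ₀ := le_max_right _ _
  have hθ1 : θ₀ < 1 := max_lt hθ one_pos
  have hθθ : θ ≤ θ₀ := le_max_left _ _
  set κ : ℝ := 1 - θ₀ with hκ
  have hκ0 : 0 < κ := by rw [hκ]; linarith
  have hκ1 : κ ≤ 1 := by rw [hκ]; linarith
  set a : ℝ := k * (2 * d + 2 * E + 5) + 2 with ha
  have ha0 : 2 * (d : ℝ) + 2 * E + 4 ≤ a := by
    rw [ha]
    have : 1 * (2 * (d : ℝ) + 2 * E + 5) ≤ k * (2 * d + 2 * E + 5) :=
      mul_le_mul_of_nonneg_right hkr (by linarith)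
    linarith
  have hapos : 0 < a := by linarith
  set η₀ : ℝ := κ / (8 * a) with hη₀
  have hη0 : 0 < η₀ := by positivity
  have haη : a * η₀ = κ / 8 := by rw [hη₀]; field_simp
  have hη18 : (2 * (d : ℝ) + 2 * E + 4) * η₀ ≤ 1 / 8 := by
    have := mul_le_mul_of_nonneg_right ha0 hη0.le
    linarith
  have hη48 : η₀ ≤ 1 / 48 := by nlinarith
  obtain ⟨J, B₁, hfirst⟩ := hfirst d η₀ hη0 hη18 δ hδ
  set η₁ : ℝ := δ * κ / (8 * (E + 1) ^ k) with hη₁
  have hη10 : 0 < η₁ := by positivity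
  refine ⟨min (κ / (8 * 2 ^ k)) (min η₁ (κ ^ 2 * δ ^ 2 / (4 * ((E + 1) ^ k) ^ 2) / C₂)), by positivity, ?_⟩
  set ηf : ℝ := min (κ / (8 * 2 ^ k)) (min η₁ (κ ^ 2 * δ ^ 2 / (4 * ((E + 1) ^ k) ^ 2) / C₂)) with hηf
  refine ⟨max (max B₁ (4 * (2 * E).factorial)) ⌈1 / η₀⌉₊, ?_⟩
  intro B hB z hBP x e g T he hg hc hA hlogk hxB hT hTc hTcard
  have hB1 : B₁ ≤ B := (le_max_left _ _).trans ((le_max_left _ _).trans hB)
  have hBE : 4 * (2 * E).factorial ≤ B := (le_max_right _ _).trans ((le_max_left _ _).trans hB)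
  have hBη : 1 / η₀ ≤ B := (Nat.le_ceil _).trans (by exact_mod_cast (le_max_right _ _).trans hB)
  have hfac : 1 ≤ (2 * E).factorial := Nat.factorial_pos _
  have hB4 : 4 ≤ B := by omega
  have hBr : (4 : ℝ) ≤ B := by exact_mod_cast hB4
  have hB0 : (0 : ℝ) < B := by linarith
  have hηB1 : 1 ≤ η₀ * B := by
    rw [div_le_iff₀ hη0] at hBη; linarith
  have hlB : 1 ≤ Real.log B := by
    rw [Real.le_log_iff_exp_le hB0]
    have := Real.exp_one_lt_d9
    linarith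
  have hlB0 : 0 < Real.log B := by linarith
  have hlog : Real.log B ≤ x := (le_self_pow₀ hlB (by omega)).trans hlogk
  have hx0 : 0 < (x : ℝ) := by linarith
  have hx1 : 1 ≤ x := by
    have : 0 < x := by exact_mod_cast hx0
    omega
  have hx1r : (1 : ℝ) ≤ x := by exact_mod_cast hx1
  have hxleB : (x : ℝ) ≤ B := by
    have i0 : Fin k := ⟨0, hk⟩
    have h1 := hxB i0
    have h2 : (x : ℝ) ≤ (x : ℝ) ^ pw (e i0) := le_self_pow₀ hx1r (by have := pw_pos (e i0); omega)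
    have h3 : (x : ℝ) ^ pw (e i0) * 1 ≤ (x : ℝ) ^ pw (e i0) * Real.log B ^ K :=
      mul_le_mul_of_nonneg_left (one_le_pow₀ hlB) (by positivity)
    linarith
  set L : Fin k → ℝ := fun i => Real.log (B * x ^ e i) with hL
  have hL1 : ∀ i, Real.log B ≤ L i := by
    intro i
    apply Real.log_le_log hB0
    have := mul_le_mul_of_nonneg_left (one_le_pow₀ hx1r : (1 : ℝ) ≤ (x : ℝ) ^ e i) hB0.le
    linarith
  have hL2 : ∀ i, L i ≤ (E + 1) * Real.log B := by
    intro i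
    show Real.log (B * x ^ e i) ≤ _
    rw [Real.log_mul hB0.ne' (by positivity), Real.log_pow]
    have h1 := Real.log_le_log hx0 hxleB
    have h2 : ((e i : ℕ) : ℝ) ≤ E := by exact_mod_cast (he i).2
    have h3 : ((e i : ℕ) : ℝ) * Real.log x ≤ E * Real.log B := by
      have h4 : 0 ≤ Real.log x := Real.log_nonneg hx1r
      gcongr
    linarith
  have hL0 : ∀ i, 0 < L i := fun i => by linarith [hL1 i]
  set PL : ℝ := ∏ i, L i with hPL
  have hPL0 : 0 < PL := prod_pos fun i _ => hL0 i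
  have hPLup : PL ≤ ((E + 1) * Real.log B) ^ k := by
    calc PL ≤ ∏ _i : Fin k, ((E + 1) * Real.log B) :=
          prod_le_prod (fun i _ => (hL0 i).le) fun i _ => hL2 i
      _ = _ := by rw [prod_const, card_univ, Fintype.card_fin]
  obtain ⟨hJx, hF⟩ := hfirst B hB1 x e g T hlog he hxB hg hA hT hTc hTcard
  set b1 : ℕ := lo η₀ B with hb1
  set T' : Finset ℕ := T.filter (fun t : ℕ => (1 - η₀) ^ J * (x : ℝ) < t) with hT'
  set m : ℝ := ∑ t ∈ T, GG t ^ k with hm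
  have hb1le : (b1 : ℝ) ≤ (1 + η₀) * B := Nat.floor_le (by positivity)
  have hb1lt : (1 + η₀) * B < b1 + 1 := Nat.lt_floor_add_one _
  have hb1B : B ≤ b1 := by
    apply Nat.le_floor
    have : 0 ≤ η₀ * (B : ℝ) := by positivity
    linarith
  have hb12 : 2 * b1 ≤ 3 * B := by
    have : (2 : ℝ) * b1 ≤ 3 * B := by nlinarith
    exact_mod_cast this
  have hT'sub : T' ⊆ T := filter_subset _ _
  -- bound for the values
  have hval : ∀ i, ∀ t ∈ Icc 1 x, |(((g i).eval (t : ℤ) : ℤ) : ℝ)| ≤ B * t ^ e i := by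
    intro i t ht
    have ht' := mem_Icc.1 ht
    have ht1 : (1 : ℝ) ≤ t := by exact_mod_cast ht'.1
    have htx : (t : ℝ) ≤ x := by exact_mod_cast ht'.2
    obtain ⟨h1, h2⟩ := poly_varE (e := e i) (hg i) (η := 1) one_pos le_rfl ht1 htx (hA i)
    have h4 : (((g i).eval (t : ℤ) : ℤ) : ℝ) =
        ∑ j ∈ range (d + 1), (((g i).coeff j : ℤ) : ℝ) * (t : ℝ) ^ j := by
      have h5 := Polynomial.eval_eq_sum_range' (show (g i).natDegree < d + 1 by
        have := hg i; omega) (t : ℤ)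
      rw [h5]
      push_cast
      rfl
    rw [h4]; exact h1
  -- second moment
  have hS := hsecond B b1 x e g T' hBE hb1B hb12 hlogk hlB he hg hc
    (fun i t ht => by
      have h1 := hval i t ht
      have htx : (t : ℝ) ≤ x := by exact_mod_cast (mem_Icc.1 ht).2
      have h2 : (B : ℝ) * t ^ e i ≤ B * x ^ e i := by gcongr
      have h3 : 0 ≤ (B : ℝ) * x ^ e i := by positivity
      linarith) (hT'sub.trans hT) (by
    intro t ht i
    have ht' := mem_filter.1 ht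
    refine ⟨hTc t ht'.1 i, ?_⟩
    have htI := hT ht'.1
    have h3 := (abs_le.1 (hval i t htI)).1
    have ht0 : (0 : ℝ) ≤ (t : ℝ) ^ e i := by positivity
    have h4 : (b1 : ℝ) * (t : ℝ) ^ e i ≥ ((1 + η₀) * B - 1) * (t : ℝ) ^ e i := by
      apply mul_le_mul_of_nonneg_right _ ht0
      linarith
    have h6 : ((1 + η₀) * B - 1) * (t : ℝ) ^ e i = B * (t : ℝ) ^ e i + (η₀ * B - 1) * (t : ℝ) ^ e i := by
      ring
    have h8 : 0 ≤ (η₀ * B - 1) * (t : ℝ) ^ e i := mul_nonneg (by linarith) ht0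
    have h7 : (0 : ℝ) ≤ (((g i).eval (t : ℤ) : ℤ) : ℝ) + (b1 : ℝ) * (t : ℝ) ^ e i := by linarith
    exact_mod_cast h7)
  -- double counting
  set PF := Fintype.piFinset (fun _ : Fin k => Ioc b1 (2 * B)) with hPF
  set PB := Fintype.piFinset (fun _ : Fin k => Ioc B (2 * B)) with hPB
  have hPFsub : PF ⊆ PB := by
    intro b hb
    rw [hPF, Fintype.mem_piFinset] at hb
    rw [hPB, Fintype.mem_piFinset]
    intro i
    have := mem_Ioc.1 (hb i)
    exact mem_Ioc.2 ⟨by omega, this.2⟩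
  set N' : (Fin k → ℕ) → ℝ := fun b =>
    ∑ t ∈ T', ∏ i, pr ((g i).eval (t : ℤ) + b i * ((t ^ e i : ℕ) : ℤ)) with hN'
  have hN'eq : ∀ b, N' b = primeE e g b T' := fun b => (primeE_eq e g b T').symm
  have hN'0 : ∀ b, 0 ≤ N' b := fun b => by rw [hN'eq]; exact Nat.cast_nonneg _
  have hswap : ∑ t ∈ T', ∏ i, nnE b1 B (e i) (g i) t = ∑ b ∈ PF, N' b := by
    simp only [hN', nnE]
    rw [sum_comm]
    apply sum_congr rfl
    intro t _
    rw [hPF, Finset.prod_univ_sum]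
  rw [hswap] at hF
  have hN'le : ∀ b, N' b ≤ primeE e g b T := by
    intro b
    rw [hN'eq]
    unfold primeE
    have := card_le_card (filter_subset_filter
      (fun t : ℕ => ∀ i, ((g i).eval (t : ℤ) + b i * ((t ^ e i : ℕ) : ℤ)).toNat.Prime) hT'sub)
    exact_mod_cast this
  have hWz := Wz_pos z
  -- sieve average
  have hR : ∑ b ∈ PB, (roughE z e g b T : ℝ) / Wz z ^ k ≤ (B + Pz z) ^ k * m := by
    have h1 : ∑ b ∈ PB, (roughE z e g b T : ℝ) / Wz z ^ k =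
        ∑ t ∈ T, ∏ i, ((∑ β ∈ Ioc B (2 * B),
          ro z ((g i).eval (t : ℤ) + β * ((t ^ e i : ℕ) : ℤ))) / Wz z) := by
      rw [← sum_div, sum_congr rfl fun b _ => roughE_eq z e g b T, sum_comm, sum_div]
      apply sum_congr rfl
      intro t _
      rw [prod_div_distrib, prod_const, card_univ, Fintype.card_fin, Finset.prod_univ_sum]
    rw [h1, hm, mul_sum]
    apply sum_le_sum
    intro t ht
    have ht0 : 0 < t := by have := (mem_Icc.1 (hT ht)).1; omega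
    calc _ ≤ ∏ _i : Fin k, ((B + Pz z) * GG t) := by
          apply prod_le_prod
          · intro i _
            exact div_nonneg (sum_nonneg fun β _ => ro_nonneg _ _) hWz.le
          · intro i _
            have h2 := ro_sum z B (t ^ e i) ((g i).eval (t : ℤ)) (pow_pos ht0 _)
            rwa [GG_pow (he i).1] at h2
      _ = (B + Pz z) ^ k * GG t ^ k := by rw [prod_const, card_univ, Fintype.card_fin, mul_pow]
  have hmcard : δ * x ≤ m := by
    refine hTcard.trans ?_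
    rw [hm, card_eq_sum_ones]
    push_cast
    apply sum_le_sum
    intro t ht
    exact one_le_pow₀ (one_le_GG (by have := (mem_Icc.1 (hT ht)).1; omega))
  have hm0 : 0 < m := lt_of_lt_of_le (by positivity) hmcard
  set S := PB.filter (fun b =>
      θ * (roughE z e g b T / Wz z ^ k) / PL ≤ primeE e g b T ∧
      ηf * x / Real.log B ^ k ≤ primeE e g b T) with hSdef
  have hPBcard : (PB.card : ℝ) = B ^ k := by
    rw [hPB, Fintype.card_piFinset]
    simp only [prod_const, card_univ, Fintype.card_fin, Nat.card_Ioc]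
    have : 2 * B - B = B := by omega
    rw [this]; push_cast; rfl
  -- the bad b
  have hbad : ∑ b ∈ PF.filter (fun b => b ∉ S), N' b ≤
      θ₀ * ((B + Pz z) ^ k * m) / PL + B ^ k * ((E + 1) ^ k * η₁ * x / PL) := by
    have h1 : ∀ b ∈ PF.filter (fun b => b ∉ S), N' b ≤
        θ₀ * ((roughE z e g b T : ℝ) / Wz z ^ k) / PL + (E + 1) ^ k * η₁ * x / PL := by
      intro b hb
      rw [mem_filter] at hb
      have hb1 : b ∈ PB := hPFsub hb.1
      have h2 : ¬ (θ * (roughE z e g b T / Wz z ^ k) / PL ≤ primeE e g b T ∧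
          ηf * x / Real.log B ^ k ≤ primeE e g b T) := by
        intro h
        exact hb.2 (by rw [hSdef, mem_filter]; exact ⟨hb1, h⟩)
      have hR0 : 0 ≤ (roughE z e g b T : ℝ) / Wz z ^ k := by positivity
      have h3 : 0 ≤ θ₀ * ((roughE z e g b T : ℝ) / Wz z ^ k) / PL := by positivity
      have h4 : 0 ≤ (E + 1) ^ k * η₁ * x / PL := by positivity
      refine (hN'le b).trans ?_
      rw [not_and_or, not_le, not_le] at h2
      rcases h2 with h2 | h2
      · have h5 : θ * ((roughE z e g b T : ℝ) / Wz z ^ k) / PL ≤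
            θ₀ * ((roughE z e g b T : ℝ) / Wz z ^ k) / PL := by gcongr
        linarith
      · have h5 : ηf * x / Real.log B ^ k ≤ (E + 1) ^ k * η₁ * x / PL := by
          rw [div_le_div_iff₀ (by positivity) (by positivity)]
          have h6 : ηf ≤ η₁ := (min_le_right _ _).trans (min_le_left _ _)
          calc ηf * x * PL ≤ η₁ * x * ((E + 1) * Real.log B) ^ k := by gcongr
            _ = _ := by rw [mul_pow]; ring
        linarith
    refine (sum_le_sum h1).trans ?_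
    rw [sum_add_distrib]
    have hsub : PF.filter (fun b => b ∉ S) ⊆ PB := (filter_subset _ _).trans hPFsub
    apply add_le_add
    · calc _ ≤ ∑ b ∈ PB, θ₀ * ((roughE z e g b T : ℝ) / Wz z ^ k) / PL := by
            apply sum_le_sum_of_subset_of_nonneg hsub
            intro b _ _; positivity
        _ = θ₀ * (∑ b ∈ PB, (roughE z e g b T : ℝ) / Wz z ^ k) / PL := by
            rw [← sum_div, ← mul_sum]
        _ ≤ _ := by gcongr
    · rw [sum_const, nsmul_eq_mul]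
      have h2 : ((PF.filter (fun b => b ∉ S)).card : ℝ) ≤ B ^ k := by
        rw [← hPBcard]
        exact_mod_cast card_le_card hsub
      gcongr
  set Q : ℝ := B ^ k / PL with hQ
  have hQ0 : 0 < Q := by positivity
  have hPQ : ∏ i, ((B : ℝ) / Real.log (B * x ^ e i)) = Q := by
    rw [prod_div_distrib, prod_const, card_univ, Fintype.card_fin]
  have hPzk : ((B : ℝ) + Pz z) ^ k ≤ (1 + κ / 8) * B ^ k := by
    have h1 : (Pz z : ℝ) ≤ (κ / (8 * 2 ^ k)) * B :=
      hBP.trans (mul_le_mul_of_nonneg_right (min_le_left _ _) hB0.le)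
    have h2 : (B : ℝ) + Pz z ≤ (1 + κ / (8 * 2 ^ k)) * B := by linarith
    have h3 : κ / (8 * 2 ^ k) ≤ 1 := by
      rw [div_le_one (by positivity)]
      have : (1 : ℝ) ≤ 2 ^ k := one_le_pow₀ (by norm_num)
      linarith
    calc ((B : ℝ) + Pz z) ^ k ≤ ((1 + κ / (8 * 2 ^ k)) * B) ^ k := pow_le_pow_left₀ (by positivity) h2 k
      _ = (1 + κ / (8 * 2 ^ k)) ^ k * B ^ k := mul_pow _ _ _
      _ ≤ (1 + 2 ^ k * (κ / (8 * 2 ^ k))) * B ^ k := by
          have := pow_le_lin (show 0 ≤ κ / (8 * 2 ^ k) by positivity) h3 k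
          gcongr
      _ = _ := by
          congr 2
          field_simp
  have hbad2 : θ₀ * ((B + Pz z) ^ k * m) / PL + B ^ k * ((E + 1) ^ k * η₁ * x / PL) ≤
      (θ₀ + κ / 4) * (Q * m) := by
    have h1 : θ₀ * ((B + Pz z) ^ k * m) / PL ≤ (θ₀ + κ / 8) * (Q * m) := by
      have h2 : θ₀ * ((B + Pz z) ^ k) ≤ (θ₀ + κ / 8) * B ^ k := by
        calc θ₀ * ((B + Pz z) ^ k) ≤ θ₀ * ((1 + κ / 8) * B ^ k) := by gcongr
          _ = (θ₀ + θ₀ * (κ / 8)) * B ^ k := by ring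
          _ ≤ (θ₀ + 1 * (κ / 8)) * B ^ k := by gcongr
          _ = _ := by ring
      calc θ₀ * ((B + Pz z) ^ k * m) / PL = (θ₀ * ((B + Pz z) ^ k)) * m / PL := by ring
        _ ≤ ((θ₀ + κ / 8) * B ^ k) * m / PL := by gcongr
        _ = _ := by rw [hQ]; ring
    have h2 : B ^ k * ((E + 1) ^ k * η₁ * x / PL) ≤ κ / 8 * (Q * m) := by
      have h3 : (B : ℝ) ^ k * ((E + 1) ^ k * η₁ * x / PL) =
          κ / 8 * (B ^ k / PL * (δ * x)) := by
        rw [hη₁]
        field_simp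
      rw [h3, hQ]
      gcongr
    linarith
  have hgood : (κ / 2) * (Q * m) ≤ ∑ b ∈ PF.filter (fun b => b ∈ S), N' b := by
    have h1 := sum_filter_add_sum_filter_not PF (fun b => b ∈ S) N'
    have h2 : (1 - (k * (2 * d + 2 * E + 5) + 2) * η₀) *
        (∏ i, ((B : ℝ) / Real.log (B * x ^ e i))) * m = (1 - κ / 8) * (Q * m) := by
      have e' : (k * (2 * (d : ℝ) + 2 * E + 5) + 2) * η₀ = κ / 8 := haη
      rw [e', hPQ]; ring
    rw [h2] at hF
    have h3 : θ₀ = 1 - κ := by rw [hκ]; ring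
    have h4 : (1 - κ / 8) * (Q * m) - (θ₀ + κ / 4) * (Q * m) = (5 * κ / 8) * (Q * m) := by
      rw [h3]; ring
    have h5 : (κ / 2) * (Q * m) ≤ (5 * κ / 8) * (Q * m) := by
      apply mul_le_mul_of_nonneg_right _ (by positivity)
      linarith
    linarith
  -- Cauchy-Schwarz
  have hCS : (∑ b ∈ PF.filter (fun b => b ∈ S), N' b) ^ 2 ≤
      (S.card : ℝ) * (C₂ * (x ^ 2 * (B / Real.log B ^ 2) ^ k)) := by
    have h1 := sum_mul_sq_le_sq_mul_sq (PF.filter (fun b => b ∈ S)) (fun _ => (1 : ℝ)) N'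
    simp only [one_mul, one_pow, sum_const, nsmul_eq_mul, mul_one] at h1
    refine h1.trans ?_
    apply mul_le_mul
    · have : (PF.filter (fun b => b ∈ S)).card ≤ S.card := by
        apply card_le_card
        intro b hb
        exact (mem_filter.1 hb).2
      exact_mod_cast this
    · refine le_trans ?_ hS
      exact sum_le_sum_of_subset_of_nonneg (filter_subset _ _) fun b _ _ => by positivity
    · exact sum_nonneg fun b _ => by positivity
    · positivity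
  have hfin : (κ / 2 * (Q * m)) ^ 2 ≤ (S.card : ℝ) * (C₂ * (x ^ 2 * (B / Real.log B ^ 2) ^ k)) := by
    refine le_trans ?_ hCS
    exact pow_le_pow_left₀ (by positivity) hgood 2
  have hQlow : B ^ k / ((E + 1) * Real.log B) ^ k * (δ * x) ≤ Q * m := by
    rw [hQ]
    gcongr
  have hfin2 : (κ / 2 * (B ^ k / ((E + 1) * Real.log B) ^ k * (δ * x))) ^ 2 ≤
      (S.card : ℝ) * (C₂ * (x ^ 2 * (B / Real.log B ^ 2) ^ k)) := by
    refine le_trans ?_ hfin
    gcongr
  have e1 : (κ / 2 * ((B : ℝ) ^ k / ((E + 1) * Real.log B) ^ k * (δ * x))) ^ 2 =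
      (κ ^ 2 * δ ^ 2 / (4 * ((E + 1) ^ k) ^ 2) * B ^ k) * (x ^ 2 * (B / Real.log B ^ 2) ^ k) := by
    have e4 : (Real.log B ^ 2) ^ k = (Real.log B ^ k) ^ 2 := by rw [← pow_mul, ← pow_mul, mul_comm]
    rw [div_pow (B : ℝ) (Real.log B ^ 2) k, mul_pow ((E : ℝ) + 1) (Real.log B) k, e4]
    field_simp
    ring
  rw [e1] at hfin2
  have hpos : 0 < (x : ℝ) ^ 2 * (B / Real.log B ^ 2) ^ k := by positivity
  have hfin3 : κ ^ 2 * δ ^ 2 / (4 * ((E + 1) ^ k) ^ 2) * B ^ k ≤ S.card * C₂ := by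
    have h1 : (S.card : ℝ) * (C₂ * (x ^ 2 * (B / Real.log B ^ 2) ^ k)) =
        (S.card * C₂) * (x ^ 2 * (B / Real.log B ^ 2) ^ k) := by ring
    rw [h1] at hfin2
    exact le_of_mul_le_mul_right hfin2 hpos
  have hfin4 : κ ^ 2 * δ ^ 2 / (4 * ((E + 1) ^ k) ^ 2) / C₂ * B ^ k ≤ S.card := by
    have e2 : κ ^ 2 * δ ^ 2 / (4 * ((E + 1) ^ k) ^ 2) / C₂ * (B : ℝ) ^ k =
        (κ ^ 2 * δ ^ 2 / (4 * ((E + 1) ^ k) ^ 2) * B ^ k) / C₂ := by
      ring
    rw [e2, div_le_iff₀ hC₂]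
    exact hfin3
  have hfin5 : ηf * B ^ k ≤ κ ^ 2 * δ ^ 2 / (4 * ((E + 1) ^ k) ^ 2) / C₂ * B ^ k := by
    gcongr
    exact (min_le_right _ _).trans (min_le_right _ _)
  exact hfin5.trans hfin4

end Q239.LC
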