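import Mathlib
import Pool.Agent.Q239.LC.MainE
import Pool.Agent.Q239.LC.CTail
import Pool.Agent.W218.HF.QRough

set_option autoImplicit false

/-!
Conjecture F on average over the leading coefficient, with the full constant.
-/

namespace Q239.LC
open Finset Filter Topology
open Pool.Agent.W468.ConjF Pool.Agent.W218.HF

/-- a prime value forces admissibility -/
lemma adm_of_prime' (a t : ℕ) (b c : ℤ) (ht : 1 ≤ t) (hc : c ≠ 0) (hb : |b| + 2 * |c| < a)
    (hp : ((a : ℤ) * t ^ 2 + b * t + c).toNat.Prime) (hsq : ¬ IsSquare ((b : ℤ) ^ 2 - 4 * a * c)) :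
    Admissible a b c := by
  set v : ℤ := (a : ℤ) * t ^ 2 + b * t + c with hv
  have ht' : (1 : ℤ) ≤ t := by exact_mod_cast ht
  have hc1 : 1 ≤ |c| := Int.one_le_abs hc
  have hc2 := neg_abs_le c
  have hb2 := neg_abs_le b
  have hb0 := abs_nonneg b
  have hvc : |c| < v := by
    have h1 : (t : ℤ) ≤ t ^ 2 := by nlinarith
    have h2 : -|b| * t ≤ b * t := mul_le_mul_of_nonneg_right hb2 (by positivity)
    have h3 : |b| * t ≤ |b| * t ^ 2 := mul_le_mul_of_nonneg_left h1 hb0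
    have h5 : (1 : ℤ) ≤ (t : ℤ) ^ 2 := by linarith
    have h6 : ((a : ℤ) - |b|) * 1 ≤ ((a : ℤ) - |b|) * t ^ 2 := mul_le_mul_of_nonneg_left h5 (by linarith)
    rw [hv]; linarith
  have hv0 : (v.toNat : ℤ) = v := Int.toNat_of_nonneg (by linarith)
  refine ⟨by linarith, ?_, ?_, hsq⟩
  · intro d h1 h2 h3
    have h4 : d ∣ v := by
      rw [hv]
      exact dvd_add (dvd_add (Dvd.dvd.mul_right h1 _) (Dvd.dvd.mul_right h2 _)) h3
    rw [← hv0] at h4
    have h5 : d.natAbs ∣ v.toNat := by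
      have := Int.natAbs_dvd_natAbs.2 h4
      rwa [Int.natAbs_natCast] at this
    rcases (Nat.dvd_prime hp).1 h5 with h6 | h6
    · exact Int.isUnit_iff_natAbs_eq.2 h6
    · exfalso
      have h7 : |d| ≤ |c| := Int.le_of_dvd (by linarith) ((abs_dvd_abs _ _).2 h3)
      have h8 : |d| = v := by rw [← hv0, ← h6]; exact (Int.natCast_natAbs d).symm
      linarith
  · rintro ⟨h1, h2⟩
    have h3 : (2 : ℤ) ∣ v := by
      have h5 : v = ((a : ℤ) + b) * t + c + a * ((t : ℤ) ^ 2 - t) := by rw [hv]; ring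
      rw [h5]
      refine dvd_add (dvd_add (Dvd.dvd.mul_right h1 _) h2) (Dvd.dvd.mul_left ?_ _)
      have h6 : (t : ℤ) ^ 2 - t = t * (t - 1) := by ring
      rw [h6]
      rcases Int.even_or_odd (t : ℤ) with ⟨k, hk⟩ | ⟨k, hk⟩
      · exact Dvd.dvd.mul_right ⟨k, by rw [hk]; ring⟩ _
      · exact Dvd.dvd.mul_left ⟨k, by rw [hk]; ring⟩ _
    rw [← hv0] at h3
    have h4 : 2 ∣ v.toNat := by exact_mod_cast h3
    have h5 := (Nat.prime_dvd_prime_iff_eq Nat.prime_two hp).1 h4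
    have h6 : v = 2 := by rw [← hv0, ← h5]; rfl
    have h7 : (2 : ℤ) ≤ |c| := Int.le_of_dvd (by linarith) ((dvd_abs _ _).2 h2)
    linarith

open Classical in
/-- the values `t ∈ T` without prime factor `≤ z` -/
noncomputable def uns (z a : ℕ) (b c : ℤ) (T : Finset ℕ) : ℕ :=
  (T.filter (fun t : ℕ => ∀ p ≤ z, p.Prime → ¬ ((p : ℤ) ∣ (a : ℤ) * t ^ 2 + b * t + c))).card

/-- the number of `t ∈ T` with prime value -/
noncomputable def nmP (a : ℕ) (b c : ℤ) (T : Finset ℕ) : ℕ :=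
  (T.filter (fun t : ℕ => ((a : ℤ) * t ^ 2 + b * t + c).toNat.Prime)).card

/-- the main theorem for one quadratic polynomial -/
theorem main_quad : ∃ K : ℕ, ∀ δ : ℝ, 0 < δ → ∀ θ : ℝ, θ < 1 → ∃ η : ℝ, 0 < η ∧ ∃ B0 : ℕ,
    ∀ B : ℕ, B0 ≤ B → ∀ z : ℕ, Pz z ≤ η * B → ∀ (x : ℕ) (b c : ℤ) (T : Finset ℕ), c ≠ 0 →
    δ * c.natAbs ≤ Nat.totient c.natAbs → |(b : ℝ)| + |(c : ℝ)| ≤ B →
    Real.log B ≤ x → (x : ℝ) ^ 4 * Real.log B ^ K ≤ B → T ⊆ Icc 1 x →
    (∀ t ∈ T, Nat.Coprime t c.natAbs) → δ * x ≤ T.card →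
    η * B ≤ (((Ioc B (2 * B)).filter (fun a : ℕ =>
      θ * (uns z a b c T / Wz z) / Real.log (B * x ^ 2) ≤ nmP a b c T ∧
      η * x / Real.log B ≤ nmP a b c T)).card : ℝ) := by
  classical
  obtain ⟨K, hK⟩ := main3 1 2 le_rfl (by norm_num)
  refine ⟨K, fun δ hδ θ hθ => ?_⟩
  obtain ⟨η, hη, B0, hB0⟩ := hK 1 δ hδ θ hθ
  refine ⟨η, hη, B0, ?_⟩
  intro B hB z hz x b c T hc hcδ hbc hx hxB hT hTc hTcard
  set g : Fin 1 → Polynomial ℤ := fun _ => Polynomial.C b * Polynomial.X + Polynomial.C c with hg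
  have hc0 : (Polynomial.C b * Polynomial.X + Polynomial.C c).coeff 0 = c := by simp
  have hc1 : (Polynomial.C b * Polynomial.X + Polynomial.C c).coeff 1 = b := by
    rw [Polynomial.coeff_add, Polynomial.coeff_C_mul, Polynomial.coeff_X_one,
      Polynomial.coeff_C_ne_zero (by norm_num)]
    ring
  have hev : ∀ t : ℤ, (Polynomial.C b * Polynomial.X + Polynomial.C c).eval t = b * t + c := by
    intro t; simp
  have hpw : pw 2 = 4 := by norm_num [pw]
  have h := hB0 B hB z hz x (fun _ => 2) g T (fun _ => ⟨by norm_num, le_rfl⟩)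
    (fun _ => Polynomial.natDegree_linear_le)
    (fun _ => by rw [hg]; simp only [hc0]; exact ⟨hc, hcδ⟩)
    (fun _ => by
      rw [hg]
      simp only [sum_range_succ, range_zero, sum_empty, hc0, hc1]
      norm_num
      linarith)
    (by rw [pow_one]; exact hx) (fun _ => by rw [hpw]; exact hxB) hT
    (fun t ht _ => by rw [hg]; simp only [hc0]; exact hTc t ht) hTcard
  rw [pow_one] at h
  refine h.trans ?_
  apply Nat.cast_le.2
  apply card_le_card_of_injOn (fun f : Fin 1 → ℕ => f 0)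
  · intro f hf
    rw [mem_coe, mem_filter, Fintype.mem_piFinset] at hf
    obtain ⟨h1, h2, h3⟩ := hf
    rw [mem_coe, mem_filter]
    have e1 : roughE z (fun _ => 2) g f T = uns z (f 0) b c T := by
      unfold roughE uns
      congr 1
      apply filter_congr
      intro t _
      have e2 : (g 0).eval (t : ℤ) + f 0 * ((t ^ 2 : ℕ) : ℤ) = (f 0 : ℤ) * t ^ 2 + b * t + c := by
        rw [hg]
        simp only [hev]
        push_cast
        ring
      constructor
      · intro h5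
        have h6 := h5 0
        rw [e2] at h6
        exact h6
      · intro h5 i
        have hi : i = 0 := Subsingleton.elim _ _
        rw [hi, e2]
        exact h5
    have e3 : primeE (fun _ => 2) g f T = nmP (f 0) b c T := by
      unfold primeE nmP
      congr 1
      apply filter_congr
      intro t _
      have e2 : (g 0).eval (t : ℤ) + f 0 * ((t ^ 2 : ℕ) : ℤ) = (f 0 : ℤ) * t ^ 2 + b * t + c := by
        rw [hg]
        simp only [hev]
        push_cast
        ring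
      constructor
      · intro h5
        have h6 := h5 0
        rw [e2] at h6
        exact h6
      · intro h5 i
        have hi : i = 0 := Subsingleton.elim _ _
        rw [hi, e2]
        exact h5
    rw [e1, e3] at h2
    rw [e3] at h3
    refine ⟨h1 0, ?_, ?_⟩
    · simpa using h2
    · simpa using h3
  · intro f _ f' _ h0
    funext i
    have hi : i = 0 := Subsingleton.elim _ _
    rw [hi]; exact h0

open Classical in
/-- dyadic ranges of leading coefficients -/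
theorem lead_full : ∃ K : ℕ, ∀ (b c : ℤ), c ≠ 0 → ∀ θ : ℝ, θ < 1 → ∃ κ : ℝ, 0 < κ ∧ ∃ B0 : ℕ,
    ∀ B : ℕ, B0 ≤ B → ∀ x : ℕ, Real.log B ≤ x → (x : ℝ) ^ 4 * Real.log B ^ K ≤ B →
    κ * B ≤ ((((Ioc B (2 * B)).filter (fun a : ℕ => Admissible a b c ∧ ∃ C : ℝ, 0 < C ∧
      Tendsto (fun z => CF a b c z) atTop (𝓝 C) ∧
      θ * (2 * C) * x / Real.log (B * x ^ 2) ≤ piF a b c x ∧
      κ * x / Real.log B ≤ piF a b c x)).card : ℕ) : ℝ) := by
  obtain ⟨K, hK⟩ := main_quad
  refine ⟨K, fun b c hc θ hθ => ?_⟩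
  have hcn : 0 < c.natAbs := Int.natAbs_pos.2 hc
  have hcr : (0 : ℝ) < c.natAbs := by exact_mod_cast hcn
  have hφ : 0 < Nat.totient c.natAbs := Nat.totient_pos.2 hcn
  have hφr : (0 : ℝ) < Nat.totient c.natAbs := by exact_mod_cast hφ
  set δ : ℝ := (Nat.totient c.natAbs : ℝ) / (2 * c.natAbs) with hδ
  have hδ0 : 0 < δ := by rw [hδ]; positivity
  have hδφ : δ * c.natAbs ≤ Nat.totient c.natAbs := by
    have h1 : δ * c.natAbs = (Nat.totient c.natAbs : ℝ) / 2 := by
      rw [hδ]; field_simp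
    rw [h1]; linarith
  -- the constants
  set θ₀ : ℝ := max θ (1 / 2) with hθ₀
  have hθ0 : 1 / 2 ≤ θ₀ := le_max_right _ _
  have hθ1 : θ₀ < 1 := max_lt hθ (by norm_num)
  have hθθ : θ ≤ θ₀ := le_max_left _ _
  set θ₁ : ℝ := (1 + θ₀) / 2 with hθ₁
  have hθ₁1 : θ₁ < 1 := by rw [hθ₁]; linarith
  have hθ₀₁ : θ₀ < θ₁ := by rw [hθ₁]; linarith
  set r : ℝ := θ₁ / θ₀ with hr
  have hr1 : 1 < r := by rw [hr, one_lt_div (by linarith)]; exact hθ₀₁
  set ε : ℝ := Real.log r / 14 with hε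
  have hlr : 0 < Real.log r := Real.log_pos hr1
  have hε0 : 0 < ε := by rw [hε]; positivity
  have hexp4 : Real.exp (7 * ε) * Real.exp (7 * ε) = r := by
    rw [← Real.exp_add]
    have : 7 * ε + 7 * ε = Real.log r := by rw [hε]; ring
    rw [this, Real.exp_log (by linarith)]
  have hexp1 : 1 < Real.exp (7 * ε) := by
    rw [Real.one_lt_exp_iff]; positivity
  obtain ⟨η, hη, B₁, hmain⟩ := hK δ hδ0 θ₁ hθ₁1
  obtain ⟨z₀, hz₀⟩ := good_most' c b hc ε (η / 16) hε0 (by positivity)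
  obtain ⟨z₁, hz₁⟩ := few_bigP ε (η / 16) hε0 (by positivity)
  obtain ⟨H₁, hH₁⟩ := few_squares c b hc (η / 16) (by positivity)
  -- the sieving limit
  set z : ℕ := max (max z₀ 2) (max (max z₁ c.natAbs) ⌈1 / ε⌉₊) with hz
  have hzz₀ : z₀ ≤ z := (le_max_left _ _).trans (le_max_left _ _)
  have hz2 : 2 ≤ z := (le_max_right _ _).trans (le_max_left _ _)
  have hzz₁ : z₁ ≤ z := ((le_max_left _ _).trans (le_max_left _ _)).trans (le_max_right _ _)
  have hzc : c.natAbs ≤ z := ((le_max_right _ _).trans (le_max_left _ _)).trans (le_max_right _ _)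
  have hzε : 1 / ε ≤ z := (Nat.le_ceil _).trans (by exact_mod_cast (le_max_right _ _).trans (le_max_right _ _))
  have hz0 : (0 : ℝ) < z := by exact_mod_cast (by omega : 0 < z)
  have hzε' : 1 / (z : ℝ) ≤ ε := by
    rw [div_le_iff₀ hz0]
    rw [div_le_iff₀ hε0] at hzε
    linarith
  obtain ⟨H₀, hH₀⟩ := hz₀ z hzz₀
  set M : ℝ := ((∏ p ∈ PS z, p : ℕ) : ℝ) with hM
  have hM0 : 0 ≤ M := by rw [hM]; positivity
  set X₀ : ℝ := max (2 * c.natAbs) (max 1 (M * Real.exp (7 * ε) / (Real.exp (7 * ε) - 1))) with hX₀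
  have hev : ∀ᶠ B : ℕ in atTop, X₀ ≤ Real.log B ∧ (Pz z : ℝ) / η ≤ B ∧ |(b : ℝ)| + 2 * |(c : ℝ)| ≤ B := by
    have h1 : Tendsto (fun n : ℕ => Real.log n) atTop atTop := Real.tendsto_log_atTop.comp tendsto_natCast_atTop_atTop
    exact (h1.eventually_ge_atTop X₀).and ((tendsto_natCast_atTop_atTop.eventually_ge_atTop _).and
      (tendsto_natCast_atTop_atTop.eventually_ge_atTop _))
  obtain ⟨B₂, hB₂⟩ := eventually_atTop.1 hev
  refine ⟨η / 2, by positivity, max (max B₁ H₀) (max B₂ (max H₁ 1)), fun B hB x hx1 hx2 => ?_⟩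
  have hBB₁ : B₁ ≤ B := ((le_max_left _ _).trans (le_max_left _ _)).trans hB
  have hBH : H₀ ≤ B := ((le_max_right _ _).trans (le_max_left _ _)).trans hB
  have hBB₂ : B₂ ≤ B := ((le_max_left _ _).trans (le_max_right _ _)).trans hB
  have hBH₁ : H₁ ≤ B := (((le_max_left _ _).trans (le_max_right _ _)).trans (le_max_right _ _)).trans hB
  have hB1' : 1 ≤ B := (((le_max_right _ _).trans (le_max_right _ _)).trans (le_max_right _ _)).trans hB
  obtain ⟨hlX, hBη, hBbc⟩ := hB₂ B hBB₂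
  have hX1 : 1 ≤ X₀ := (le_max_left _ _).trans (le_max_right _ _)
  have hXc : 2 * (c.natAbs : ℝ) ≤ X₀ := le_max_left _ _
  have hXM : M * Real.exp (7 * ε) / (Real.exp (7 * ε) - 1) ≤ X₀ := (le_max_right _ _).trans (le_max_right _ _)
  set L : ℝ := Real.log B with hL
  have hL1 : 1 ≤ L := hX1.trans hlX
  have hxL : L ≤ x := hx1
  have hx0 : (0 : ℝ) ≤ x := by positivity
  have hx1' : (1 : ℝ) ≤ x := hL1.trans hxL
  have hB1 : (1 : ℝ) ≤ B := by exact_mod_cast hB1'
  set T := (Icc 1 x).filter (fun t => Nat.Coprime t c.natAbs) with hT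
  have hTsub : T ⊆ Icc 1 x := filter_subset _ _
  have hTc : ∀ t ∈ T, Nat.Coprime t c.natAbs := fun t ht => (mem_filter.1 ht).2
  have hx2c : 2 * c.natAbs ≤ x := by
    have : (2 : ℝ) * c.natAbs ≤ x := (hXc.trans hlX).trans hxL
    exact_mod_cast this
  have hTcard : δ * x ≤ T.card := coprime_count c.natAbs x hcn hx2c
  have hPz : (Pz z : ℝ) ≤ η * B := by
    rw [div_le_iff₀ hη] at hBη; linarith
  have hbcB : |(b : ℝ)| + |(c : ℝ)| ≤ B := by
    have := abs_nonneg (c : ℝ)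
    linarith
  have hA := hmain B hBB₁ z hPz x b c T hc hδφ hbcB hx1 hx2 hTsub hTc hTcard
  obtain ⟨E, hEc, hE⟩ := hH₀ (2 * B) (by omega)
  have hE2c := hz₁ z hzz₁ (2 * B)
  have hE3c := hH₁ (2 * B) (by omega)
  set E2 := (Icc 1 (2 * B)).filter (fun a : ℕ => ε < bigP z a) with hE2
  set E3 := (Icc 1 (2 * B)).filter (fun a : ℕ => IsSquare (b ^ 2 - 4 * c * (a : ℤ))) with hE3
  set A := (Ioc B (2 * B)).filter (fun a : ℕ =>
      θ₁ * (uns z a b c T / Wz z) / Real.log (B * x ^ 2) ≤ nmP a b c T ∧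
      η * x / Real.log B ≤ nmP a b c T) with hAdef
  have hcount : η / 2 * B ≤ (#(A \ (E ∪ (E2 ∪ E3))) : ℝ) := by
    have h1 : #A ≤ #(A \ (E ∪ (E2 ∪ E3))) + #(E ∪ (E2 ∪ E3)) := by
      have := card_le_card_sdiff_add_card (s := A) (t := E ∪ (E2 ∪ E3))
      exact this
    have h0 : #(E ∪ (E2 ∪ E3)) ≤ #E + (#E2 + #E3) :=
      (card_union_le _ _).trans (Nat.add_le_add_left (card_union_le _ _) _)
    have h2 : (#A : ℝ) ≤ #(A \ (E ∪ (E2 ∪ E3))) + (#E + (#E2 + #E3)) := by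
      exact_mod_cast h1.trans (Nat.add_le_add_left h0 _)
    push_cast at hEc hE2c hE3c
    have hA' : η * B ≤ (#A : ℝ) := hA
    have h3 : 0 ≤ η * (B : ℝ) := by positivity
    linarith
  refine hcount.trans ?_
  apply Nat.cast_le.2
  apply card_le_card
  intro a ha
  rw [Finset.mem_sdiff, mem_union, mem_union, not_or, not_or] at ha
  obtain ⟨haA, haE, haE2, haE3⟩ := ha
  rw [hAdef, mem_filter] at haA
  obtain ⟨haI, hmain1, hmain2⟩ := haA
  have haI' := mem_Ioc.1 haI
  have haI2 : a ∈ Icc 1 (2 * B) := mem_Icc.2 ⟨by omega, haI'.2⟩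
  have ha0 : 0 < a := by omega
  have hsq : ¬ IsSquare (b ^ 2 - 4 * c * (a : ℤ)) := by
    intro h
    exact haE3 (by rw [hE3, mem_filter]; exact ⟨haI2, h⟩)
  have hbig : bigP z a ≤ ε := by
    by_contra hcon
    push Not at hcon
    exact haE2 (by rw [hE2, mem_filter]; exact ⟨haI2, hcon⟩)
  have hSJ := hE a haI2 haE hsq
  have eD : b ^ 2 - 4 * c * (a : ℤ) = b ^ 2 - 4 * (a : ℤ) * c := by ring
  rw [eD] at hsq hSJ
  have habc : |b| + 2 * |c| < (a : ℤ) := by
    have h1 : |(b : ℝ)| + 2 * |(c : ℝ)| < (a : ℝ) := by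
      have : (B : ℝ) < a := by exact_mod_cast haI'.1
      linarith
    have h2 : ((|b| + 2 * |c| : ℤ) : ℝ) < ((a : ℤ) : ℝ) := by push_cast; exact h1
    exact_mod_cast h2
  -- a prime value
  have hpos : 0 < nmP a b c T := by
    have h1 : 0 < η * x / L := by positivity
    have h2 : (0 : ℝ) < nmP a b c T := lt_of_lt_of_le h1 hmain2
    exact_mod_cast h2
  unfold nmP at hpos
  obtain ⟨t, ht⟩ := card_pos.1 hpos
  rw [mem_filter] at ht
  have ht1 : 1 ≤ t := (mem_Icc.1 (hTsub ht.1)).1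
  have hadm : Admissible a b c := adm_of_prime' a t b c ht1 hc habc ht.2 hsq
  rw [mem_filter]
  refine ⟨haI, hadm, ?_⟩
  have ha0z : (0 : ℤ) < a := by exact_mod_cast ha0
  obtain ⟨C, hC0, hC⟩ := CF_tendsto a b c ha0z hsq
  have hCle : C ≤ CF a b c z * Real.exp (7 * ε) := by
    have h1 := CF_limit_le' a b c ha0 C hC z hz2 ε hSJ
    refine h1.trans (mul_le_mul_of_nonneg_left (Real.exp_le_exp.2 (by linarith)) (CF_pos _ _ _ _).le)
  -- comparison of counts
  have hpi : (nmP a b c T : ℝ) ≤ piF a b c x := by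
    have : nmP a b c T ≤ piF a b c x := by
      unfold nmP piF
      apply card_le_card
      intro s hs
      rw [mem_filter] at hs ⊢
      exact ⟨hTsub hs.1, hs.2⟩
    exact_mod_cast this
  have hWz : 0 < Wz z := Wz_pos z
  have hCF0 := CF_pos a b c z
  have hun : ((x : ℝ) - M) * (2 * CF a b c z) ≤ uns z a b c T / Wz z := by
    rw [le_div_iff₀ hWz]
    have h1 := rough_low a b c z x
    rw [rough_euler a b c hadm z hz2] at h1
    have h2 : (#((Icc 1 x).filter (fun t : ℕ => ∀ p ∈ PS z, ¬ (p : ℤ) ∣ (a : ℤ) * (t : ℤ) ^ 2 + b * t + c)) : ℝ) ≤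
        uns z a b c T := by
      have : #((Icc 1 x).filter (fun t : ℕ => ∀ p ∈ PS z, ¬ (p : ℤ) ∣ (a : ℤ) * (t : ℤ) ^ 2 + b * t + c)) ≤
          uns z a b c T := by
        unfold uns
        apply card_le_card
        intro s hs
        rw [mem_filter] at hs ⊢
        have hall : ∀ p ≤ z, p.Prime → ¬ ((p : ℤ) ∣ (a : ℤ) * s ^ 2 + b * s + c) := by
          intro p hpz hpp
          exact hs.2 p (by unfold PS; rw [mem_filter, mem_range]; exact ⟨by omega, hpp⟩)
        refine ⟨?_, hall⟩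
        rw [hT, mem_filter]
        refine ⟨hs.1, ?_⟩
        by_contra hcop
        obtain ⟨p, hpp, h3, h4⟩ := Nat.Prime.not_coprime_iff_dvd.1 hcop
        have hpz : p ≤ z := (Nat.le_of_dvd hcn h4).trans hzc
        apply hall p hpz hpp
        have h5 : (p : ℤ) ∣ (s : ℤ) := by exact_mod_cast h3
        have h6 : (p : ℤ) ∣ c := Int.natCast_dvd.2 h4
        exact dvd_add (dvd_add (Dvd.dvd.mul_left (Dvd.dvd.pow h5 (by norm_num)) _) (Dvd.dvd.mul_left h5 _)) h6
      exact_mod_cast this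
    calc ((x : ℝ) - M) * (2 * CF a b c z) * Wz z
        = ((x : ℝ) - ∏ p ∈ PS z, (p : ℝ)) * ((∏ p ∈ (Icc 1 z).filter Nat.Prime, (1 - 1 / (p : ℝ))) * (2 * CF a b c z)) := by
          unfold Wz; rw [hM]; push_cast; ring
      _ ≤ _ := by
          refine le_trans (le_of_eq ?_) (h1.trans h2)
          push_cast
          rfl
  have hlogBx : 0 < Real.log (B * x ^ 2) := by
    apply Real.log_pos
    have h1 : 1 < (B : ℝ) := by
      by_contra hcon
      push Not at hcon
      have := Real.log_nonpos (by positivity) hcon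
      linarith
    have h2 : (1 : ℝ) ≤ (x : ℝ) ^ 2 := one_le_pow₀ hx1'
    nlinarith
  have hxM : (x : ℝ) ≤ (x - M) * Real.exp (7 * ε) := by
    have h1 : M * Real.exp (7 * ε) / (Real.exp (7 * ε) - 1) ≤ x := (hXM.trans hlX).trans hxL
    rw [div_le_iff₀ (by linarith)] at h1
    linarith
  refine ⟨C, hC0, hC, ?_, ?_⟩
  · refine le_trans ?_ (hmain1.trans hpi)
    apply div_le_div_of_nonneg_right _ hlogBx.le
    have hxM0 : 0 ≤ (x : ℝ) - M := by
      by_contra hcon
      push Not at hcon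
      have := mul_neg_of_neg_of_pos hcon (Real.exp_pos (7 * ε))
      linarith
    calc θ * (2 * C) * x ≤ θ₀ * (2 * C) * x := by
          apply mul_le_mul_of_nonneg_right _ hx0
          exact mul_le_mul_of_nonneg_right hθθ (by positivity)
      _ ≤ θ₀ * (2 * (CF a b c z * Real.exp (7 * ε))) * ((x - M) * Real.exp (7 * ε)) := by
          apply mul_le_mul _ hxM hx0 (by positivity)
          exact mul_le_mul_of_nonneg_left (by linarith) (by linarith)
      _ = (θ₀ * (Real.exp (7 * ε) * Real.exp (7 * ε))) * ((x - M) * (2 * CF a b c z)) := by ring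
      _ = θ₁ * ((x - M) * (2 * CF a b c z)) := by
          rw [hexp4, hr]
          congr 1
          field_simp
      _ ≤ θ₁ * (uns z a b c T / Wz z) := mul_le_mul_of_nonneg_left hun (by linarith)
  · refine le_trans ?_ (hmain2.trans hpi)
    apply div_le_div_of_nonneg_right _ (by linarith)
    apply mul_le_mul_of_nonneg_right _ hx0
    linarith

end Q239.LC
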