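import Mathlib
import Pool.Agent.Q239.LC.QM

set_option autoImplicit false

/-!
Conjecture F on average over the leading coefficient, in the notation of the problem.
-/

namespace Q239.LC.QFin
open Finset Filter Topology
open Pool.Agent.W468.ConjF (piF CF)

/-- the triple `(a, b, c)` is admissible -/
def Admissible (a b c : ℤ) : Prop :=
  0 < a ∧ Int.gcd (Int.gcd a b) c = 1 ∧ ¬ (Even (a + b) ∧ Even c) ∧ ¬ IsSquare (b ^ 2 - 4 * a * c)

/-- `ε` -/
noncomputable def eps (a b : ℤ) : ℝ := open Classical in if Even (a + b) then 1 else 1 / 2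

/-- the constant, cut at `z` -/
noncomputable def partialC (a b c : ℤ) (z : ℕ) : ℝ :=
  eps a b * (∏ p ∈ (Int.gcd a b).primeFactors.filter (fun p => 3 ≤ p), (p : ℝ) / (p - 1)) *
    ∏ p ∈ (Icc 3 z).filter (fun p : ℕ => p.Prime ∧ ¬ (p : ℤ) ∣ a),
      (1 - (jacobiSym (b ^ 2 - 4 * a * c) p : ℝ) / (p - 1))

lemma adm_iff {a b c : ℤ} (h : Pool.Agent.W468.ConjF.Admissible a b c) : Admissible a b c := by
  obtain ⟨h0, h1, h2, h3⟩ := h
  refine ⟨h0, ?_, ?_, h3⟩
  · have hd1 : ((Int.gcd (Int.gcd a b) c : ℕ) : ℤ) ∣ (Int.gcd a b : ℤ) := Int.gcd_dvd_left _ _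
    have h4 := h1 ((Int.gcd (Int.gcd a b) c : ℕ) : ℤ) (hd1.trans (Int.gcd_dvd_left _ _))
      (hd1.trans (Int.gcd_dvd_right _ _)) (Int.gcd_dvd_right _ _)
    have h5 := Int.isUnit_iff_natAbs_eq.1 h4
    simpa using h5
  · rintro ⟨h4, h5⟩
    exact h2 ⟨even_iff_two_dvd.1 h4, even_iff_two_dvd.1 h5⟩

lemma CF_eq' (a b c : ℤ) (ha : 0 < a) (z : ℕ) (hz : a ≤ z) : CF a b c z = partialC a b c z := by
  unfold CF partialC eps
  have e1 : (range (z + 1)).filter (fun p : ℕ => p.Prime ∧ 3 ≤ p ∧ (p : ℤ) ∣ a ∧ (p : ℤ) ∣ b) =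
      (Int.gcd a b).primeFactors.filter (fun p => 3 ≤ p) := by
    ext p
    simp only [mem_filter, mem_range, Nat.mem_primeFactors]
    have hg : Int.gcd a b ≠ 0 := by
      intro h
      have := (Int.gcd_eq_zero_iff.1 h).1
      omega
    constructor
    · rintro ⟨-, h1, h2, h3, h4⟩
      refine ⟨⟨h1, ?_, hg⟩, by omega⟩
      have := Int.dvd_coe_gcd h3 h4
      exact_mod_cast this
    · rintro ⟨⟨h1, h2, -⟩, h3⟩
      have h4 : (p : ℤ) ∣ (Int.gcd a b : ℤ) := by exact_mod_cast h2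
      have h5 : (p : ℤ) ∣ a := h4.trans (Int.gcd_dvd_left _ _)
      have h6 : (p : ℤ) ∣ b := h4.trans (Int.gcd_dvd_right _ _)
      have h7 := Int.le_of_dvd ha h5
      exact ⟨by omega, h1, by omega, h5, h6⟩
  have e2 : (range (z + 1)).filter (fun p : ℕ => p.Prime ∧ 3 ≤ p ∧ ¬ (p : ℤ) ∣ a) =
      (Icc 3 z).filter (fun p : ℕ => p.Prime ∧ ¬ (p : ℤ) ∣ a) := by
    ext p
    simp only [mem_filter, mem_range, mem_Icc]
    constructor
    · rintro ⟨h0, h1, h2, h3⟩; exact ⟨⟨h2, by omega⟩, h1, h3⟩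
    · rintro ⟨⟨h0, h1⟩, h2, h3⟩; exact ⟨by omega, h2, h0, h3⟩
  rw [e1, e2]
  have h3 : Even (a + b) ↔ (2 : ℤ) ∣ a + b := even_iff_two_dvd
  congr 2
  by_cases h : (2 : ℤ) ∣ a + b
  · rw [if_pos h, if_pos (h3.2 h)]
  · rw [if_neg h, if_neg (fun h' => h (h3.1 h'))]

theorem final : ∃ K : ℕ, ∀ b c : ℤ, c ≠ 0 → ∀ θ : ℝ, θ < 1 → ∃ κ : ℝ, 0 < κ ∧ ∃ A0 : ℕ,
    ∀ A : ℕ, A0 ≤ A → ∀ x : ℕ, Real.log A ≤ x → (x : ℝ) ^ 4 * Real.log A ^ K ≤ A →
    ∃ S : Finset ℕ, S ⊆ Icc 1 A ∧ κ * A ≤ S.card ∧ ∀ a ∈ S, Admissible a b c ∧ ∃ C : ℝ, 0 < C ∧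
      Tendsto (fun z => partialC a b c z) atTop (𝓝 C) ∧
      θ * (2 * C) * x / Real.log (A * x ^ 2) ≤ piF a b c x ∧
      κ * x / Real.log A ≤ piF a b c x := by
  classical
  obtain ⟨K, hK⟩ := lead_full
  refine ⟨K + 1, fun b c hc θ hθ => ?_⟩
  obtain ⟨κ, hκ, B0, hB0⟩ := hK b c hc (max θ 0) (max_lt hθ one_pos)
  refine ⟨κ / 3, by positivity, 2 * B0 + ⌈Real.exp 3⌉₊ + 3, fun A hA x h1 h2 => ?_⟩
  set B : ℕ := A / 2 with hB
  have hBB : B0 ≤ B := by omega
  have h2B : 2 * B ≤ A := by omega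
  have hA3 : A ≤ 3 * B := by omega
  have hB1 : 1 ≤ B := by omega
  have hAe : Real.exp 3 ≤ A := (Nat.le_ceil _).trans (by exact_mod_cast (by omega : ⌈Real.exp 3⌉₊ ≤ A))
  have hBr : (1 : ℝ) ≤ B := by exact_mod_cast hB1
  have hAr : (0 : ℝ) < A := by
    have := Real.exp_pos 3
    linarith
  have hA3r : (A : ℝ) ≤ 3 * B := by exact_mod_cast hA3
  have hBA : (B : ℝ) ≤ A := by exact_mod_cast (by omega : B ≤ A)
  have hlA : 3 ≤ Real.log A := by
    rw [Real.le_log_iff_exp_le hAr]; exact hAe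
  have hlB0 : 0 ≤ Real.log B := Real.log_nonneg hBr
  have hlBA : Real.log B ≤ Real.log A := Real.log_le_log (by linarith) hBA
  have hx3 : (3 : ℝ) ≤ x := hlA.trans h1
  have hlBx : Real.log B ≤ x := hlBA.trans h1
  have hcond : (x : ℝ) ^ 4 * Real.log B ^ K ≤ B := by
    have i1 : (x : ℝ) ^ 4 * Real.log B ^ K ≤ x ^ 4 * Real.log A ^ K := by gcongr
    have i2 : (x : ℝ) ^ 4 * Real.log A ^ K * 3 ≤ x ^ 4 * Real.log A ^ K * Real.log A := by gcongr
    have i3 : (x : ℝ) ^ 4 * Real.log A ^ K * Real.log A = x ^ 4 * Real.log A ^ (K + 1) := by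
      rw [pow_succ]; ring
    linarith
  have h3 := hB0 B hBB x hlBx hcond
  refine ⟨_, ?_, le_trans ?_ h3, ?_⟩
  · intro a ha
    rw [mem_filter, mem_Ioc] at ha
    exact mem_Icc.2 ⟨by omega, by omega⟩
  · nlinarith
  · intro a ha
    rw [mem_filter, mem_Ioc] at ha
    obtain ⟨ha0, hadm, C, hC0, hC, h4, h5⟩ := ha
    have haz : (0 : ℤ) < a := by exact_mod_cast (by omega : 0 < a)
    refine ⟨adm_iff hadm, C, hC0, ?_, ?_, ?_⟩
    · refine hC.congr' ?_
      filter_upwards [eventually_ge_atTop a] with z hz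
      exact CF_eq' a b c haz z (by exact_mod_cast hz)
    · refine le_trans ?_ h4
      have hlog0 : 0 < Real.log (B * x ^ 2) := by
        apply Real.log_pos
        nlinarith
      have hlog1 : Real.log (B * x ^ 2) ≤ Real.log (A * x ^ 2) := by
        apply Real.log_le_log (by positivity)
        gcongr
      have hlog2 : 0 < Real.log (A * x ^ 2) := by linarith
      calc θ * (2 * C) * x / Real.log (A * x ^ 2) ≤ max θ 0 * (2 * C) * x / Real.log (A * x ^ 2) := by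
            gcongr
            exact le_max_left _ _
        _ ≤ max θ 0 * (2 * C) * x / Real.log (B * x ^ 2) := by
            have : 0 ≤ max θ 0 := le_max_right _ _
            gcongr
    · refine le_trans ?_ h5
      have hlB1 : 0 < Real.log B := by
        have : (B : ℝ) ≠ 1 := by
          intro h
          rw [h] at hA3r
          have := Real.add_one_le_exp (3 : ℝ)
          linarith
        apply Real.log_pos
        exact lt_of_le_of_ne hBr (Ne.symm this)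
      have hlA0 : 0 < Real.log A := by linarith
      calc κ / 3 * x / Real.log A ≤ κ * x / Real.log A := by
            gcongr
            linarith
        _ ≤ κ * x / Real.log B := by gcongr

end Q239.LC.QFin
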